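import Pool.Agent.Helper42.Haag.Defs

set_option autoImplicit false

namespace Pool.Agent.Helper42.Haag

open Matrix

variable {G : Type*} [Group G] {ψ : G → ℝ}

/-- the Gromov kernel of a conditionally negative definite function -/
def gker (ψ : G → ℝ) : Matrix G G ℝ := fun g k => ψ g + ψ k - ψ (g⁻¹ * k)

lemma IsCND.gker_nonneg (h : IsCND ψ) (s : Finset G) (c : G → ℝ) :
    0 ≤ ∑ g ∈ s, ∑ k ∈ s, c g * c k * gker ψ g k := by
  classical
  -- first for `1 ∈ s`
  have key : ∀ (s : Finset G) (c : G → ℝ), (1 : G) ∈ s →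
      0 ≤ ∑ g ∈ s, ∑ k ∈ s, c g * c k * gker ψ g k := by
    intro s c h1
    set S : ℝ := ∑ g ∈ s, c g with hS
    have hneg := h.sum_nonpos s (fun g => c g - if g = 1 then S else 0) (by
      rw [Finset.sum_sub_distrib, Finset.sum_ite_eq' s 1 (fun _ => S), if_pos h1]
      simp [hS])
    have e1 : ∀ g ∈ s, ∑ k ∈ s, (c g - if g = 1 then S else 0) * (c k - if k = 1 then S else 0) *
        ψ (g⁻¹ * k) = (c g - if g = 1 then S else 0) * (∑ k ∈ s, c k * ψ (g⁻¹ * k) - S * ψ g) := by
      intro g _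
      rw [mul_sub, Finset.mul_sum]
      have : ∀ k ∈ s, (c g - if g = 1 then S else 0) * (c k - if k = 1 then S else 0) *
          ψ (g⁻¹ * k) = (c g - if g = 1 then S else 0) * (c k * ψ (g⁻¹ * k)) -
            (if k = 1 then (c g - if g = 1 then S else 0) * (S * ψ (g⁻¹ * k)) else 0) := by
        intro k _
        split_ifs <;> ring
      rw [Finset.sum_congr rfl this, Finset.sum_sub_distrib,
        Finset.sum_ite_eq' s 1, if_pos h1, mul_one, h.map_inv]
    rw [Finset.sum_congr rfl e1] at hneg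
    have e2 : ∑ g ∈ s, (c g - if g = 1 then S else 0) *
        (∑ k ∈ s, c k * ψ (g⁻¹ * k) - S * ψ g) =
        ∑ g ∈ s, c g * (∑ k ∈ s, c k * ψ (g⁻¹ * k) - S * ψ g) -
          S * (∑ k ∈ s, c k * ψ k) := by
      have : ∀ g ∈ s, (c g - if g = 1 then S else 0) *
          (∑ k ∈ s, c k * ψ (g⁻¹ * k) - S * ψ g) =
          c g * (∑ k ∈ s, c k * ψ (g⁻¹ * k) - S * ψ g) -
            (if g = 1 then S * (∑ k ∈ s, c k * ψ (g⁻¹ * k) - S * ψ g) else 0) := by
        intro g _
        split_ifs <;> ring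
      rw [Finset.sum_congr rfl this, Finset.sum_sub_distrib,
        Finset.sum_ite_eq' s 1, if_pos h1]
      simp [h.map_one]
    rw [e2] at hneg
    have e3 : ∑ g ∈ s, ∑ k ∈ s, c g * c k * gker ψ g k =
        -(∑ g ∈ s, c g * (∑ k ∈ s, c k * ψ (g⁻¹ * k) - S * ψ g) -
          S * (∑ k ∈ s, c k * ψ k)) := by
      have : ∀ g ∈ s, ∑ k ∈ s, c g * c k * gker ψ g k =
          c g * ψ g * S + c g * (∑ k ∈ s, c k * ψ k) - c g * (∑ k ∈ s, c k * ψ (g⁻¹ * k)) := by
        intro g _
        rw [hS, Finset.mul_sum, Finset.mul_sum, Finset.mul_sum, ← Finset.sum_add_distrib,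
          ← Finset.sum_sub_distrib]
        refine Finset.sum_congr rfl fun k _ => ?_
        simp only [gker]
        ring
      rw [Finset.sum_congr rfl this]
      simp only [mul_sub, Finset.sum_sub_distrib, Finset.sum_add_distrib]
      have e4 : ∑ x ∈ s, c x * (S * ψ x) = ∑ x ∈ s, c x * ψ x * S :=
        Finset.sum_congr rfl fun x _ => by ring
      have e5 : ∑ x ∈ s, c x * ∑ k ∈ s, c k * ψ k = S * ∑ k ∈ s, c k * ψ k := by
        rw [hS, Finset.sum_mul]
      rw [e4, e5]
      ring
    rw [e3]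
    linarith
  by_cases h1 : (1 : G) ∈ s
  · exact key s c h1
  · have := key (insert 1 s) (fun g => if g = 1 then 0 else c g) (Finset.mem_insert_self _ _)
    have e : ∀ g ∈ s, g ≠ 1 := fun g hg h => h1 (h ▸ hg)
    rw [Finset.sum_insert h1] at this
    simp only [if_pos, zero_mul, Finset.sum_const_zero, zero_add] at this
    refine this.trans (le_of_eq ?_)
    refine Finset.sum_congr rfl fun g hg => ?_
    rw [Finset.sum_insert h1]
    simp only [if_pos, mul_zero, zero_mul, zero_add, if_neg (e g hg)]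
    refine Finset.sum_congr rfl fun k hk => ?_
    rw [if_neg (e k hk)]

lemma IsCND.gker_symm (h : IsCND ψ) (g k : G) : gker ψ g k = gker ψ k g := by
  simp only [gker]
  rw [← h.map_inv (g⁻¹ * k)]
  simp
  ring

omit [Group G] in
lemma finsupp_form (M : Matrix G G ℝ) (x : G →₀ ℝ) :
    (x.sum fun i xi => x.sum fun j xj => star xi * M i j * xj) =
      ∑ g ∈ x.support, ∑ k ∈ x.support, x g * x k * M g k := by
  simp only [Finsupp.sum, star_trivial]
  refine Finset.sum_congr rfl fun g _ => Finset.sum_congr rfl fun k _ => by ring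

lemma IsCND.gker_posSemidef (h : IsCND ψ) : (gker ψ).PosSemidef := by
  refine ⟨?_, fun x => ?_⟩
  · ext g k
    simp [Matrix.conjTranspose, h.gker_symm g k]
  · rw [finsupp_form]
    exact h.gker_nonneg _ _

lemma IsCND.pow_posSemidef (h : IsCND ψ) (n : ℕ) :
    (Matrix.of fun g k => gker ψ g k ^ n : Matrix G G ℝ).PosSemidef := by
  induction n with
  | zero =>
    refine ⟨by ext g k; simp, fun x => ?_⟩
    rw [finsupp_form]
    simp only [pow_zero, Matrix.of_apply, mul_one]
    rw [← Finset.sum_mul_sum]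
    exact mul_self_nonneg _
  | succ n ih =>
    have e : (Matrix.of fun g k => gker ψ g k ^ (n + 1) : Matrix G G ℝ) =
        (Matrix.of fun g k => gker ψ g k ^ n : Matrix G G ℝ) ⊙ gker ψ := by
      ext g k
      simp [pow_succ]
    rw [e]
    exact Matrix.PosSemidef.hadamard (𝕜 := ℝ) ih h.gker_posSemidef

lemma IsCND.pow_nonneg (h : IsCND ψ) (n : ℕ) (s : Finset G) (c : G → ℝ) :
    0 ≤ ∑ g ∈ s, ∑ k ∈ s, c g * c k * gker ψ g k ^ n := by
  classical
  have := (h.pow_posSemidef n).2 (Finsupp.onFinset s (fun g => if g ∈ s then c g else 0) (by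
    intro a ha; by_contra hn; simp [hn] at ha))
  rw [finsupp_form] at this
  refine this.trans (le_of_eq ?_)
  have hsub : (Finsupp.onFinset s (fun g => if g ∈ s then c g else 0) (by
    intro a ha; by_contra hn; simp [hn] at ha)).support ⊆ s := Finsupp.support_onFinset_subset
  rw [Finset.sum_subset hsub]
  · refine Finset.sum_congr rfl fun g hg => ?_
    rw [Finset.sum_subset hsub]
    · refine Finset.sum_congr rfl fun k hk => ?_
      simp [hg, hk]
    · intro k hk hk'
      simp only [Finsupp.mem_support_iff, not_not] at hk'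
      rw [hk']; ring
  · intro g hg hg'
    simp only [Finsupp.mem_support_iff, not_not] at hg'
    refine Finset.sum_eq_zero fun k _ => ?_
    rw [hg']; ring

theorem schoenberg {G : Type*} [Group G] {ψ : G → ℝ} (h : IsCND ψ) {t : ℝ} (ht : 0 ≤ t)
    (s : Finset G) (c : G → ℝ) :
    0 ≤ ∑ g ∈ s, ∑ k ∈ s, c g * c k * Real.exp (-t * ψ (g⁻¹ * k)) := by
  -- exponential of the kernel
  have hexp : ∀ c : G → ℝ, 0 ≤ ∑ g ∈ s, ∑ k ∈ s, c g * c k * Real.exp (t * gker ψ g k) := by
    intro c
    have h1 : ∀ g k, HasSum (fun n : ℕ => c g * c k * ((t * gker ψ g k) ^ n / n.factorial))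
        (c g * c k * Real.exp (t * gker ψ g k)) := by
      intro g k
      apply HasSum.mul_left
      rw [Real.exp_eq_exp_ℝ]
      exact NormedSpace.expSeries_div_hasSum_exp _
    have h2 : HasSum (fun n : ℕ => ∑ g ∈ s, ∑ k ∈ s,
        c g * c k * ((t * gker ψ g k) ^ n / n.factorial))
        (∑ g ∈ s, ∑ k ∈ s, c g * c k * Real.exp (t * gker ψ g k)) :=
      hasSum_sum fun g _ => hasSum_sum fun k _ => h1 g k
    refine h2.nonneg fun n => ?_
    have := mul_nonneg (div_nonneg (_root_.pow_nonneg ht n) (Nat.cast_nonneg (α := ℝ) n.factorial))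
      (h.pow_nonneg n s c)
    refine this.trans (le_of_eq ?_)
    rw [Finset.mul_sum]
    refine Finset.sum_congr rfl fun g _ => ?_
    rw [Finset.mul_sum]
    refine Finset.sum_congr rfl fun k _ => ?_
    rw [mul_pow]
    ring
  refine (hexp (fun g => c g * Real.exp (-t * ψ g))).trans (le_of_eq ?_)
  refine Finset.sum_congr rfl fun g _ => Finset.sum_congr rfl fun k _ => ?_
  have : Real.exp (-t * ψ (g⁻¹ * k)) =
      Real.exp (-t * ψ g) * Real.exp (-t * ψ k) * Real.exp (t * gker ψ g k) := by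
    rw [← Real.exp_add, ← Real.exp_add]
    congr 1
    simp only [gker]
    ring
  rw [this]
  ring

lemma IsCND.nonneg (h : IsCND ψ) (g : G) : 0 ≤ ψ g := by
  classical
  have := h.gker_nonneg {g} (fun _ => 1)
  simp [gker, h.map_one] at this
  linarith

end Pool.Agent.Helper42.Haag
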