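import Pool.Agent.Helper42.Haag.Defs

set_option autoImplicit false

namespace Pool.Agent.Helper42.Haag.S2

open scoped ComplexConjugate

variable {G : Type} [Group G]

/-- positive definite normalised function, as a class -/
class PD (φ : G → ℝ) : Prop where
  inv : ∀ g, φ g⁻¹ = φ g
  pd : ∀ (s : Finset G) (c : G → ℝ), 0 ≤ ∑ g ∈ s, ∑ k ∈ s, c g * c k * φ (g⁻¹ * k)

/-- the pre-Hilbert space -/
def PH (_φ : G → ℝ) : Type := G →₀ ℂ

noncomputable instance (φ : G → ℝ) : AddCommGroup (PH φ) := inferInstanceAs (AddCommGroup (G →₀ ℂ))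
noncomputable instance (φ : G → ℝ) : Module ℂ (PH φ) := inferInstanceAs (Module ℂ (G →₀ ℂ))

/-- the form -/
noncomputable def form (φ : G → ℝ) (f g : G →₀ ℂ) : ℂ :=
  f.sum fun a z => g.sum fun b w => conj z * w * (φ (a⁻¹ * b) : ℂ)

lemma form_symm (φ : G → ℝ) [h : PD φ] (f g : G →₀ ℂ) : conj (form φ g f) = form φ f g := by
  unfold form
  rw [Finsupp.sum_comm]
  simp only [Finsupp.sum, map_sum]
  refine Finset.sum_congr rfl fun a _ => Finset.sum_congr rfl fun b _ => ?_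
  have : φ (b⁻¹ * a) = φ (a⁻¹ * b) := by
    rw [← h.inv (b⁻¹ * a)]; simp
  simp [this, mul_comm]

lemma form_nonneg (φ : G → ℝ) [h : PD φ] (f : G →₀ ℂ) : 0 ≤ (form φ f f).re := by
  have h1 := h.pd f.support (fun g => (f g).re)
  have h2 := h.pd f.support (fun g => (f g).im)
  have : (form φ f f).re =
      ∑ g ∈ f.support, ∑ k ∈ f.support, (f g).re * (f k).re * φ (g⁻¹ * k) +
      ∑ g ∈ f.support, ∑ k ∈ f.support, (f g).im * (f k).im * φ (g⁻¹ * k) := by
    simp only [form, Finsupp.sum, Complex.re_sum]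
    rw [← Finset.sum_add_distrib]
    refine Finset.sum_congr rfl fun a _ => ?_
    rw [← Finset.sum_add_distrib]
    refine Finset.sum_congr rfl fun b _ => ?_
    simp
    ring
  rw [this]
  linarith

lemma form_add (φ : G → ℝ) (f f' g : G →₀ ℂ) : form φ (f + f') g = form φ f g + form φ f' g := by
  unfold form
  rw [Finsupp.sum_add_index'] <;> simp [← Finsupp.sum_add, add_mul]

lemma form_smul (φ : G → ℝ) (c : ℂ) (f g : G →₀ ℂ) : form φ (c • f) g = conj c * form φ f g := by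
  unfold form
  rw [Finsupp.sum_smul_index] <;> simp [Finsupp.mul_sum, ← mul_assoc]

noncomputable instance core (φ : G → ℝ) [h : PD φ] : PreInnerProductSpace.Core ℂ (PH φ) where
  inner f g := form φ f g
  conj_inner_symm f g := form_symm φ f g
  re_inner_nonneg f := form_nonneg φ f
  add_left f f' g := form_add φ f f' g
  smul_left f g c := form_smul φ c f g

noncomputable instance (φ : G → ℝ) [h : PD φ] : SeminormedAddCommGroup (PH φ) :=
  InnerProductSpace.Core.toSeminormedAddCommGroup (𝕜 := ℂ)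

noncomputable instance (φ : G → ℝ) [h : PD φ] : InnerProductSpace ℂ (PH φ) := .ofCore _

lemma inner_def (φ : G → ℝ) [h : PD φ] (f g : PH φ) : inner ℂ f g = form φ f g := rfl

/-- the Hilbert space -/
abbrev HS (φ : G → ℝ) [PD φ] : Type := UniformSpace.Completion (PH φ)

/-- translation -/
noncomputable def tr (φ : G → ℝ) (a : G) : PH φ ≃ₗ[ℂ] PH φ :=
  (Finsupp.domLCongr (Equiv.mulLeft a) : (G →₀ ℂ) ≃ₗ[ℂ] (G →₀ ℂ))

lemma form_tr (φ : G → ℝ) (a : G) (f g : G →₀ ℂ) :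
    form φ (Finsupp.domLCongr (R := ℂ) (Equiv.mulLeft a) f)
      (Finsupp.domLCongr (R := ℂ) (Equiv.mulLeft a) g) = form φ f g := by
  unfold form
  simp only [Finsupp.domLCongr_apply, Finsupp.domCongr_apply]
  rw [Finsupp.sum_equivMapDomain]
  refine Finsupp.sum_congr fun x _ => ?_
  rw [Finsupp.sum_equivMapDomain]
  refine Finsupp.sum_congr fun y _ => ?_
  simp [mul_assoc]

lemma dom_one (f : G →₀ ℂ) : Finsupp.domLCongr (R := ℂ) (Equiv.mulLeft (1 : G)) f = f := by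
  ext x
  simp only [Finsupp.domLCongr_apply, Finsupp.domCongr_apply, Finsupp.equivMapDomain_apply,
    Equiv.mulLeft_symm_apply, inv_one, one_mul]

lemma dom_mul (a b : G) (f : G →₀ ℂ) : Finsupp.domLCongr (R := ℂ) (Equiv.mulLeft (a * b)) f =
    Finsupp.domLCongr (R := ℂ) (Equiv.mulLeft a) (Finsupp.domLCongr (R := ℂ) (Equiv.mulLeft b) f) := by
  ext x
  simp only [Finsupp.domLCongr_apply, Finsupp.domCongr_apply, Finsupp.equivMapDomain_apply,
    Equiv.mulLeft_symm_apply, mul_inv_rev, mul_assoc]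

lemma dom_single (a : G) : Finsupp.domLCongr (R := ℂ) (Equiv.mulLeft a) (Finsupp.single 1 1) =
    (Finsupp.single a 1 : G →₀ ℂ) := by
  simp

/-- the cyclic vector -/
noncomputable def xi (φ : G → ℝ) : PH φ := (Finsupp.single 1 1 : G →₀ ℂ)

lemma form_xi (φ : G → ℝ) (a : G) : form φ (xi φ) (tr φ a (xi φ)) = φ a := by
  have : (tr φ a (xi φ) : G →₀ ℂ) = (Finsupp.single a 1 : G →₀ ℂ) := dom_single a
  show form φ (Finsupp.single 1 1 : G →₀ ℂ) (tr φ a (xi φ) : G →₀ ℂ) = φ a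
  rw [this]
  simp [form]

lemma tr_one (φ : G → ℝ) (f : PH φ) : tr φ 1 f = f := dom_one f

lemma tr_mul (φ : G → ℝ) (a b : G) (f : PH φ) : tr φ (a * b) f = tr φ a (tr φ b f) := dom_mul a b f

lemma norm_tr (φ : G → ℝ) [PD φ] (a : G) (f : PH φ) : ‖tr φ a f‖ = ‖f‖ := by
  rw [@norm_eq_sqrt_re_inner ℂ, @norm_eq_sqrt_re_inner ℂ, inner_def, inner_def]
  congr 2
  exact form_tr φ a f f

/-- the embedding in the completion -/
noncomputable def em (φ : G → ℝ) [PD φ] : PH φ →ₗ[ℂ] HS φ :=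
  (UniformSpace.Completion.toComplL : PH φ →L[ℂ] HS φ).toLinearMap

lemma em_dense (φ : G → ℝ) [PD φ] : DenseRange (em φ) := UniformSpace.Completion.denseRange_coe

lemma norm_em (φ : G → ℝ) [PD φ] (f : PH φ) : ‖em φ f‖ = ‖f‖ :=
  UniformSpace.Completion.norm_coe f

/-- the unitary of a group element -/
noncomputable def U (φ : G → ℝ) [PD φ] (a : G) : HS φ ≃ₗᵢ[ℂ] HS φ :=
  (tr φ a).extendOfIsometry (em φ) (em φ) (em_dense φ) (em_dense φ)
    (fun x => by rw [norm_em, norm_em, norm_tr])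

lemma U_em (φ : G → ℝ) [PD φ] (a : G) (f : PH φ) : U φ a (em φ f) = em φ (tr φ a f) := by
  unfold U
  exact LinearEquiv.extendOfIsometry_eq ..

lemma ext_U {φ : G → ℝ} [PD φ] {u v : HS φ ≃ₗᵢ[ℂ] HS φ} (h : ∀ f, u (em φ f) = v (em φ f)) :
    u = v := by
  have : (u : HS φ → HS φ) = v := (em_dense φ).equalizer u.continuous v.continuous
    (funext h)
  exact LinearIsometryEquiv.ext fun x => congrFun this x

/-- the representation -/
noncomputable def rep (φ : G → ℝ) [PD φ] : G →* (HS φ ≃ₗᵢ[ℂ] HS φ) where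
  toFun := U φ
  map_one' := by
    apply ext_U
    intro f
    rw [U_em]
    rw [tr_one]
    rfl
  map_mul' a b := by
    apply ext_U
    intro f
    show U φ (a * b) (em φ f) = U φ a (U φ b (em φ f))
    rw [U_em, U_em, U_em, tr_mul]

end Pool.Agent.Helper42.Haag.S2

namespace Pool.Agent.Helper42.Haag

open S2

theorem exists_rep {G : Type} [Group G] (φ : G → ℝ) (h1 : φ 1 = 1) (hinv : ∀ g, φ g⁻¹ = φ g)
    (hpd : ∀ (s : Finset G) (c : G → ℝ), 0 ≤ ∑ g ∈ s, ∑ k ∈ s, c g * c k * φ (g⁻¹ * k)) :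
    ∃ (H : Type) (_ : NormedAddCommGroup H) (_ : InnerProductSpace ℂ H) (_ : CompleteSpace H)
      (π : G →* unitary (H →L[ℂ] H)) (ξ : H), ‖ξ‖ = 1 ∧
      ∀ g, inner ℂ ξ ((π g : H →L[ℂ] H) ξ) = (φ g : ℂ) := by
  have : PD φ := ⟨hinv, hpd⟩
  refine ⟨HS φ, inferInstance, inferInstance, inferInstance,
    (Unitary.linearIsometryEquiv (𝕜 := ℂ) (H := HS φ)).symm.toMonoidHom.comp (rep φ),
    em φ (xi φ), ?_, ?_⟩
  · rw [norm_em, @norm_eq_sqrt_re_inner ℂ, inner_def]
    have := form_xi φ 1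
    rw [tr_one] at this
    rw [this, h1]
    simp
  · intro g
    have : (((Unitary.linearIsometryEquiv (𝕜 := ℂ) (H := HS φ)).symm.toMonoidHom.comp (rep φ) g :
        unitary (HS φ →L[ℂ] HS φ)) : HS φ →L[ℂ] HS φ) (em φ (xi φ)) = em φ (tr φ g (xi φ)) := by
      rw [← U_em]
      rfl
    rw [this]
    have e : inner ℂ (em φ (xi φ)) (em φ (tr φ g (xi φ))) = form φ (xi φ) (tr φ g (xi φ)) :=
      UniformSpace.Completion.inner_coe _ _
    rw [e, form_xi]

end Pool.Agent.Helper42.Haag
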