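import Pool.Agent.Helper42.Haag.Defs

set_option autoImplicit false

namespace Pool.Agent.Helper42.Haag.S4

open Matrix Filter Topology Pool.Agent.Helper42.Haag

abbrev T : Type := Circle × Circle

/-- distance to the identity -/
noncomputable def cc : C(T, ℝ) := (2 : ℝ) • (1 : C(T, ℝ)) - rechar ![1, 0] - rechar ![0, 1]

lemma rechar_apply (x : Fin 2 → ℤ) (z : T) :
    rechar x z = ((z.1 ^ (x 0) * z.2 ^ (x 1) : Circle) : ℂ).re := rfl

lemma dualMap_apply (A : Matrix (Fin 2) (Fin 2) ℤ) (z : T) :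
    dualMap A z = (z.1 ^ (A 0 0) * z.2 ^ (A 1 0), z.1 ^ (A 0 1) * z.2 ^ (A 1 1)) := rfl

lemma cc_apply (z : T) : cc z = 2 - (z.1 : ℂ).re - (z.2 : ℂ).re := by
  simp [cc, rechar_apply]

lemma re_le_one (z : Circle) : (z : ℂ).re ≤ 1 := by
  have := Complex.re_le_norm (z : ℂ)
  rwa [Circle.norm_coe] at this

lemma cc_nonneg (z : T) : 0 ≤ cc z := by
  rw [cc_apply]
  linarith [re_le_one z.1, re_le_one z.2]

lemma eq_one_of_re (z : Circle) (h : 1 ≤ (z : ℂ).re) : z = 1 := by
  have h1 : (z : ℂ).re = 1 := le_antisymm (re_le_one z) h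
  have h2 : Complex.normSq (z : ℂ) = 1 := Circle.normSq_coe z
  rw [Complex.normSq_apply, h1] at h2
  have h3 : (z : ℂ).im = 0 := by nlinarith
  apply Circle.ext
  apply Complex.ext <;> simp [h1, h3]

lemma cc_pos {z : T} (h : z ≠ 1) : 0 < cc z := by
  rcases (cc_nonneg z).lt_or_eq with h1 | h1
  · exact h1
  · exfalso
    apply h
    rw [cc_apply] at h1
    have := re_le_one z.1
    have := re_le_one z.2
    exact Prod.ext (eq_one_of_re _ (by linarith)) (eq_one_of_re _ (by linarith))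

/-- separation of a neighbourhood of the identity by `cc` -/
lemma exists_sep {V : Set T} (hV : V ∈ 𝓝 (1 : T)) : ∃ r > 0, ∀ z, z ∉ V → r ≤ cc z := by
  obtain ⟨W, hWV, hW, h1⟩ := mem_nhds_iff.1 hV
  by_cases hne : (Wᶜ).Nonempty
  · have hc : IsCompact Wᶜ := hW.isClosed_compl.isCompact
    obtain ⟨z, hz, hmin⟩ := hc.exists_isMinOn hne cc.continuous.continuousOn
    refine ⟨cc z, cc_pos (fun h => hz (h ▸ h1)), fun w hw => hmin (fun h => hw (hWV h))⟩
  · refine ⟨1, one_pos, fun z hz => ?_⟩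
    exfalso
    apply hne
    exact ⟨z, fun h => hz (hWV h)⟩

/-- the Fejér type kernel in the first variable -/
noncomputable def aN (N : ℕ) : C(T, ℝ) :=
  ((N : ℝ) ^ 2)⁻¹ • ∑ j ∈ Finset.range N, ∑ k ∈ Finset.range N,
    rechar ![(j : ℤ) - (k : ℤ), 0]

lemma aN_apply (N : ℕ) (z : T) :
    aN N z = ((N : ℝ) ^ 2)⁻¹ * Complex.normSq (∑ j ∈ Finset.range N, (z.1 : ℂ) ^ j) := by
  have h : ∀ j k : ℕ, rechar ![(j : ℤ) - (k : ℤ), 0] z =
      ((z.1 : ℂ) ^ j * (starRingEnd ℂ) ((z.1 : ℂ) ^ k)).re := by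
    intro j k
    rw [rechar_apply]
    simp only [Matrix.cons_val_zero, Matrix.cons_val_one, zpow_zero, mul_one]
    rw [_root_.zpow_sub, Circle.coe_mul, Circle.coe_inv_eq_conj]
    simp only [zpow_natCast, Circle.coe_pow]
  simp only [aN, ContinuousMap.smul_apply, ContinuousMap.sum_apply, smul_eq_mul, h]
  congr 1
  rw [← Complex.ofReal_re (Complex.normSq _), Complex.normSq_eq_conj_mul_self, mul_comm,
    map_sum, Finset.sum_mul_sum, Complex.re_sum]
  refine Finset.sum_congr rfl fun j _ => ?_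
  rw [Complex.re_sum]

lemma aN_nonneg (N : ℕ) (z : T) : 0 ≤ aN N z := by
  rw [aN_apply]
  have := Complex.normSq_nonneg (∑ j ∈ Finset.range N, (z.1 : ℂ) ^ j)
  positivity

lemma aN_one {N : ℕ} (hN : 0 < N) : aN N 1 = 1 := by
  rw [aN_apply]
  simp [Complex.normSq_apply]
  field_simp

/-- cutoff vanishing near the identity -/
noncomputable def kap (N : ℕ) : C(T, ℝ) := 1 - ((2 : ℝ) • aN N ⊓ 1)

lemma kap_apply (N : ℕ) (z : T) : kap N z = 1 - min (2 * aN N z) 1 := rfl

lemma kap_nonneg (N : ℕ) (z : T) : 0 ≤ kap N z := by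
  rw [kap_apply]; linarith [min_le_right (2 * aN N z) 1]

lemma kap_le (N : ℕ) (z : T) : kap N z ≤ 1 := by
  rw [kap_apply]
  have : 0 ≤ min (2 * aN N z) 1 := le_min (by linarith [aN_nonneg N z]) zero_le_one
  linarith

/-- cutoff localising near the identity -/
noncomputable def chi : C(T, ℝ) := (((2 : ℝ) • (1 : C(T, ℝ)) - (4 : ℝ) • cc) ⊔ 0) ⊓ 1

lemma chi_apply (z : T) : chi z = min (max (2 - 4 * cc z) 0) 1 := by
  simp [chi]

lemma chi_nonneg (z : T) : 0 ≤ chi z := by
  rw [chi_apply]; exact le_min (le_max_right _ _) zero_le_one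

lemma chi_le (z : T) : chi z ≤ 1 := by
  rw [chi_apply]; exact min_le_right _ _

lemma chi_one {z : T} (h : cc z ≤ 1 / 4) : chi z = 1 := by
  rw [chi_apply]; exact min_eq_right (le_max_of_le_left (by linarith))

lemma chi_zero {z : T} (h : 1 / 2 ≤ cc z) : chi z = 0 := by
  rw [chi_apply, max_eq_right (by linarith)]; simp

/-- angular coordinates -/
noncomputable def th (z : T) : Fin 2 → ℝ := ![(z.1 : ℂ).arg, (z.2 : ℂ).arg]

lemma th_ne {z : T} (h : z ≠ 1) : th z ≠ 0 := by
  intro h0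
  apply h
  have h1 : (z.1 : ℂ).arg = 0 := by simpa [th] using congrFun h0 0
  have h2 : (z.2 : ℂ).arg = 0 := by simpa [th] using congrFun h0 1
  have e : ∀ w : Circle, (w : ℂ).arg = 0 → w = 1 := by
    intro w hw
    apply Circle.arg_eq_arg.1
    simpa using hw
  exact Prod.ext (e _ h1) (e _ h2)

lemma continuousAt_th {z : T} (h : cc z < 1) : ContinuousAt th z := by
  have h1 : 0 < (z.1 : ℂ).re ∧ 0 < (z.2 : ℂ).re := by
    rw [cc_apply] at h
    have := re_le_one z.1
    have := re_le_one z.2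
    constructor <;> linarith
  have c1 : ContinuousAt (fun z : T => (z.1 : ℂ).arg) z :=
    ContinuousAt.comp (f := fun z : T => (z.1 : ℂ)) (Complex.continuousAt_arg (Or.inl h1.1))
      (by fun_prop)
  have c2 : ContinuousAt (fun z : T => (z.2 : ℂ).arg) z :=
    ContinuousAt.comp (f := fun z : T => (z.2 : ℂ)) (Complex.continuousAt_arg (Or.inl h1.2))
      (by fun_prop)
  refine continuousAt_pi.2 fun i => ?_
  fin_cases i
  · exact c1
  · exact c2

/-- the localised sector function -/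
noncomputable def Fh (N : ℕ) (hN : 0 < N) (h : (Fin 2 → ℝ) → ℝ) (hh : IsSector h) : C(T, ℝ) where
  toFun z := kap N z * (chi z * h (th z))
  continuous_toFun := by
    rw [continuous_iff_continuousAt]
    intro z
    by_cases h1 : z = 1
    · subst h1
      have hev : ∀ᶠ z in 𝓝 (1 : T), kap N z * (chi z * h (th z)) = 0 := by
        have : ∀ᶠ z in 𝓝 (1 : T), 1 / 2 < aN N z := by
          apply (aN N).continuous.continuousAt.eventually_const_lt
          rw [aN_one hN]; norm_num
        filter_upwards [this] with z hz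
        rw [kap_apply, min_eq_right (by linarith)]
        simp
      refine ContinuousAt.congr (f := fun _ => (0 : ℝ)) continuousAt_const ?_
      filter_upwards [hev] with z hz using hz.symm
    · by_cases h2 : cc z < 1
      · refine (kap N).continuous.continuousAt.mul (chi.continuous.continuousAt.mul ?_)
        refine ContinuousAt.comp ?_ (continuousAt_th h2)
        exact hh.cont.continuousAt (isOpen_compl_singleton.mem_nhds (th_ne h1))
      · have hev : ∀ᶠ w in 𝓝 z, kap N w * (chi w * h (th w)) = 0 := by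
          have : ∀ᶠ w in 𝓝 z, 1 / 2 < cc w := by
            apply cc.continuous.continuousAt.eventually_const_lt
            linarith
          filter_upwards [this] with w hw
          rw [chi_zero hw.le]
          simp
        refine ContinuousAt.congr (f := fun _ => (0 : ℝ)) continuousAt_const ?_
        filter_upwards [hev] with z hz using hz.symm

lemma Fh_apply (N : ℕ) (hN : 0 < N) (h : (Fin 2 → ℝ) → ℝ) (hh : IsSector h) (z : T) :
    Fh N hN h hh z = kap N z * (chi z * h (th z)) := rfl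

lemma Fh_nonneg (N : ℕ) (hN : 0 < N) (h : (Fin 2 → ℝ) → ℝ) (hh : IsSector h) (z : T) :
    0 ≤ Fh N hN h hh z :=
  mul_nonneg (kap_nonneg N z) (mul_nonneg (chi_nonneg z) (hh.nonneg _))

lemma Fh_le (N : ℕ) (hN : 0 < N) (h : (Fin 2 → ℝ) → ℝ) (hh : IsSector h) (z : T) :
    Fh N hN h hh z ≤ 1 := by
  rw [Fh_apply]
  have := kap_nonneg N z
  have := kap_le N z
  have := chi_nonneg z
  have := chi_le z
  have := hh.nonneg (th z)
  have := hh.le_one (th z)
  calc kap N z * (chi z * h (th z)) ≤ 1 * (1 * 1) := by gcongr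
    _ = 1 := by norm_num

lemma norm_Fh_le (N : ℕ) (hN : 0 < N) (h : (Fin 2 → ℝ) → ℝ) (hh : IsSector h) :
    ‖Fh N hN h hh‖ ≤ 1 := by
  rw [ContinuousMap.norm_le _ zero_le_one]
  intro z
  rw [Real.norm_eq_abs, abs_of_nonneg (Fh_nonneg _ _ _ _ _)]
  exact Fh_le _ _ _ _ _

lemma dualMap_one (A : Matrix (Fin 2) (Fin 2) ℤ) : dualMap A 1 = 1 := by
  rw [dualMap_apply]
  simp

/-- near the identity, the dual action is linear in angular coordinates -/
lemma th_dualMap (A : Matrix (Fin 2) (Fin 2) ℤ) :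
    ∀ᶠ z in 𝓝 (1 : T), th (dualMap A z) = (A.map (Int.cast : ℤ → ℝ))ᵀ *ᵥ th z := by
  have hlin : ∀ a b : ℤ, ∀ᶠ z in 𝓝 (1 : T),
      ((z.1 ^ a * z.2 ^ b : Circle) : ℂ).arg = a * (z.1 : ℂ).arg + b * (z.2 : ℂ).arg := by
    intro a b
    have hth : ContinuousAt th (1 : T) := continuousAt_th (by rw [cc_apply]; norm_num)
    have h0 : th (1 : T) = 0 := by
      ext i; fin_cases i <;> simp [th]
    have hc : ContinuousAt (fun z : T => (a : ℝ) * th z 0 + b * th z 1) 1 := by
      have c0 := (continuousAt_pi.1 hth) 0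
      have c1 := (continuousAt_pi.1 hth) 1
      exact (continuousAt_const.mul c0).add (continuousAt_const.mul c1)
    have hv : (fun z : T => (a : ℝ) * th z 0 + b * th z 1) 1 = 0 := by
      simp [h0]
    have e1 : ∀ᶠ z in 𝓝 (1 : T), -Real.pi < (a : ℝ) * th z 0 + b * th z 1 := by
      apply hc.eventually_const_lt
      show -Real.pi < (fun z : T => (a : ℝ) * th z 0 + b * th z 1) 1
      rw [hv]; linarith [Real.pi_pos]
    have e2 : ∀ᶠ z in 𝓝 (1 : T), (a : ℝ) * th z 0 + b * th z 1 < Real.pi := by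
      apply hc.eventually_lt_const
      show (fun z : T => (a : ℝ) * th z 0 + b * th z 1) 1 < Real.pi
      rw [hv]; exact Real.pi_pos
    filter_upwards [e1, e2] with z hz1 hz2
    simp only [th, Matrix.cons_val_zero, Matrix.cons_val_one] at hz1 hz2
    have hz : (z.1 ^ a * z.2 ^ b : Circle) =
        Circle.exp (a * (z.1 : ℂ).arg + b * (z.2 : ℂ).arg) := by
      rw [Circle.exp_add]
      have k : ∀ (w : Circle) (n : ℤ), w ^ n = Circle.exp (n * (w : ℂ).arg) := by
        intro w n
        conv_lhs => rw [← Circle.exp_arg w]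
        rw [← Circle.exp_zsmul]
        simp
      rw [← k, ← k]
    rw [hz]
    rw [Circle.arg_exp hz1 hz2.le]
  filter_upwards [hlin (A 0 0) (A 1 0), hlin (A 0 1) (A 1 1)] with z h1 h2
  ext i
  rw [dualMap_apply]
  fin_cases i
  · simpa [th, Matrix.mulVec, dotProduct, Fin.sum_univ_two] using h1
  · simpa [th, Matrix.mulVec, dotProduct, Fin.sum_univ_two] using h2

lemma mean_small (φ : ℤ → ℝ) (h1 : ∀ m, φ m ≤ 1) (hfin : ∀ ε > 0, {m | ε ≤ φ m}.Finite)
    {ε : ℝ} (hε : 0 < ε) :
    ∃ N : ℕ, 0 < N ∧ ((N : ℝ) ^ 2)⁻¹ * ∑ j ∈ Finset.range N, ∑ k ∈ Finset.range N,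
      φ ((j : ℤ) - (k : ℤ)) < ε := by
  classical
  obtain ⟨S, hS⟩ := (hfin (ε / 2) (by positivity)).exists_finset
  obtain ⟨N, hN⟩ := exists_nat_gt (2 * (S.card : ℝ) / ε)
  have hN0 : 0 < N := by
    have : (0 : ℝ) < N := lt_of_le_of_lt (by positivity) hN
    exact_mod_cast this
  refine ⟨N, hN0, ?_⟩
  have hNr : (0 : ℝ) < N := by exact_mod_cast hN0
  have hj : ∀ j ∈ Finset.range N, ∑ k ∈ Finset.range N, φ ((j : ℤ) - (k : ℤ)) ≤
      N * (ε / 2) + S.card := by
    intro j _
    calc ∑ k ∈ Finset.range N, φ ((j : ℤ) - (k : ℤ))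
        ≤ ∑ k ∈ Finset.range N, (ε / 2 + if ((j : ℤ) - (k : ℤ)) ∈ S then 1 else 0) := by
          apply Finset.sum_le_sum
          intro k _
          split_ifs with h
          · linarith [h1 ((j : ℤ) - k)]
          · have : ¬ (ε / 2 ≤ φ ((j : ℤ) - k)) := fun h' => h ((hS _).2 h')
            linarith [not_le.1 this]
      _ = N * (ε / 2) + ((Finset.range N).filter (fun k : ℕ => ((j : ℤ) - (k : ℤ)) ∈ S)).card := by
          rw [Finset.sum_add_distrib, Finset.sum_ite, Finset.sum_const_zero, add_zero]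
          simp
      _ ≤ N * (ε / 2) + S.card := by
          gcongr
          apply Finset.card_le_card_of_injOn (fun k : ℕ => ((j : ℤ) - (k : ℤ)))
          · intro k hk
            simp only [Finset.coe_filter, Set.mem_ofPred_eq] at hk
            exact hk.2
          · intro a _ b _ hab
            simp only at hab
            omega
  have htot : ∑ j ∈ Finset.range N, ∑ k ∈ Finset.range N, φ ((j : ℤ) - (k : ℤ)) ≤
      N * (N * (ε / 2) + S.card) := by
    calc _ ≤ ∑ j ∈ Finset.range N, (N * (ε / 2) + S.card) := Finset.sum_le_sum hj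
      _ = _ := by
        rw [Finset.sum_const, Finset.card_range, nsmul_eq_mul]
  have h2 : (2 * (S.card : ℝ)) < N * ε := by
    rwa [div_lt_iff₀ hε] at hN
  calc ((N : ℝ) ^ 2)⁻¹ * ∑ j ∈ Finset.range N, ∑ k ∈ Finset.range N, φ ((j : ℤ) - (k : ℤ))
      ≤ ((N : ℝ) ^ 2)⁻¹ * (N * (N * (ε / 2) + S.card)) := by gcongr
    _ < ε := by
        rw [inv_mul_lt_iff₀ (by positivity)]
        nlinarith

/-- the properties of the spectral functional of `exp (-tψ)` -/
structure Good {G : Type} [Group G] (φ : G → ℝ) (ι : (Fin 2 → ℤ) → G)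
    (L : C(T, ℝ) →ₗ[ℝ] ℝ) : Prop where
  pos : ∀ f, 0 ≤ f → 0 ≤ L f
  one : L 1 = 1
  char : ∀ x, L (rechar x) = φ (ι x)
  inv : ∀ (g : G) (A : Matrix (Fin 2) (Fin 2) ℤ), (∀ x, g * ι x * g⁻¹ = ι (A *ᵥ x)) →
        ∀ f : C(T, ℝ), ‖f‖ ≤ 1 → |L (f.comp (dualMap A)) - L f| ≤ 2 * √(2 - 2 * φ g)

lemma Good.mono {G : Type} [Group G] {φ : G → ℝ} {ι : (Fin 2 → ℤ) → G}
    {L : C(T, ℝ) →ₗ[ℝ] ℝ} (hL : Good φ ι L) {f g : C(T, ℝ)} (h : ∀ z, f z ≤ g z) : L f ≤ L g := by
  have := hL.pos (g - f) (fun z => by simpa using h z)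
  rw [map_sub] at this
  linarith

theorem main {G : Type} [Group G] (ψ : G → ℝ) (hψ0 : ∀ g, 0 ≤ ψ g)
    (hprop : ∀ C : ℝ, {g | ψ g ≤ C}.Finite)
    (ι : (Fin 2 → ℤ) → G) (hinj : Function.Injective ι)
    (hkey : ∀ t : ℝ, 0 ≤ t → ∃ L, Good (fun g => Real.exp (-t * ψ g)) ι L)
    {n : ℕ} (g : Fin n → G) (A : Fin n → Matrix (Fin 2) (Fin 2) ℤ)
    (hA : ∀ i x, g i * ι x * (g i)⁻¹ = ι (A i *ᵥ x))
    (h : Fin n → (Fin 2 → ℝ) → ℝ) (hh : ∀ i, IsSector (h i))
    (hsum : ∀ x : Fin 2 → ℝ, x ≠ 0 →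
      1 / 2 ≤ ∑ i, (h i (((A i).map (Int.cast : ℤ → ℝ))ᵀ *ᵥ x) - h i x)) : False := by
  -- `n > 0`
  rcases Nat.eq_zero_or_pos n with hn | hn
  · subst hn
    have := hsum ![1, 0] (fun h0 => by simpa using congrFun h0 0)
    simp at this
    linarith
  -- the neighbourhood of the identity
  have hV : {z : T | ∀ i, cc z < 1 / 4 ∧ cc (dualMap (A i) z) < 1 / 4 ∧
      th (dualMap (A i) z) = ((A i).map (Int.cast : ℤ → ℝ))ᵀ *ᵥ th z} ∈ 𝓝 (1 : T) := by
    show ∀ᶠ z in 𝓝 (1 : T), ∀ i, _
    rw [Filter.eventually_all]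
    intro i
    have c1 : cc 1 = 0 := by rw [cc_apply]; norm_num
    have e1 : ∀ᶠ z in 𝓝 (1 : T), cc z < 1 / 4 := by
      apply cc.continuous.continuousAt.eventually_lt_const
      rw [c1]; norm_num
    have e2 : ∀ᶠ z in 𝓝 (1 : T), cc (dualMap (A i) z) < 1 / 4 := by
      have : ContinuousAt (fun z => cc (dualMap (A i) z)) 1 :=
        (cc.continuous.comp (dualMap (A i)).continuous).continuousAt
      apply this.eventually_lt_const
      show cc (dualMap (A i) 1) < 1 / 4
      rw [dualMap_one, c1]; norm_num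
    filter_upwards [e1, e2, th_dualMap (A i)] with z h1 h2 h3 using ⟨h1, h2, h3⟩
  obtain ⟨r, hr, hsep⟩ := exists_sep hV
  -- choice of `t`
  set D : ℝ := 2 * n * 2 + (n + 1) / r * 1 with hD
  have hD0 : 0 < D := by positivity
  obtain ⟨t, ht, htg, ht1, ht2⟩ : ∃ t : ℝ, 0 < t ∧
      (∀ i, √(2 - 2 * Real.exp (-t * ψ (g i))) < 1 / (32 * n)) ∧
      1 - Real.exp (-t * ψ (ι ![1, 0])) < r / (16 * (n + 1)) ∧
      1 - Real.exp (-t * ψ (ι ![0, 1])) < r / (16 * (n + 1)) := by
    have hc : ∀ g, ContinuousAt (fun t : ℝ => Real.exp (-t * ψ g)) 0 := fun g => by fun_prop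
    have e0 : ∀ᶠ t in 𝓝 (0 : ℝ), ∀ i, √(2 - 2 * Real.exp (-t * ψ (g i))) < 1 / (32 * n) := by
      rw [Filter.eventually_all]
      intro i
      have : ContinuousAt (fun t : ℝ => √(2 - 2 * Real.exp (-t * ψ (g i)))) 0 := by fun_prop
      apply this.eventually_lt_const
      simp
      positivity
    have e1 : ∀ x, ∀ᶠ t in 𝓝 (0 : ℝ), 1 - Real.exp (-t * ψ (ι x)) < r / (16 * (n + 1)) := by
      intro x
      have : ContinuousAt (fun t : ℝ => 1 - Real.exp (-t * ψ (ι x))) 0 := by fun_prop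
      apply this.eventually_lt_const
      simp
      positivity
    have hev := ((e0.and (e1 ![1, 0])).and (e1 ![0, 1])).filter_mono
      (nhdsWithin_le_nhds (s := Set.Ioi (0 : ℝ)))
    obtain ⟨t, ⟨⟨h1, h2⟩, h3⟩, h4⟩ := (hev.and self_mem_nhdsWithin).exists
    exact ⟨t, h4, h1, h2, h3⟩
  obtain ⟨L, hL⟩ := hkey t ht.le
  -- choice of `N`
  obtain ⟨N, hN, hNs⟩ := mean_small (fun m => Real.exp (-t * ψ (ι ![m, 0])))
    (fun m => by
      rw [Real.exp_le_one_iff]
      nlinarith [hψ0 (ι ![m, 0])])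
    (fun ε hε => by
      have hfin := hprop (-Real.log ε / t)
      refine Set.Finite.subset (hfin.preimage (f := fun m : ℤ => ι ![m, 0]) ?_) ?_
      · intro a _ b _ hab
        have := hinj hab
        simpa using congrFun this 0
      · intro m hm
        simp only [Set.mem_ofPred_eq, Set.mem_preimage] at hm ⊢
        have := (Real.log_le_iff_le_exp hε).2 hm
        rw [le_div_iff₀ ht]
        linarith) (show (0 : ℝ) < 1 / (16 * n) by positivity)
  have haN : L (aN N) < 1 / (16 * n) := by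
    have : L (aN N) = ((N : ℝ) ^ 2)⁻¹ * ∑ j ∈ Finset.range N, ∑ k ∈ Finset.range N,
        Real.exp (-t * ψ (ι ![(j : ℤ) - (k : ℤ), 0])) := by
      simp only [aN, map_smul, map_sum, hL.char, smul_eq_mul]
    rw [this]
    exact hNs
  set F : Fin n → C(T, ℝ) := fun i => Fh N hN (h i) (hh i) with hF
  -- the complementary cutoff
  set kc : C(T, ℝ) := 1 - kap N with hkc
  have hkc0 : ∀ z, 0 ≤ kc z := fun z => by
    have := kap_le N z
    simp only [hkc, ContinuousMap.sub_apply, ContinuousMap.one_apply]; linarith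
  have hkc1 : ∀ z, kc z ≤ 1 := fun z => by
    have := kap_nonneg N z
    simp only [hkc, ContinuousMap.sub_apply, ContinuousMap.one_apply]; linarith
  have hkcn : ‖kc‖ ≤ 1 := by
    rw [ContinuousMap.norm_le _ zero_le_one]
    intro z
    rw [Real.norm_eq_abs, abs_of_nonneg (hkc0 z)]
    exact hkc1 z
  have hkcL : L kc ≤ 2 * L (aN N) := by
    rw [← smul_eq_mul, ← map_smul]
    apply hL.mono
    intro z
    simp only [hkc, ContinuousMap.sub_apply, ContinuousMap.one_apply, kap_apply,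
      ContinuousMap.smul_apply, smul_eq_mul]
    linarith [min_le_left (2 * aN N z) 1]
  -- the pointwise inequality
  have hpt : ∀ z : T, (1 / 2 : ℝ) ≤
      (∑ i, ((F i).comp (dualMap (A i)) - F i) + ∑ i, kc.comp (dualMap (A i)) +
        ((n + 1 : ℝ) / r) • cc) z := by
    intro z
    simp only [ContinuousMap.add_apply, ContinuousMap.sum_apply, ContinuousMap.sub_apply,
      ContinuousMap.comp_apply, ContinuousMap.smul_apply, smul_eq_mul]
    have hk : 0 ≤ ∑ i, kc (dualMap (A i) z) := Finset.sum_nonneg fun i _ => hkc0 _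
    have hcz : 0 ≤ ((n + 1 : ℝ) / r) * cc z := mul_nonneg (by positivity) (cc_nonneg z)
    by_cases hz1 : z = 1
    · subst hz1
      have h1 : kc 1 = 1 := by
        simp only [hkc, ContinuousMap.sub_apply, ContinuousMap.one_apply, kap_apply, aN_one hN]
        norm_num
      have h2 : ∀ i, F i 1 = 0 := by
        intro i
        simp only [hF, Fh_apply, kap_apply, aN_one hN]
        norm_num
      simp only [dualMap_one, h2] at hk hcz ⊢
      simp only [h1, sub_self, Finset.sum_const_zero, Finset.sum_const, Finset.card_univ,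
        Fintype.card_fin, nsmul_eq_mul, mul_one] at hk hcz ⊢
      have : (1 : ℝ) ≤ n := by exact_mod_cast hn
      linarith
    · by_cases hzV : z ∈ {z : T | ∀ i, cc z < 1 / 4 ∧ cc (dualMap (A i) z) < 1 / 4 ∧
          th (dualMap (A i) z) = ((A i).map (Int.cast : ℤ → ℝ))ᵀ *ᵥ th z}
      · have hs := hsum (th z) (th_ne hz1)
        have : ∀ i, (h i (((A i).map (Int.cast : ℤ → ℝ))ᵀ *ᵥ th z) - h i (th z)) ≤
            (F i (dualMap (A i) z) - F i z) + kc (dualMap (A i) z) := by
          intro i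
          obtain ⟨h1, h2, h3⟩ := hzV i
          have hFz : F i z ≤ h i (th z) := by
            simp only [hF, Fh_apply]
            have := kap_nonneg N z
            have := kap_le N z
            have := chi_nonneg z
            have := chi_le z
            have := (hh i).nonneg (th z)
            calc kap N z * (chi z * h i (th z)) ≤ 1 * (1 * h i (th z)) := by gcongr
              _ = h i (th z) := by ring
          have hFd : F i (dualMap (A i) z) =
              (1 - kc (dualMap (A i) z)) * h i (((A i).map (Int.cast : ℤ → ℝ))ᵀ *ᵥ th z) := by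
            simp only [hF, Fh_apply]
            rw [chi_one h2.le, h3]
            simp only [hkc, ContinuousMap.sub_apply, ContinuousMap.one_apply]
            ring
          rw [hFd]
          have a1 := hkc0 (dualMap (A i) z)
          have a2 := (hh i).le_one (((A i).map (Int.cast : ℤ → ℝ))ᵀ *ᵥ th z)
          nlinarith
        have hs2 := Finset.sum_le_sum (fun i (_ : i ∈ Finset.univ) => this i)
        rw [Finset.sum_add_distrib (f := fun i => F i (dualMap (A i) z) - F i z)] at hs2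
        linarith
      · have hrz := hsep z hzV
        have h1 : (n + 1 : ℝ) ≤ ((n + 1 : ℝ) / r) * cc z := by
          calc (n + 1 : ℝ) = (n + 1 : ℝ) / r * r := by field_simp
            _ ≤ _ := by gcongr
        have h2 : -(n : ℝ) ≤ ∑ i, (F i (dualMap (A i) z) - F i z) := by
          have : ∀ i ∈ (Finset.univ : Finset (Fin n)), (-1 : ℝ) ≤
              (F i (dualMap (A i) z) - F i z) := by
            intro i _
            have := Fh_nonneg N hN (h i) (hh i) (dualMap (A i) z)
            have := Fh_le N hN (h i) (hh i) z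
            simp only [hF]
            linarith
          have := Finset.sum_le_sum this
          simpa using this
        linarith
  -- integrate
  have hint : (1 / 2 : ℝ) ≤ L (∑ i, ((F i).comp (dualMap (A i)) - F i) +
      ∑ i, kc.comp (dualMap (A i)) + ((n + 1 : ℝ) / r) • cc) := by
    have hle : ∀ z, ((1 / 2 : ℝ) • (1 : C(T, ℝ))) z ≤
        (∑ i, ((F i).comp (dualMap (A i)) - F i) + ∑ i, kc.comp (dualMap (A i)) +
          ((n + 1 : ℝ) / r) • cc) z := by
      intro z
      have h0 : ((1 / 2 : ℝ) • (1 : C(T, ℝ))) z = 1 / 2 := by simp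
      rw [h0]
      exact hpt z
    have := hL.mono hle
    rw [map_smul, hL.one] at this
    simpa only [smul_eq_mul, mul_one] using this
  rw [map_add, map_add, map_sum, map_sum, map_smul] at hint
  have b1 : ∑ i, L ((F i).comp (dualMap (A i)) - F i) ≤ ∑ i : Fin n, 2 * (1 / (32 * n : ℝ)) := by
    apply Finset.sum_le_sum
    intro i _
    rw [map_sub]
    have := hL.inv (g i) (A i) (hA i) (F i) (norm_Fh_le _ _ _ _)
    have := (abs_le.1 this).2
    have := htg i
    linarith
  have b2 : ∑ i, L (kc.comp (dualMap (A i))) ≤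
      ∑ i : Fin n, (2 * (1 / (32 * n : ℝ)) + 2 * (1 / (16 * n : ℝ))) := by
    apply Finset.sum_le_sum
    intro i _
    have := hL.inv (g i) (A i) (hA i) kc hkcn
    have := (abs_le.1 this).2
    have := htg i
    linarith
  have b3 : ((n + 1 : ℝ) / r) * L cc ≤ 1 / 8 := by
    have : L cc < 2 * (r / (16 * (n + 1))) := by
      simp only [cc, map_sub, map_smul, hL.one, hL.char, smul_eq_mul]
      linarith
    calc ((n + 1 : ℝ) / r) * L cc ≤ ((n + 1 : ℝ) / r) * (2 * (r / (16 * (n + 1)))) := by gcongr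
      _ = 1 / 8 := by field_simp; norm_num
  simp only [Finset.sum_const, Finset.card_univ, Fintype.card_fin, nsmul_eq_mul] at b1 b2
  have hn' : (n : ℝ) ≠ 0 := by positivity
  have c1 : (n : ℝ) * (2 * (1 / (32 * n : ℝ))) = 1 / 16 := by field_simp; norm_num
  have c2 : (n : ℝ) * (2 * (1 / (32 * n : ℝ)) + 2 * (1 / (16 * n : ℝ))) = 3 / 16 := by
    field_simp; norm_num
  rw [c1] at b1
  rw [c2] at b2
  rw [smul_eq_mul] at hint
  linarith

end Pool.Agent.Helper42.Haag.S4
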