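import Pool.Agent.Helper42.Haag.Defs
import Pool.Agent.Helper42.Haag.S1
import Pool.Agent.Helper42.Haag.S2
import Pool.Agent.Helper42.Haag.S4
import Pool.Agent.Helper54.HG.S3
import Pool.Agent.Helper31.HG.H

set_option autoImplicit false

namespace Pool.Agent.Helper42.Haag

open Matrix

theorem not_haagerup_of_sectors {G : Type} [Group G]
    (ι : (Fin 2 → ℤ) → G) (hι : ∀ x y, ι (x + y) = ι x * ι y) (hinj : Function.Injective ι)
    {n : ℕ} (g : Fin n → G) (A : Fin n → Matrix (Fin 2) (Fin 2) ℤ)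
    (hA : ∀ i x, g i * ι x * (g i)⁻¹ = ι (A i *ᵥ x))
    (h : Fin n → (Fin 2 → ℝ) → ℝ) (hh : ∀ i, IsSector (h i))
    (hsum : ∀ x : Fin 2 → ℝ, x ≠ 0 →
      1 / 2 ≤ ∑ i, (h i (((A i).map (Int.cast : ℤ → ℝ))ᵀ *ᵥ x) - h i x)) :
    ¬ Haagerup G := by
  rintro ⟨ψ, hψ, hprop⟩
  refine S4.main ψ hψ.nonneg hprop ι hinj ?_ g A hA h hh hsum
  intro t ht
  obtain ⟨H, _, _, _, π, ξ, hξ, hin⟩ := exists_rep (fun g => Real.exp (-t * ψ g))
    (by simp [hψ.map_one]) (fun g => by simp [hψ.map_inv]) (fun s c => schoenberg hψ ht s c)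
  obtain ⟨L, h1, h2, h3, h4⟩ := Pool.Agent.Helper54.HG.exists_functional π ξ hξ ι hι
  refine ⟨L, h1, h2, fun x => ?_, fun g A hgA f hf => ?_⟩
  · rw [h3, hin, Complex.ofReal_re]
  · have hn : ‖(π g : H →L[ℂ] H) ξ - ξ‖ = √(2 - 2 * Real.exp (-t * ψ g)) := by
      have hu : ‖(π g : H →L[ℂ] H) ξ‖ = 1 := by
        rw [← hξ]
        exact (Unitary.linearIsometryEquiv (π g)).norm_map ξ
      have h2 : ‖(π g : H →L[ℂ] H) ξ - ξ‖ ^ 2 = 2 - 2 * Real.exp (-t * ψ g) := by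
        rw [norm_sub_rev, @norm_sub_sq ℂ, hin, hu, hξ]
        simp only [Complex.ofReal_re, RCLike.re_to_complex]
        ring
      rw [← h2, Real.sqrt_sq (norm_nonneg _)]
    calc |L (f.comp (dualMap A)) - L f| ≤ 2 * ‖f‖ * ‖(π g : H →L[ℂ] H) ξ - ξ‖ := h4 g A hgA f
      _ ≤ 2 * 1 * ‖(π g : H →L[ℂ] H) ξ - ξ‖ := by gcongr
      _ = 2 * √(2 - 2 * Real.exp (-t * ψ g)) := by rw [hn]; ring

theorem not_haagerup_of_hyperbolic {G : Type} [Group G]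
    (ι : (Fin 2 → ℤ) → G) (hι : ∀ x y, ι (x + y) = ι x * ι y) (hinj : Function.Injective ι)
    (a b : G) (A B : Matrix (Fin 2) (Fin 2) ℤ)
    (ha : ∀ x, a * ι x * a⁻¹ = ι (A *ᵥ x)) (hb : ∀ x, b * ι x * b⁻¹ = ι (B *ᵥ x))
    (hdet : A.det = 1) (htr : 2 < |A.trace|) (hB : IsUnit B.det)
    (h1 : B * A ≠ A * B) (h2 : A * B * A ≠ B) : ¬ Haagerup G := by
  have hB' : B * B⁻¹ = 1 := Matrix.mul_nonsing_inv B hB
  have hB'' : B⁻¹ * B = 1 := Matrix.nonsing_inv_mul B hB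
  obtain ⟨N, u, v, hu, hv, hs⟩ := Pool.Agent.Helper31.HG.exists_sectors A B B⁻¹ hdet htr hB' h1 h2
  have haN : ∀ n : ℕ, ∀ x, a ^ n * ι x * (a ^ n)⁻¹ = ι ((A ^ n) *ᵥ x) := by
    intro n
    induction n with
    | zero => intro x; simp
    | succ n ih =>
      intro x
      have : a ^ (n + 1) * ι x * (a ^ (n + 1))⁻¹ = a ^ n * (a * ι x * a⁻¹) * (a ^ n)⁻¹ := by
        rw [pow_succ]; group
      rw [this, ha, ih, Matrix.mulVec_mulVec, ← pow_succ]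
  have hbi : ∀ x, b⁻¹ * ι x * b = ι (B⁻¹ *ᵥ x) := by
    intro x
    have := hb (B⁻¹ *ᵥ x)
    rw [Matrix.mulVec_mulVec, hB', Matrix.one_mulVec] at this
    rw [← this]
    group
  have hbN : ∀ x, (b * a ^ N * b⁻¹) * ι x * (b * a ^ N * b⁻¹)⁻¹ =
      ι ((B * A ^ N * B⁻¹) *ᵥ x) := by
    intro x
    have : (b * a ^ N * b⁻¹) * ι x * (b * a ^ N * b⁻¹)⁻¹ =
        b * (a ^ N * (b⁻¹ * ι x * b) * (a ^ N)⁻¹) * b⁻¹ := by group
    rw [this, hbi, haN, hb, Matrix.mulVec_mulVec, Matrix.mulVec_mulVec, Matrix.mul_assoc]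
  refine not_haagerup_of_sectors ι hι hinj ![a ^ N, b * a ^ N * b⁻¹]
    ![A ^ N, B * A ^ N * B⁻¹] ?_ ![u, v] ?_ ?_
  · intro i
    fin_cases i
    · exact haN N
    · exact hbN
  · intro i
    fin_cases i
    · exact hu
    · exact hv
  · intro x hx
    rw [Fin.sum_univ_two]
    exact hs x hx

end Pool.Agent.Helper42.Haag
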