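import Pool.Agent.Helper42.Haag.Defs
import Pool.Agent.Helper42.Haag.H2

set_option autoImplicit false

namespace Pool.Agent.Helper42.Haag

open Matrix

/-- the transvection `1 + v ⊗ F` -/
def tv (v F : Fin 3 → ℤ) (h : F ⬝ᵥ v = 0) : SL3 :=
  ⟨1 + vecMulVec v F, by
    rw [Matrix.det_fin_three]
    simp only [dotProduct, Fin.sum_univ_three] at h
    simp [vecMulVec_apply]
    linear_combination h⟩

lemma tv_coe (v F : Fin 3 → ℤ) (h : F ⬝ᵥ v = 0) :
    (tv v F h : Matrix (Fin 3) (Fin 3) ℤ) = 1 + vecMulVec v F := rfl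

lemma tv_mul (v F F' : Fin 3 → ℤ) (h : F ⬝ᵥ v = 0) (h' : F' ⬝ᵥ v = 0)
    (h'' : (F + F') ⬝ᵥ v = 0) : tv v F h * tv v F' h' = tv v (F + F') h'' := by
  apply Subtype.ext
  have e : vecMulVec v F * vecMulVec v F' = 0 := by
    rw [vecMulVec_mul_vecMulVec, h, zero_smul, vecMulVec_zero]
  rw [Matrix.SpecialLinearGroup.coe_mul, tv_coe, tv_coe, tv_coe, vecMulVec_add]
  calc (1 + vecMulVec v F) * (1 + vecMulVec v F') =
      1 + (vecMulVec v F + vecMulVec v F') + vecMulVec v F * vecMulVec v F' := by noncomm_ring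
    _ = _ := by rw [e, add_zero]

lemma tv_conj_tv (w F' v F : Fin 3 → ℤ) (h1 : F' ⬝ᵥ w = 0) (h2 : F ⬝ᵥ v = 0) (h3 : F' ⬝ᵥ v = 0)
    (h4 : (F - (F ⬝ᵥ w) • F') ⬝ᵥ v = 0) :
    tv w F' h1 * tv v F h2 * (tv w F' h1)⁻¹ = tv v (F - (F ⬝ᵥ w) • F') h4 := by
  rw [mul_inv_eq_iff_eq_mul]
  apply Subtype.ext
  rw [Matrix.SpecialLinearGroup.coe_mul, Matrix.SpecialLinearGroup.coe_mul]
  simp only [tv_coe]
  have e1 : vecMulVec w F' * vecMulVec v F = 0 := by
    rw [vecMulVec_mul_vecMulVec, h3, zero_smul, vecMulVec_zero]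
  have e2 : vecMulVec v (F - (F ⬝ᵥ w) • F') = vecMulVec v F - (F ⬝ᵥ w) • vecMulVec v F' := by
    rw [vecMulVec_sub, vecMulVec_smul]
  have e3 : vecMulVec v F * vecMulVec w F' = (F ⬝ᵥ w) • vecMulVec v F' := by
    rw [vecMulVec_mul_vecMulVec, vecMulVec_smul]
  have e4 : vecMulVec v F' * vecMulVec w F' = 0 := by
    rw [vecMulVec_mul_vecMulVec, h1, zero_smul, vecMulVec_zero]
  rw [e2, add_mul, mul_add, mul_add, e1, add_mul, mul_add, mul_add, sub_mul, sub_mul, e3,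
    smul_mul_assoc (F ⬝ᵥ w) (vecMulVec v F') (vecMulVec w F'), e4]
  simp only [mul_one, one_mul, smul_zero]
  abel

lemma tv_conj (g : SL3) (v F : Fin 3 → ℤ) (h : F ⬝ᵥ v = 0)
    (h' : (F ᵥ* (g⁻¹ : SL3).1) ⬝ᵥ (g.1 *ᵥ v) = 0) :
    g * tv v F h * g⁻¹ = tv (g.1 *ᵥ v) (F ᵥ* (g⁻¹ : SL3).1) h' := by
  apply Subtype.ext
  have hg : g.1 * (g⁻¹ : SL3).1 = 1 := by
    rw [← Matrix.SpecialLinearGroup.coe_mul, mul_inv_cancel]; simp
  rw [Matrix.SpecialLinearGroup.coe_mul, Matrix.SpecialLinearGroup.coe_mul, tv_coe, tv_coe,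
    mul_add, add_mul, mul_one]
  show g.1 * (g⁻¹ : SL3).1 + _ = _
  rw [hg]
  congr 1
  show g.1 * vecMulVec v F * (g⁻¹ : SL3).1 = _
  rw [mul_vecMulVec, vecMulVec_mul]

lemma tv_ext {v v' F F' : Fin 3 → ℤ} (h : F ⬝ᵥ v = 0) (h' : F' ⬝ᵥ v' = 0) (e1 : v = v')
    (e2 : F = F') : tv v F h = tv v' F' h' := by
  subst e1; subst e2; rfl

lemma trans_mul (a b c d : ℤ) : trans a b * trans c d = trans (a + c) (b + d) := by
  apply Subtype.ext
  rw [Matrix.SpecialLinearGroup.coe_mul]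
  show !![1, 0, a; 0, 1, b; 0, 0, 1] * !![1, 0, c; 0, 1, d; 0, 0, 1] =
    !![1, 0, a + c; 0, 1, b + d; 0, 0, 1]
  ext i j
  fin_cases i <;> fin_cases j <;> simp [Matrix.mul_apply, Fin.sum_univ_three, add_comm]

/-- `trans` as a homomorphism -/
def transHom : Multiplicative (ℤ × ℤ) →* SL3 where
  toFun x := trans x.toAdd.1 x.toAdd.2
  map_one' := by
    apply Subtype.ext
    ext i j
    fin_cases i <;> fin_cases j <;> simp [trans]
  map_mul' x y := by
    rw [trans_mul]; rfl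

lemma RankTwo.exists_mem {K : Subgroup SL3} (h : RankTwo K) :
    ∃ N : ℤ, N ≠ 0 ∧ ∀ x y : ℤ, trans (N * x) (N * y) ∈ K := by
  obtain ⟨a, b, c, d, h1, h2, h3⟩ := h
  refine ⟨a * d - b * c, h3, fun x y => ?_⟩
  have e : trans ((a * d - b * c) * x) ((a * d - b * c) * y) =
      (trans a b) ^ (d * x - c * y) * (trans c d) ^ (-b * x + a * y) := by
    have p : ∀ (a b n : ℤ), (trans a b) ^ n = trans (n * a) (n * b) := by
      intro a b n
      have := map_zpow transHom (Multiplicative.ofAdd ((a, b) : ℤ × ℤ)) n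
      have e1 : transHom (Multiplicative.ofAdd ((a, b) : ℤ × ℤ)) = trans a b := rfl
      rw [e1] at this
      rw [← this, ← ofAdd_zsmul]
      show trans (n • ((a, b) : ℤ × ℤ)).1 (n • ((a, b) : ℤ × ℤ)).2 = _
      simp
    rw [p, p, trans_mul]
    congr 1 <;> ring
  rw [e]
  exact K.mul_mem (K.zpow_mem h1 _) (K.zpow_mem h2 _)

lemma tv_eq_trans (w : Fin 3 → ℤ) (h : (![0, 0, 1] : Fin 3 → ℤ) ⬝ᵥ w = 0) :
    tv w ![0, 0, 1] h = trans (w 0) (w 1) := by
  have h2 : w 2 = 0 := by simpa [dotProduct, Fin.sum_univ_three] using h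
  apply Subtype.ext
  ext i j
  rw [tv_coe]
  fin_cases i <;> fin_cases j <;> simp [trans, vecMulVec_apply, h2]

theorem le_planeStab (K : Subgroup SL3) (hR : RankTwo K) (hK : Haagerup K) :
    K ≤ planeStab := by
  obtain ⟨N, hN, hmem⟩ := hR.exists_mem
  intro g hg
  by_contra hgP
  have hgP' : g⁻¹ ∉ planeStab := fun h => hgP (by simpa using planeStab.inv_mem h)
  set f : Fin 3 → ℤ := fun j => (g⁻¹ : SL3).1 2 j with hf
  have hf01 : ¬ (f 0 = 0 ∧ f 1 = 0) := fun h => hgP' h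
  set c : ℤ := f 0 ^ 2 + f 1 ^ 2 with hc
  have hc0 : c ≠ 0 := by
    intro h
    apply hf01
    constructor <;> nlinarith [sq_nonneg (f 0), sq_nonneg (f 1)]
  set m : ℤ := N * c with hm
  have hm0 : m ≠ 0 := mul_ne_zero hN hc0
  have e3g : (![0, 0, 1] : Fin 3 → ℤ) ᵥ* (g⁻¹ : SL3).1 = f := by
    ext j
    simp [Matrix.vecMul, dotProduct, Fin.sum_univ_three, hf]
  -- the elements of `K`
  have hmemT : ∀ (w : Fin 3 → ℤ) (h : (![0, 0, 1] : Fin 3 → ℤ) ⬝ᵥ (N • w) = 0),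
      tv (N • w) ![0, 0, 1] h ∈ K := by
    intro w h
    rw [tv_eq_trans]
    exact hmem _ _
  have hmemF : ∀ (w : Fin 3 → ℤ) (h : f ⬝ᵥ (N • w) = 0), tv (N • w) f h ∈ K := by
    intro w h
    have hgg : g.1 *ᵥ ((g⁻¹ : SL3).1 *ᵥ w) = w := by
      rw [Matrix.mulVec_mulVec]
      have : g.1 * (g⁻¹ : SL3).1 = 1 := by
        rw [← Matrix.SpecialLinearGroup.coe_mul, mul_inv_cancel]; simp
      rw [this, Matrix.one_mulVec]
    have h0 : (![0, 0, 1] : Fin 3 → ℤ) ⬝ᵥ (N • ((g⁻¹ : SL3).1 *ᵥ w)) = 0 := by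
      rw [dotProduct_smul, Matrix.dotProduct_mulVec, e3g, ← dotProduct_smul]
      exact h
    have h1 : ((![0, 0, 1] : Fin 3 → ℤ) ᵥ* (g⁻¹ : SL3).1) ⬝ᵥ
        (g.1 *ᵥ (N • ((g⁻¹ : SL3).1 *ᵥ w))) = 0 := by
      rw [e3g, Matrix.mulVec_smul, hgg]
      exact h
    have := tv_conj g (N • ((g⁻¹ : SL3).1 *ᵥ w)) ![0, 0, 1] h0 h1
    have e : tv (N • w) f h = g * tv (N • ((g⁻¹ : SL3).1 *ᵥ w)) ![0, 0, 1] h0 * g⁻¹ := by
      rw [this]
      apply tv_ext
      · rw [Matrix.mulVec_smul, hgg]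
      · exact e3g.symm
    rw [e]
    exact K.mul_mem (K.mul_mem hg (hmemT _ _)) (K.inv_mem hg)
  set v : Fin 3 → ℤ := ![-f 1, f 0, 0] with hv
  have hFv : ∀ x : Fin 2 → ℤ, (![x 1 * f 0, x 1 * f 1, x 0 + x 1 * f 2] : Fin 3 → ℤ) ⬝ᵥ (N • v) = 0 := by
    intro x
    simp [dotProduct, Fin.sum_univ_three, hv]
    ring
  have h3v : (![0, 0, 1] : Fin 3 → ℤ) ⬝ᵥ (N • v) = 0 := by
    simp [dotProduct, Fin.sum_univ_three, hv]
  have hfv : f ⬝ᵥ (N • v) = 0 := by
    simp [dotProduct, Fin.sum_univ_three, hv]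
    ring
  set io : (Fin 2 → ℤ) → SL3 := fun x =>
    tv (N • v) ![x 1 * f 0, x 1 * f 1, x 0 + x 1 * f 2] (hFv x) with hio
  have io_add : ∀ x y, io (x + y) = io x * io y := by
    intro x y
    simp only [hio]
    rw [tv_mul _ _ _ _ _ (by rw [add_dotProduct, hFv, hFv, add_zero])]
    apply tv_ext _ _ rfl
    ext j
    fin_cases j <;> simp <;> ring
  have io_mem : ∀ x, io x ∈ K := by
    -- as a homomorphism
    let H : Multiplicative (Fin 2 → ℤ) →* SL3 :=
      { toFun := fun x => io x.toAdd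
        map_one' := by
          have h1 := io_add 0 0
          rw [add_zero] at h1
          exact (mul_eq_left.1 h1.symm)
        map_mul' := fun x y => io_add x.toAdd y.toAdd }
    have e1 : H (Multiplicative.ofAdd ![1, 0]) ∈ K := by
      have : H (Multiplicative.ofAdd ![1, 0]) = tv (N • v) ![0, 0, 1] h3v := by
        show io ![1, 0] = _
        simp only [hio]
        apply tv_ext _ _ rfl
        ext j; fin_cases j <;> simp
      rw [this]
      exact hmemT _ _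
    have e2 : H (Multiplicative.ofAdd ![0, 1]) ∈ K := by
      have : H (Multiplicative.ofAdd ![0, 1]) = tv (N • v) f hfv := by
        show io ![0, 1] = _
        simp only [hio]
        apply tv_ext _ _ rfl
        ext j; fin_cases j <;> simp
      rw [this]
      exact hmemF _ _
    intro x
    have : io x = H (Multiplicative.ofAdd ![1, 0]) ^ (x 0) * H (Multiplicative.ofAdd ![0, 1]) ^ (x 1) := by
      rw [← map_zpow H, ← map_zpow H, ← map_mul H]
      show io x = io (((x 0) • (![1, 0] : Fin 2 → ℤ)) + ((x 1) • (![0, 1] : Fin 2 → ℤ)))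
      congr 1
      ext j; fin_cases j <;> simp
    rw [this]
    exact K.mul_mem (K.zpow_mem e1 _) (K.zpow_mem e2 _)
  have io_inj : Function.Injective io := by
    intro x y hxy
    have h0 : ∀ i j, N * v i * (![x 1 * f 0, x 1 * f 1, x 0 + x 1 * f 2] : Fin 3 → ℤ) j =
        N * v i * (![y 1 * f 0, y 1 * f 1, y 0 + y 1 * f 2] : Fin 3 → ℤ) j := by
      intro i j
      have := congrArg (fun A : SL3 => A.1 i j) hxy
      simp only [hio] at this
      have e : ∀ (F : Fin 3 → ℤ) (h : F ⬝ᵥ (N • v) = 0), (tv (N • v) F h).1 i j =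
          (1 : Matrix (Fin 3) (Fin 3) ℤ) i j + N * v i * F j := by
        intro F h
        show ((1 : Matrix (Fin 3) (Fin 3) ℤ) + vecMulVec (N • v) F) i j = _
        rw [Matrix.add_apply, vecMulVec_apply]
        simp
      rw [e, e] at this
      linarith
    have hF : ∀ j, (![x 1 * f 0, x 1 * f 1, x 0 + x 1 * f 2] : Fin 3 → ℤ) j =
        (![y 1 * f 0, y 1 * f 1, y 0 + y 1 * f 2] : Fin 3 → ℤ) j := by
      intro j
      by_cases h : f 0 = 0
      · have h1 : f 1 ≠ 0 := fun h' => hf01 ⟨h, h'⟩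
        have := h0 0 j
        exact mul_left_cancel₀ (mul_ne_zero hN (by simpa [hv] using h1)) this
      · have := h0 1 j
        exact mul_left_cancel₀ (mul_ne_zero hN (by simpa [hv] using h)) this
    have a0 := hF 0
    have a1 := hF 1
    have a2 := hF 2
    simp at a0 a1 a2
    have hx1 : x 1 = y 1 := by
      rcases a0 with a0 | a0
      · exact a0
      · rcases a1 with a1 | a1
        · exact a1
        · exact absurd ⟨a0, a1⟩ hf01
    rw [hx1] at a2
    ext j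
    fin_cases j
    · show x 0 = y 0
      linarith
    · exact hx1
  -- the unipotent elements
  set w1 : Fin 3 → ℤ := ![f 0, f 1, 0] with hw1
  set w2 : Fin 3 → ℤ := ![-f 2 * f 0, -f 2 * f 1, c] with hw2
  have k1 : (![0, 0, 1] : Fin 3 → ℤ) ⬝ᵥ (N • w1) = 0 := by
    simp [dotProduct, Fin.sum_univ_three, hw1]
  have k2 : f ⬝ᵥ (N • w2) = 0 := by
    simp [dotProduct, Fin.sum_univ_three, hw2, hc]
    ring
  set u1 : SL3 := tv (N • w1) ![0, 0, 1] k1 with hu1
  set u2 : SL3 := tv (N • w2) f k2 with hu2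
  have hu1K : u1 ∈ K := hmemT _ _
  have hu2K : u2 ∈ K := hmemF _ _
  -- conjugation as a commutation relation
  have h30v : (![0, 0, 1] : Fin 3 → ℤ) ⬝ᵥ (N • v) = 0 := h3v
  have act1 : ∀ x, u1 * io x * u1⁻¹ = io (!![1, -m; 0, 1] *ᵥ x) := by
    intro x
    simp only [hu1, hio]
    rw [tv_conj_tv _ _ _ _ k1 (hFv x) h3v (by
      rw [sub_dotProduct, smul_dotProduct, hFv, h3v]; simp)]
    apply tv_ext _ _ rfl
    ext j
    fin_cases j <;>
      simp [hw1, hm, hc, Matrix.mulVec, dotProduct, Fin.sum_univ_two, Fin.sum_univ_three] <;> ring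
  have act2 : ∀ x, u2 * io x * u2⁻¹ = io (!![1, 0; -m, 1] *ᵥ x) := by
    intro x
    simp only [hu2, hio]
    rw [tv_conj_tv _ _ _ _ k2 (hFv x) hfv (by
      rw [sub_dotProduct, smul_dotProduct, hFv, hfv]; simp)]
    apply tv_ext _ _ rfl
    ext j
    fin_cases j <;>
      simp [hw2, hm, hc, Matrix.mulVec, dotProduct, Fin.sum_univ_two, Fin.sum_univ_three] <;> ring
  have hmm : 0 < m ^ 2 := by positivity
  refine not_haagerup_of_hyperbolic (G := K) (fun x => ⟨io x, io_mem x⟩)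
    (fun x y => Subtype.ext (io_add x y)) (fun x y h => io_inj (congrArg Subtype.val h))
    (⟨u1, hu1K⟩ * ⟨u2, hu2K⟩) ⟨u1, hu1K⟩ (!![1, -m; 0, 1] * !![1, 0; -m, 1]) !![1, -m; 0, 1]
    ?_ ?_ ?_ ?_ ?_ ?_ ?_ hK
  · intro x
    apply Subtype.ext
    show u1 * u2 * io x * (u1 * u2)⁻¹ = _
    have : u1 * u2 * io x * (u1 * u2)⁻¹ = u1 * (u2 * io x * u2⁻¹) * u1⁻¹ := by group
    rw [this, act2, act1, Matrix.mulVec_mulVec]
  · intro x
    apply Subtype.ext
    exact act1 x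
  · simp [Matrix.det_fin_two]
  · rw [Matrix.trace_fin_two]
    simp [Matrix.mul_apply, Fin.sum_univ_two]
    rw [abs_of_pos (by nlinarith)]
    nlinarith
  · simp [Matrix.det_fin_two]
  · intro h
    have := congrFun (congrFun h 1) 1
    simp [Matrix.mul_apply, Fin.sum_univ_two] at this
    exact hm0 (by simpa using this)
  · intro h
    have := congrFun (congrFun h 1) 0
    simp [Matrix.mul_apply, Fin.sum_univ_two] at this
    have h2 : 2 * m * (1 + m ^ 2) = 0 := by linear_combination (-1) * this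
    have : (1 + m ^ 2) ≠ 0 := by positivity
    simp [hm0, this] at h2

/-- the entries of the linear part -/
lemma linPart_coe (a : planeStab) :
    (linPart a : Matrix (Fin 2) (Fin 2) ℤ) = !![a.1 0 0, a.1 0 1; a.1 1 0, a.1 1 1] := rfl

lemma corner_eq_det (a : planeStab) :
    a.1.1 2 2 = (linPart a : Matrix (Fin 2) (Fin 2) ℤ).det ∧ a.1.1 2 2 * a.1.1 2 2 = 1 := by
  obtain ⟨a, h1, h2⟩ := a
  have h1' : a.1 2 0 = 0 := h1
  have h2' : a.1 2 1 = 0 := h2
  have hd := a.2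
  rw [Matrix.det_fin_three, h1', h2'] at hd
  have e : a.1 2 2 * (a.1 0 0 * a.1 1 1 - a.1 0 1 * a.1 1 0) = 1 := by linarith
  rw [linPart_coe, Matrix.det_fin_two]
  show a.1 2 2 = a.1 0 0 * a.1 1 1 - a.1 0 1 * a.1 1 0 ∧ a.1 2 2 * a.1 2 2 = 1
  rcases Int.isUnit_iff.1 (IsUnit.of_mul_eq_one _ e) with h | h
  · rw [h] at e ⊢
    constructor <;> linarith
  · rw [h] at e ⊢
    constructor <;> linarith

/-- conjugation of translations by elements of `P` -/
lemma conj_trans (a : planeStab) (x : Fin 2 → ℤ) :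
    a.1 * trans (x 0) (x 1) * a.1⁻¹ =
      trans (((a.1.1 2 2) • (linPart a : Matrix (Fin 2) (Fin 2) ℤ) *ᵥ x) 0)
        (((a.1.1 2 2) • (linPart a : Matrix (Fin 2) (Fin 2) ℤ) *ᵥ x) 1) := by
  have hc := (corner_eq_det a).2
  rw [linPart_coe, mul_inv_eq_iff_eq_mul]
  obtain ⟨a, h1, h2⟩ := a
  have h1' : a.1 2 0 = 0 := h1
  have h2' : a.1 2 1 = 0 := h2
  have hc' : a.1 2 2 * a.1 2 2 = 1 := hc
  apply Subtype.ext
  rw [Matrix.SpecialLinearGroup.coe_mul, Matrix.SpecialLinearGroup.coe_mul]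
  have t : ∀ p q : ℤ, (trans p q).1 = !![1, 0, p; 0, 1, q; 0, 0, 1] := fun _ _ => rfl
  rw [t, t]
  ext i j
  fin_cases i <;> fin_cases j <;>
    simp [Matrix.mul_apply, Fin.sum_univ_three, Matrix.mulVec, dotProduct, Fin.sum_univ_two,
      h1', h2']
  · linear_combination (-(a.1 0 0 * x 0 + a.1 0 1 * x 1)) * hc'
  · linear_combination (-(a.1 1 0 * x 0 + a.1 1 1 * x 1)) * hc'

theorem no_hyperbolic_pair (K : Subgroup SL3) (hR : RankTwo K) (hK : Haagerup K) :
    ∀ A ∈ (K.comap planeStab.subtype).map linPart, ∀ B ∈ (K.comap planeStab.subtype).map linPart,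
      (A : Matrix (Fin 2) (Fin 2) ℤ).det = 1 → 2 < |(A : Matrix (Fin 2) (Fin 2) ℤ).trace| →
      B * A = A * B ∨ A * B * A = B := by
  rintro _ ⟨a, ha, rfl⟩ _ ⟨b, hb, rfl⟩ hdet htr
  by_contra hcon
  rw [not_or] at hcon
  obtain ⟨hc1, hc2⟩ := hcon
  obtain ⟨N, hN, hmem⟩ := hR.exists_mem
  have haK : a.1 ∈ K := ha
  have hbK : b.1 ∈ K := hb
  obtain ⟨a1, a2⟩ := corner_eq_det a
  obtain ⟨b1, b2⟩ := corner_eq_det b
  set δ : ℤ := b.1.1 2 2 with hδ
  have hδ0 : δ ≠ 0 := by intro h; rw [h] at b2; simp at b2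
  have ha22 : a.1.1 2 2 = 1 := by rw [a1, hdet]
  refine not_haagerup_of_hyperbolic (G := K) (fun x => ⟨trans (N * x 0) (N * x 1), hmem _ _⟩)
    ?_ ?_ ⟨a.1, haK⟩ ⟨b.1, hbK⟩ (linPart a : Matrix (Fin 2) (Fin 2) ℤ)
    (δ • (linPart b : Matrix (Fin 2) (Fin 2) ℤ)) ?_ ?_ hdet htr ?_ ?_ ?_ hK
  · intro x y
    apply Subtype.ext
    show trans (N * (x 0 + y 0)) (N * (x 1 + y 1)) = trans _ _ * trans _ _
    rw [trans_mul, mul_add, mul_add]
  · intro x y h
    have h' : trans (N * x 0) (N * x 1) = trans (N * y 0) (N * y 1) := congrArg Subtype.val h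
    have h0 : N * x 0 = N * y 0 := by
      have := congrArg (fun A : SL3 => A.1 0 2) h'
      simpa [trans] using this
    have h1 : N * x 1 = N * y 1 := by
      have := congrArg (fun A : SL3 => A.1 1 2) h'
      simpa [trans] using this
    ext j
    fin_cases j
    · exact mul_left_cancel₀ hN h0
    · exact mul_left_cancel₀ hN h1
  · intro x
    apply Subtype.ext
    have := conj_trans a (N • x)
    rw [ha22, one_smul, Matrix.mulVec_smul] at this
    exact this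
  · intro x
    apply Subtype.ext
    have := conj_trans b (N • x)
    rw [Matrix.mulVec_smul, smul_comm] at this
    rw [Matrix.smul_mulVec]
    exact this
  · rw [Matrix.det_smul, ← b1]
    exact (IsUnit.of_mul_eq_one _ (by
      show δ ^ Fintype.card (Fin 2) * δ * δ = 1
      simp only [Fintype.card_fin]
      nlinarith))
  · intro h
    apply hc1
    apply Units.ext
    rw [smul_mul_assoc, mul_smul_comm] at h
    exact smul_right_injective _ hδ0 h
  · intro h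
    apply hc2
    apply Units.ext
    rw [mul_smul_comm, smul_mul_assoc] at h
    exact smul_right_injective _ hδ0 h

end Pool.Agent.Helper42.Haag
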