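import Pool.Agent.Helper42.Haag.Defs
import Pool.Agent.Helper42.Haag.H2
import Pool.Agent.Helper42.Haag.B1

set_option autoImplicit false

namespace Pool.Agent.Helper42.Haag

open Matrix

/-- cross product -/
def cr (a b : Fin 3 → ℤ) : Fin 3 → ℤ :=
  ![a 1 * b 2 - a 2 * b 1, a 2 * b 0 - a 0 * b 2, a 0 * b 1 - a 1 * b 0]

lemma dot3 (a b : Fin 3 → ℤ) : a ⬝ᵥ b = a 0 * b 0 + a 1 * b 1 + a 2 * b 2 := by
  simp [dotProduct, Fin.sum_univ_three]

lemma cr_ne_iff (a b : Fin 3 → ℤ) : cr a b = 0 ↔ (a 1 * b 2 - a 2 * b 1 = 0 ∧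
    a 2 * b 0 - a 0 * b 2 = 0 ∧ a 0 * b 1 - a 1 * b 0 = 0) := by
  constructor
  · intro h
    exact ⟨by simpa [cr] using congrFun h 0, by simpa [cr] using congrFun h 1,
      by simpa [cr] using congrFun h 2⟩
  · rintro ⟨h0, h1, h2⟩
    ext j
    fin_cases j
    · exact h0
    · exact h1
    · exact h2

lemma dot_self_pos {v : Fin 3 → ℤ} (h : v ≠ 0) : 0 < v ⬝ᵥ v := by
  rw [dot3]
  by_contra hn
  apply h
  have h0 : v 0 = 0 := by nlinarith [sq_nonneg (v 0), sq_nonneg (v 1), sq_nonneg (v 2)]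
  have h1 : v 1 = 0 := by nlinarith [sq_nonneg (v 0), sq_nonneg (v 1), sq_nonneg (v 2)]
  have h2 : v 2 = 0 := by nlinarith [sq_nonneg (v 0), sq_nonneg (v 1), sq_nonneg (v 2)]
  ext j
  fin_cases j
  · exact h0
  · exact h1
  · exact h2

/-- the vectors `w` with `1 + w ⊗ e ∈ K` -/
def colGroup (K : Subgroup SL3) (e : Fin 3 → ℤ) : AddSubgroup (Fin 3 → ℤ) where
  carrier := {w | ∃ h : e ⬝ᵥ w = 0, tv w e h ∈ K}
  zero_mem' := by
    refine ⟨by simp, ?_⟩
    have : tv 0 e (by simp) = 1 := by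
      apply Subtype.ext
      rw [tv_coe]
      simp
    rw [this]
    exact K.one_mem
  add_mem' := by
    rintro v w ⟨h1, h2⟩ ⟨k1, k2⟩
    refine ⟨by rw [dotProduct_add, h1, k1, add_zero], ?_⟩
    have : tv (v + w) e (by rw [dotProduct_add, h1, k1, add_zero]) = tv v e h1 * tv w e k1 := by
      apply Subtype.ext
      rw [Matrix.SpecialLinearGroup.coe_mul, tv_coe, tv_coe, tv_coe]
      have e0 : vecMulVec v e * vecMulVec w e = 0 := by
        rw [vecMulVec_mul_vecMulVec, k1, zero_smul, vecMulVec_zero]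
      calc 1 + vecMulVec (v + w) e = 1 + vecMulVec v e + vecMulVec w e := by
            rw [add_vecMulVec]; abel
        _ = (1 + vecMulVec v e) * (1 + vecMulVec w e) - vecMulVec v e * vecMulVec w e := by
            noncomm_ring
        _ = _ := by rw [e0, sub_zero]
    rw [this]
    exact K.mul_mem h2 k2
  neg_mem' := by
    rintro v ⟨h1, h2⟩
    refine ⟨by rw [dotProduct_neg, h1, neg_zero], ?_⟩
    have : tv (-v) e (by rw [dotProduct_neg, h1, neg_zero]) = (tv v e h1)⁻¹ := by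
      rw [eq_inv_iff_mul_eq_one]
      apply Subtype.ext
      rw [Matrix.SpecialLinearGroup.coe_mul, tv_coe, tv_coe]
      have e0 : vecMulVec v e * vecMulVec v e = 0 := by
        rw [vecMulVec_mul_vecMulVec, h1, zero_smul, vecMulVec_zero]
      rw [neg_vecMulVec]
      calc (1 + -vecMulVec v e) * (1 + vecMulVec v e) = 1 - vecMulVec v e * vecMulVec v e := by
            noncomm_ring
        _ = _ := by rw [e0, sub_zero]; rfl
    rw [this]
    exact K.inv_mem h2

lemma mem_colGroup {K : Subgroup SL3} {e w : Fin 3 → ℤ} :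
    w ∈ colGroup K e ↔ ∃ h : e ⬝ᵥ w = 0, tv w e h ∈ K := Iff.rfl

/-- the covectors `F` with `1 + v ⊗ F ∈ K` -/
def rowGroup (K : Subgroup SL3) (v : Fin 3 → ℤ) : AddSubgroup (Fin 3 → ℤ) where
  carrier := {F | ∃ h : F ⬝ᵥ v = 0, tv v F h ∈ K}
  zero_mem' := by
    refine ⟨by simp, ?_⟩
    have : tv v 0 (by simp) = 1 := by
      apply Subtype.ext
      rw [tv_coe]
      simp
    rw [this]
    exact K.one_mem
  add_mem' := by
    rintro F F' ⟨h1, h2⟩ ⟨k1, k2⟩
    have h3 : (F + F') ⬝ᵥ v = 0 := by rw [add_dotProduct, h1, k1, add_zero]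
    refine ⟨h3, ?_⟩
    rw [← tv_mul v F F' h1 k1 h3]
    exact K.mul_mem h2 k2
  neg_mem' := by
    rintro F ⟨h1, h2⟩
    have h3 : (-F) ⬝ᵥ v = 0 := by rw [neg_dotProduct, h1, neg_zero]
    refine ⟨h3, ?_⟩
    have : tv v (-F) h3 = (tv v F h1)⁻¹ := by
      rw [eq_inv_iff_mul_eq_one, tv_mul v (-F) F h3 h1 (by simp)]
      apply Subtype.ext
      rw [tv_coe]
      simp
    rw [this]
    exact K.inv_mem h2

lemma mem_rowGroup {K : Subgroup SL3} {v F : Fin 3 → ℤ} :
    F ∈ rowGroup K v ↔ ∃ h : F ⬝ᵥ v = 0, tv v F h ∈ K := Iff.rfl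

lemma colGroup_iff_rowGroup {K : Subgroup SL3} {v F : Fin 3 → ℤ} :
    v ∈ colGroup K F ↔ F ∈ rowGroup K v := Iff.rfl

lemma colGroup_full {K : Subgroup SL3} {e x y : Fin 3 → ℤ} (he : e ≠ 0) (hxy : cr x y ≠ 0)
    (hx : x ∈ colGroup K e) (hy : y ∈ colGroup K e) {w : Fin 3 → ℤ} (hw : e ⬝ᵥ w = 0) :
    (cr x y ⬝ᵥ cr x y) • w ∈ colGroup K e := by
  obtain ⟨hx0, -⟩ := mem_colGroup.1 hx
  obtain ⟨hy0, -⟩ := mem_colGroup.1 hy
  have hnw : cr x y ⬝ᵥ w = 0 := by
    -- `e` is parallel to `cr x y`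
    rw [dot3] at hx0 hy0 hw ⊢
    obtain ⟨i, hi⟩ : ∃ i, e i ≠ 0 := by
      by_contra h
      push Not at h
      exact he (funext h)
    have par0 : e 1 * cr x y 2 - e 2 * cr x y 1 = 0 := by
      simp [cr]; linear_combination x 0 * hy0 - y 0 * hx0
    have par1 : e 2 * cr x y 0 - e 0 * cr x y 2 = 0 := by
      simp [cr]; linear_combination x 1 * hy0 - y 1 * hx0
    have par2 : e 0 * cr x y 1 - e 1 * cr x y 0 = 0 := by
      simp [cr]; linear_combination x 2 * hy0 - y 2 * hx0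
    have key : e i * (cr x y 0 * w 0 + cr x y 1 * w 1 + cr x y 2 * w 2) = 0 := by
      fin_cases i
      · show e 0 * _ = 0
        linear_combination cr x y 0 * hw + w 1 * par2 - w 2 * par1
      · show e 1 * _ = 0
        linear_combination cr x y 1 * hw - w 0 * par2 + w 2 * par0
      · show e 2 * _ = 0
        linear_combination cr x y 2 * hw + w 0 * par1 - w 1 * par0
    exact (mul_eq_zero.1 key).resolve_left hi
  have : (cr x y ⬝ᵥ cr x y) • w = (cr w y ⬝ᵥ cr x y) • x + (cr x w ⬝ᵥ cr x y) • y := by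
    have h := hnw
    rw [dot3] at h
    ext j
    fin_cases j
    · simp [dot3, cr] at h ⊢
      linear_combination (x 1 * y 2 - x 2 * y 1) * h
    · simp [dot3, cr] at h ⊢
      linear_combination (x 2 * y 0 - x 0 * y 2) * h
    · simp [dot3, cr] at h ⊢
      linear_combination (x 0 * y 1 - x 1 * y 0) * h
  rw [this]
  exact add_mem (zsmul_mem hx _) (zsmul_mem hy _)

/-- A Haagerup subgroup containing two independent transvections with the same covector `e`
preserves the plane `ker e`. -/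
theorem col_invariant (K : Subgroup SL3) (hK : Haagerup K) (e x y : Fin 3 → ℤ) (he : e ≠ 0)
    (hxy : cr x y ≠ 0) (hx : x ∈ colGroup K e) (hy : y ∈ colGroup K e) (g : SL3) (hg : g ∈ K) :
    cr e (e ᵥ* (g⁻¹ : SL3).1) = 0 := by
  by_contra hv0
  set f : Fin 3 → ℤ := e ᵥ* (g⁻¹ : SL3).1 with hf
  set v : Fin 3 → ℤ := cr e f with hv
  set N : ℤ := cr x y ⬝ᵥ cr x y with hN
  have hN0 : N ≠ 0 := (dot_self_pos hxy).ne'
  set c : ℤ := v ⬝ᵥ v with hc
  have hc0 : c ≠ 0 := (dot_self_pos hv0).ne'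
  set m : ℤ := N * c with hm
  have hm0 : m ≠ 0 := mul_ne_zero hN0 hc0
  have hgg : ∀ w, g.1 *ᵥ ((g⁻¹ : SL3).1 *ᵥ w) = w := by
    intro w
    rw [Matrix.mulVec_mulVec]
    have : g.1 * (g⁻¹ : SL3).1 = 1 := by
      rw [← Matrix.SpecialLinearGroup.coe_mul, mul_inv_cancel]; simp
    rw [this, Matrix.one_mulVec]
  -- elements of `K`
  have hE : ∀ w, e ⬝ᵥ w = 0 → N • w ∈ colGroup K e := fun w hw => colGroup_full he hxy hx hy hw
  have hF : ∀ w, f ⬝ᵥ w = 0 → N • w ∈ colGroup K f := by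
    intro w hw
    have h0 : e ⬝ᵥ ((g⁻¹ : SL3).1 *ᵥ w) = 0 := by
      rw [Matrix.dotProduct_mulVec]
      exact hw
    obtain ⟨h1, h2⟩ := mem_colGroup.1 (hE _ h0)
    have h3 : f ⬝ᵥ (N • w) = 0 := by rw [dotProduct_smul, hw, smul_zero]
    refine mem_colGroup.2 ⟨h3, ?_⟩
    have h4 : (e ᵥ* (g⁻¹ : SL3).1) ⬝ᵥ (g.1 *ᵥ (N • ((g⁻¹ : SL3).1 *ᵥ w))) = 0 := by
      rw [Matrix.mulVec_smul, hgg]
      exact h3
    have h5 := tv_conj g (N • ((g⁻¹ : SL3).1 *ᵥ w)) e h1 h4
    have h6 : tv (N • w) f h3 = g * tv (N • ((g⁻¹ : SL3).1 *ᵥ w)) e h1 * g⁻¹ := by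
      rw [h5]
      apply tv_ext _ _ _ rfl
      rw [Matrix.mulVec_smul, hgg]
    rw [h6]
    exact K.mul_mem (K.mul_mem hg h2) (K.inv_mem hg)
  have hev : e ⬝ᵥ v = 0 := by rw [dot3]; simp [hv, cr]; ring
  have hfv : f ⬝ᵥ v = 0 := by rw [dot3]; simp [hv, cr]; ring
  have hevN : e ⬝ᵥ (N • v) = 0 := by rw [dotProduct_smul, hev, smul_zero]
  have hfvN : f ⬝ᵥ (N • v) = 0 := by rw [dotProduct_smul, hfv, smul_zero]
  have mem_e : e ∈ rowGroup K (N • v) := hE v hev
  have mem_f : f ∈ rowGroup K (N • v) := hF v hfv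
  have hFv : ∀ x : Fin 2 → ℤ, (x 0 • e + x 1 • f) ⬝ᵥ (N • v) = 0 := by
    intro x
    rw [add_dotProduct, smul_dotProduct, smul_dotProduct, hevN, hfvN]
    simp
  set io : (Fin 2 → ℤ) → SL3 := fun x => tv (N • v) (x 0 • e + x 1 • f) (hFv x) with hio
  have io_mem : ∀ x, io x ∈ K := by
    intro x
    obtain ⟨_, h⟩ := mem_rowGroup.1 (add_mem (zsmul_mem mem_e (x 0)) (zsmul_mem mem_f (x 1)))
    exact h
  have io_add : ∀ x y, io (x + y) = io x * io y := by
    intro x y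
    simp only [hio]
    rw [tv_mul _ _ _ _ _ (by rw [add_dotProduct, hFv, hFv, add_zero])]
    apply tv_ext _ _ rfl
    simp only [Pi.add_apply, add_smul]
    abel
  have hcr : ∀ a b a' b' : ℤ, a • e + b • f = a' • e + b' • f → a = a' ∧ b = b' := by
    intro a b a' b' h
    obtain ⟨i, hi⟩ : ∃ i, v i ≠ 0 := by
      by_contra h
      push Not at h
      exact hv0 (funext h)
    have h0 := congrFun h 0
    have h1 := congrFun h 1
    have h2 := congrFun h 2
    simp only [Pi.add_apply, Pi.smul_apply, smul_eq_mul] at h0 h1 h2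
    fin_cases i
    · have hi' : e 1 * f 2 - e 2 * f 1 ≠ 0 := by simpa [hv, cr] using hi
      constructor
      · apply mul_left_cancel₀ hi'
        linear_combination f 2 * h1 - f 1 * h2
      · apply mul_left_cancel₀ hi'
        linear_combination e 1 * h2 - e 2 * h1
    · have hi' : e 2 * f 0 - e 0 * f 2 ≠ 0 := by simpa [hv, cr] using hi
      constructor
      · apply mul_left_cancel₀ hi'
        linear_combination f 0 * h2 - f 2 * h0
      · apply mul_left_cancel₀ hi'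
        linear_combination e 2 * h0 - e 0 * h2
    · have hi' : e 0 * f 1 - e 1 * f 0 ≠ 0 := by simpa [hv, cr] using hi
      constructor
      · apply mul_left_cancel₀ hi'
        linear_combination f 1 * h0 - f 0 * h1
      · apply mul_left_cancel₀ hi'
        linear_combination e 0 * h1 - e 1 * h0
  have io_inj : Function.Injective io := by
    intro x y hxy
    obtain ⟨i, hi⟩ : ∃ i, v i ≠ 0 := by
      by_contra h
      push Not at h
      exact hv0 (funext h)
    have hFF : x 0 • e + x 1 • f = y 0 • e + y 1 • f := by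
      ext j
      have := congrArg (fun A : SL3 => A.1 i j) hxy
      simp only [hio] at this
      have e0 : ∀ (F : Fin 3 → ℤ) (h : F ⬝ᵥ (N • v) = 0), (tv (N • v) F h).1 i j =
          (1 : Matrix (Fin 3) (Fin 3) ℤ) i j + N * v i * F j := by
        intro F h
        show ((1 : Matrix (Fin 3) (Fin 3) ℤ) + vecMulVec (N • v) F) i j = _
        rw [Matrix.add_apply, vecMulVec_apply]
        simp
      rw [e0, e0] at this
      exact mul_left_cancel₀ (mul_ne_zero hN0 hi) (by linarith)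
    obtain ⟨h0, h1⟩ := hcr _ _ _ _ hFF
    ext j
    fin_cases j
    · exact h0
    · exact h1
  -- the unipotent elements
  set w1 : Fin 3 → ℤ := cr v e with hw1
  set w2 : Fin 3 → ℤ := cr f v with hw2
  have ew1 : e ⬝ᵥ w1 = 0 := by rw [dot3]; simp [hw1, cr]; ring
  have fw1 : f ⬝ᵥ w1 = c := by rw [hc, dot3, dot3]; simp [hw1, hv, cr]; ring
  have fw2 : f ⬝ᵥ w2 = 0 := by rw [dot3]; simp [hw2, cr]; ring
  have ew2 : e ⬝ᵥ w2 = c := by rw [hc, dot3, dot3]; simp [hw2, hv, cr]; ring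
  obtain ⟨k1, hu1K⟩ := mem_colGroup.1 (hE w1 ew1)
  obtain ⟨k2, hu2K⟩ := mem_colGroup.1 (hF w2 fw2)
  set u1 : SL3 := tv (N • w1) e k1 with hu1
  set u2 : SL3 := tv (N • w2) f k2 with hu2
  have act1 : ∀ x, u1 * io x * u1⁻¹ = io (!![1, -m; 0, 1] *ᵥ x) := by
    intro x
    simp only [hu1, hio]
    rw [tv_conj_tv _ _ _ _ k1 (hFv x) hevN (by
      rw [sub_dotProduct, smul_dotProduct, hFv, hevN]; simp)]
    apply tv_ext _ _ rfl
    have : (x 0 • e + x 1 • f) ⬝ᵥ (N • w1) = x 1 * m := by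
      rw [dotProduct_smul, add_dotProduct, smul_dotProduct, smul_dotProduct, ew1, fw1]
      simp only [smul_eq_mul, hm]; ring
    rw [this]
    ext j
    simp [Matrix.mulVec, dotProduct, Fin.sum_univ_two]
    ring
  have act2 : ∀ x, u2 * io x * u2⁻¹ = io (!![1, 0; -m, 1] *ᵥ x) := by
    intro x
    simp only [hu2, hio]
    rw [tv_conj_tv _ _ _ _ k2 (hFv x) hfvN (by
      rw [sub_dotProduct, smul_dotProduct, hFv, hfvN]; simp)]
    apply tv_ext _ _ rfl
    have : (x 0 • e + x 1 • f) ⬝ᵥ (N • w2) = x 0 * m := by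
      rw [dotProduct_smul, add_dotProduct, smul_dotProduct, smul_dotProduct, ew2, fw2]
      simp only [smul_eq_mul, hm]; ring
    rw [this]
    ext j
    simp [Matrix.mulVec, dotProduct, Fin.sum_univ_two]
    ring
  have hmm : 0 < m ^ 2 := by positivity
  refine not_haagerup_of_hyperbolic (G := K) (fun x => ⟨io x, io_mem x⟩)
    (fun x y => Subtype.ext (io_add x y)) (fun x y h => io_inj (congrArg Subtype.val h))
    (⟨u1, hu1K⟩ * ⟨u2, hu2K⟩) ⟨u1, hu1K⟩ (!![1, -m; 0, 1] * !![1, 0; -m, 1]) !![1, -m; 0, 1]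
    ?_ ?_ ?_ ?_ ?_ ?_ ?_ hK
  · intro x
    apply Subtype.ext
    show u1 * u2 * io x * (u1 * u2)⁻¹ = _
    have : u1 * u2 * io x * (u1 * u2)⁻¹ = u1 * (u2 * io x * u2⁻¹) * u1⁻¹ := by group
    rw [this, act2, act1, Matrix.mulVec_mulVec]
  · intro x
    apply Subtype.ext
    exact act1 x
  · simp [Matrix.det_fin_two]
  · rw [Matrix.trace_fin_two]
    simp [Matrix.mul_apply, Fin.sum_univ_two]
    rw [abs_of_pos (by nlinarith)]
    nlinarith
  · simp [Matrix.det_fin_two]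
  · intro h
    have := congrFun (congrFun h 1) 1
    simp [Matrix.mul_apply, Fin.sum_univ_two] at this
    exact hm0 (by simpa using this)
  · intro h
    have := congrFun (congrFun h 1) 0
    simp [Matrix.mul_apply, Fin.sum_univ_two] at this
    have h2 : 2 * m * (1 + m ^ 2) = 0 := by linear_combination (-1) * this
    have : (1 + m ^ 2) ≠ 0 := by positivity
    simp [hm0, this] at h2

end Pool.Agent.Helper42.Haag
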