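import Mathlib

set_option autoImplicit false

/-!
# Haagerup property and subgroups of `SL_3(ℤ)`: definitions
-/

namespace Pool.Agent.Helper42.Haag

open Matrix

/-- A normalised real conditionally negative definite function on a group. -/
structure IsCND {G : Type*} [Group G] (ψ : G → ℝ) : Prop where
  map_one : ψ 1 = 0
  map_inv : ∀ g, ψ g⁻¹ = ψ g
  sum_nonpos : ∀ (s : Finset G) (c : G → ℝ), ∑ g ∈ s, c g = 0 →
    ∑ g ∈ s, ∑ k ∈ s, c g * c k * ψ (g⁻¹ * k) ≤ 0

/-- The Haagerup property (a-T-menability) of a countable discrete group: there is a proper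
conditionally negative definite function. -/
def Haagerup (G : Type*) [Group G] : Prop :=
  ∃ ψ : G → ℝ, IsCND ψ ∧ ∀ C : ℝ, {g | ψ g ≤ C}.Finite

/-- `H` is a maximal Haagerup subgroup. -/
def IsMaxHaagerup {G : Type*} [Group G] (H : Subgroup G) : Prop :=
  Haagerup H ∧ ∀ K : Subgroup G, H < K → ¬ Haagerup K

/-- `SL_3(ℤ)` -/
abbrev SL3 : Type := Matrix.SpecialLinearGroup (Fin 3) ℤ

/-- The block diagonal copy of `GL_2(ℤ)` in `SL_3(ℤ)`: the matrices `diag(A, det A)`. -/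
def blockGL2 : Subgroup SL3 where
  carrier := {g | g 0 2 = 0 ∧ g 1 2 = 0 ∧ g 2 0 = 0 ∧ g 2 1 = 0}
  one_mem' := by simp
  mul_mem' := by
    rintro a b ⟨h1, h2, h3, h4⟩ ⟨k1, k2, k3, k4⟩
    simp [Matrix.mul_apply, Fin.sum_univ_three, h1, h2, h3, h4, k1, k2, k3, k4]
  inv_mem' := by
    rintro a ⟨h1, h2, h3, h4⟩
    simp only [Set.mem_ofPred_eq, Matrix.SpecialLinearGroup.coe_inv, Matrix.adjugate_fin_three]
    simp [h1, h2, h3, h4]

/-- The block diagonal copy of `SL_2(ℤ)` in `SL_3(ℤ)`: the matrices `diag(A, 1)`. -/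
def blockSL2 : Subgroup SL3 where
  carrier := {g | g 0 2 = 0 ∧ g 1 2 = 0 ∧ g 2 0 = 0 ∧ g 2 1 = 0 ∧ g 2 2 = 1}
  one_mem' := by simp
  mul_mem' := by
    rintro a b ⟨h1, h2, h3, h4, h5⟩ ⟨k1, k2, k3, k4, k5⟩
    simp [Matrix.mul_apply, Fin.sum_univ_three, h1, h2, h3, h4, h5, k1, k2, k3, k4, k5]
  inv_mem' := by
    rintro a ⟨h1, h2, h3, h4, h5⟩
    have hd := a.2
    rw [Matrix.det_fin_three] at hd
    simp only [Set.mem_ofPred_eq, Matrix.SpecialLinearGroup.coe_inv, Matrix.adjugate_fin_three]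
    simp only [h1, h2, h3, h4, h5] at hd ⊢
    simp
    linarith

/-- The maximal parabolic subgroup `P = ℤ² ⋊ GL_2(ℤ)`: the stabiliser in `SL_3(ℤ)` of the
plane spanned by the first two basis vectors (last row `(0,0,±1)`). -/
def planeStab : Subgroup SL3 where
  carrier := {g | g 2 0 = 0 ∧ g 2 1 = 0}
  one_mem' := by simp
  mul_mem' := by
    rintro a b ⟨h3, h4⟩ ⟨k3, k4⟩
    simp [Matrix.mul_apply, Fin.sum_univ_three, h3, h4, k3, k4]
  inv_mem' := by
    rintro a ⟨h3, h4⟩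
    simp only [Set.mem_ofPred_eq, Matrix.SpecialLinearGroup.coe_inv, Matrix.adjugate_fin_three]
    simp [h3, h4]

/-- the linear part (upper left `2 × 2` block) of an element of `P`, as a matrix -/
def linM : planeStab →* Matrix (Fin 2) (Fin 2) ℤ where
  toFun g := !![g.1 0 0, g.1 0 1; g.1 1 0, g.1 1 1]
  map_one' := by
    ext i j
    fin_cases i <;> fin_cases j <;> simp
  map_mul' := by
    rintro ⟨a, h3, h4⟩ ⟨b, k3, k4⟩
    ext i j
    fin_cases i <;> fin_cases j <;>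
      simp [Matrix.mul_apply, Fin.sum_univ_three, k3, k4]

/-- The linear part `P = ℤ² ⋊ GL_2(ℤ) → GL_2(ℤ)`. -/
def linPart : planeStab →* GL (Fin 2) ℤ := linM.toHomUnits

/-- The subgroup `ℤ² ⋊ C` of `SL_3(ℤ)`, for a subgroup `C` of `GL_2(ℤ)`: all matrices of `P`
with linear part in `C`. -/
def affineOver (C : Subgroup (GL (Fin 2) ℤ)) : Subgroup SL3 :=
  (C.comap linPart).map planeStab.subtype

/-- the elementary translation matrix `1 + a E₁₃ + b E₂₃` -/
def trans (a b : ℤ) : SL3 := ⟨!![1, 0, a; 0, 1, b; 0, 0, 1], by simp [Matrix.det_fin_three]⟩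

/-- `K` contains two linearly independent translations, i.e. `K` meets the unipotent radical
`U(ℤ) ≅ ℤ²` of `P` in a subgroup of rank two (equivalently, of finite index in `U(ℤ)`). -/
def RankTwo (K : Subgroup SL3) : Prop :=
  ∃ a b c d : ℤ, trans a b ∈ K ∧ trans c d ∈ K ∧ a * d - b * c ≠ 0

/-- A subgroup is virtually abelian. -/
def VirtAbelian {G : Type*} [Group G] (C : Subgroup G) : Prop :=
  ∃ A : Subgroup G, A ≤ C ∧ A.relIndex C ≠ 0 ∧ ∀ x ∈ A, ∀ y ∈ A, x * y = y * x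

/-- Følner's condition (amenability of a discrete group). -/
def Folner (G : Type*) [Group G] : Prop :=
  ∀ (S : Finset G) (ε : ℝ), 0 < ε → ∃ F : Finset G, F.Nonempty ∧
    ∀ s ∈ S, ({x ∈ F | s * x ∉ F} : Set G).ncard ≤ ε * F.card

/-- the character `(z,w) ↦ Re (z^x₀ w^x₁)` of the torus -/
noncomputable def rechar (x : Fin 2 → ℤ) : C(Circle × Circle, ℝ) :=
  ⟨fun p => ((p.1 ^ (x 0) * p.2 ^ (x 1) : Circle) : ℂ).re,
    Complex.continuous_re.comp (continuous_subtype_val.comp (by fun_prop))⟩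

/-- the dual action of an integer matrix on the torus -/
noncomputable def dualMap (A : Matrix (Fin 2) (Fin 2) ℤ) : C(Circle × Circle, Circle × Circle) :=
  ⟨fun p => (p.1 ^ (A 0 0) * p.2 ^ (A 1 0), p.1 ^ (A 0 1) * p.2 ^ (A 1 1)), by fun_prop⟩

/-- `h` is a continuous `[0,1]`-valued function on `ℝ² ∖ 0`, positively homogeneous of degree 0. -/
structure IsSector (h : (Fin 2 → ℝ) → ℝ) : Prop where
  cont : ContinuousOn h {0}ᶜ
  nonneg : ∀ x, 0 ≤ h x
  le_one : ∀ x, h x ≤ 1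
  hom : ∀ (c : ℝ) (x : Fin 2 → ℝ), 0 < c → h (c • x) = h x

end Pool.Agent.Helper42.Haag
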