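import Pool.Agent.Helper42.Haag.Defs

set_option autoImplicit false

namespace Pool.Agent.Helper42.Haag

open Matrix

/-- `H_{λ,μ}`: the stabiliser in `SL_3(ℤ)` of the covector `λ` and of the vector `μ` up to sign,
i.e. (for nonzero `λ`, `μ`) of the plane `ker λ` and of the line `ℚ μ`. -/
def pairStab (lam mu : Fin 3 → ℤ) : Subgroup SL3 where
  carrier := {g | (lam ᵥ* g.1 = lam ∨ lam ᵥ* g.1 = -lam) ∧ (g.1 *ᵥ mu = mu ∨ g.1 *ᵥ mu = -mu)}
  one_mem' := by
    refine ⟨Or.inl ?_, Or.inl ?_⟩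
    · show lam ᵥ* (1 : Matrix (Fin 3) (Fin 3) ℤ) = lam
      simp
    · show (1 : Matrix (Fin 3) (Fin 3) ℤ) *ᵥ mu = mu
      simp
  mul_mem' := by
    rintro a b ⟨h1, h2⟩ ⟨k1, k2⟩
    refine ⟨?_, ?_⟩
    · show lam ᵥ* (a.1 * b.1) = lam ∨ lam ᵥ* (a.1 * b.1) = -lam
      rw [← Matrix.vecMul_vecMul]
      rcases h1 with h1 | h1 <;> rcases k1 with k1 | k1 <;> simp [h1, k1, Matrix.neg_vecMul]
    · show (a.1 * b.1) *ᵥ mu = mu ∨ (a.1 * b.1) *ᵥ mu = -mu
      rw [← Matrix.mulVec_mulVec]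
      rcases h2 with h2 | h2 <;> rcases k2 with k2 | k2 <;> simp [h2, k2, Matrix.mulVec_neg]
  inv_mem' := by
    rintro a ⟨h1, h2⟩
    have e1 : a.1 * (a⁻¹ : SL3).1 = 1 := by
      rw [← Matrix.SpecialLinearGroup.coe_mul, mul_inv_cancel]; simp
    have e2 : (a⁻¹ : SL3).1 * a.1 = 1 := by
      rw [← Matrix.SpecialLinearGroup.coe_mul, inv_mul_cancel]; simp
    refine ⟨?_, ?_⟩
    · have h : ∀ x : Fin 3 → ℤ, (x ᵥ* a.1) ᵥ* (a⁻¹ : SL3).1 = x := by
        intro x; rw [Matrix.vecMul_vecMul, e1, Matrix.vecMul_one]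
      have := h lam
      rcases h1 with h1 | h1
      · left; rwa [h1] at this
      · right
        rw [h1, Matrix.neg_vecMul] at this
        show lam ᵥ* (a⁻¹ : SL3).1 = -lam
        rw [← this, neg_neg, this]
    · have h : ∀ x : Fin 3 → ℤ, (a⁻¹ : SL3).1 *ᵥ (a.1 *ᵥ x) = x := by
        intro x; rw [Matrix.mulVec_mulVec, e2, Matrix.one_mulVec]
      have := h mu
      rcases h2 with h2 | h2
      · left; rwa [h2] at this
      · right
        rw [h2, Matrix.mulVec_neg] at this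
        show (a⁻¹ : SL3).1 *ᵥ mu = -mu
        rw [← this, neg_neg, this]

end Pool.Agent.Helper42.Haag
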