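import Pool.Agent.Helper42.Haag.Defs
import Pool.Agent.Helper42.Haag.Defs2
import Pool.Agent.Helper42.Haag.Col

set_option autoImplicit false

namespace Pool.Agent.Helper42.Haag

open Matrix

theorem haagerup_of_inj {G H : Type*} [Group G] [Group H] (f : G →* H)
    (hf : Function.Injective f) (h : Haagerup H) : Haagerup G := by
  obtain ⟨ψ, hψ, hp⟩ := h
  refine ⟨fun g => ψ (f g), ⟨by rw [map_one, hψ.map_one], fun g => by rw [map_inv, hψ.map_inv],
    fun s c hc => ?_⟩, fun C => ?_⟩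
  · classical
    let F : G ↪ H := ⟨f, hf⟩
    have key : ∀ (a : G → ℝ) (A : H → ℝ), (∀ g, A (f g) = a g) →
        ∑ x ∈ s.map F, A x = ∑ g ∈ s, a g := by
      intro a A hA
      rw [Finset.sum_map]
      exact Finset.sum_congr rfl fun g _ => hA g
    let c' : H → ℝ := Function.extend f c 0
    have hc' : ∀ g, c' (f g) = c g := fun g => hf.extend_apply c 0 g
    have h1 := hψ.sum_nonpos (s.map F) c' (by rw [key c c' hc']; exact hc)
    rw [Finset.sum_map] at h1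
    refine (le_of_eq ?_).trans h1
    refine Finset.sum_congr rfl fun g _ => ?_
    rw [Finset.sum_map]
    refine Finset.sum_congr rfl fun k _ => ?_
    show c g * c k * ψ (f (g⁻¹ * k)) = c' (f g) * c' (f k) * ψ ((f g)⁻¹ * f k)
    rw [hc', hc', map_mul, map_inv]
  · exact (hp C).preimage hf.injOn

/-- inverse transpose -/
def dualHom : SL3 →* SL3 where
  toFun g := ⟨(g⁻¹ : SL3).1ᵀ, by rw [Matrix.det_transpose]; exact (g⁻¹ : SL3).2⟩
  map_one' := by
    apply Subtype.ext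
    show ((1 : SL3)⁻¹ : SL3).1ᵀ = 1
    rw [inv_one]
    show (1 : Matrix (Fin 3) (Fin 3) ℤ)ᵀ = 1
    rw [Matrix.transpose_one]
  map_mul' a b := by
    apply Subtype.ext
    show ((a * b)⁻¹ : SL3).1ᵀ = (a⁻¹ : SL3).1ᵀ * (b⁻¹ : SL3).1ᵀ
    rw [← Matrix.transpose_mul, _root_.mul_inv_rev]
    rfl

lemma dualHom_coe (g : SL3) : (dualHom g).1 = (g⁻¹ : SL3).1ᵀ := rfl

lemma dualHom_dualHom (g : SL3) : dualHom (dualHom g) = g := by
  apply Subtype.ext
  rw [dualHom_coe]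
  have : (dualHom g)⁻¹ = dualHom g⁻¹ := (map_inv dualHom g).symm
  rw [this, dualHom_coe, inv_inv, Matrix.transpose_transpose]

lemma dualHom_inj : Function.Injective dualHom := fun a b h => by
  rw [← dualHom_dualHom a, h, dualHom_dualHom]

lemma haagerup_dual {K : Subgroup SL3} (hK : Haagerup K) : Haagerup (K.map dualHom) := by
  have hmem : ∀ x : K.map dualHom, dualHom x.1 ∈ K := by
    rintro ⟨_, k, hk, rfl⟩
    show dualHom (dualHom k) ∈ K
    rw [dualHom_dualHom]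
    exact hk
  refine haagerup_of_inj (G := K.map dualHom) (H := K)
    (MonoidHom.codRestrict (dualHom.comp (K.map dualHom).subtype) K hmem) ?_ hK
  intro a b h
  have : dualHom a.1 = dualHom b.1 := congrArg Subtype.val h
  exact Subtype.ext (dualHom_inj this)

lemma dual_tv (v F : Fin 3 → ℤ) (h : F ⬝ᵥ v = 0) (h' : v ⬝ᵥ (-F) = 0) :
    dualHom (tv v F h) = tv (-F) v h' := by
  have e : (tv v F h)⁻¹ = tv (-v) F (by rw [dotProduct_neg, h, neg_zero]) := by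
    rw [inv_eq_iff_mul_eq_one]
    apply Subtype.ext
    rw [Matrix.SpecialLinearGroup.coe_mul, tv_coe, tv_coe, neg_vecMulVec]
    have e0 : vecMulVec v F * vecMulVec v F = 0 := by
      rw [vecMulVec_mul_vecMulVec, h, zero_smul, vecMulVec_zero]
    calc (1 + vecMulVec v F) * (1 + -vecMulVec v F) = 1 - vecMulVec v F * vecMulVec v F := by
          noncomm_ring
      _ = _ := by rw [e0, sub_zero]; rfl
  apply Subtype.ext
  rw [dualHom_coe, e, tv_coe, tv_coe, Matrix.transpose_add, Matrix.transpose_one]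
  congr 1
  ext i j
  simp [vecMulVec_apply, mul_comm]

/-- A Haagerup subgroup containing two independent transvections with the same vector `v`
preserves the line of `v`. -/
theorem row_invariant (K : Subgroup SL3) (hK : Haagerup K) (v x y : Fin 3 → ℤ) (hv : v ≠ 0)
    (hxy : cr x y ≠ 0) (hx : x ∈ rowGroup K v) (hy : y ∈ rowGroup K v) (g : SL3) (hg : g ∈ K) :
    cr v (g.1 *ᵥ v) = 0 := by
  have hcol : ∀ x, x ∈ rowGroup K v → -x ∈ colGroup (K.map dualHom) v := by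
    intro x hx
    obtain ⟨h1, h2⟩ := mem_rowGroup.1 hx
    have h3 : v ⬝ᵥ (-x) = 0 := by rw [dotProduct_neg, dotProduct_comm, h1, neg_zero]
    refine mem_colGroup.2 ⟨h3, ?_⟩
    rw [← dual_tv v x h1 h3]
    exact ⟨_, h2, rfl⟩
  have hcr : cr (-x) (-y) ≠ 0 := by
    have : cr (-x) (-y) = cr x y := by
      ext j; fin_cases j <;> simp [cr]
    rw [this]; exact hxy
  have := col_invariant (K.map dualHom) (haagerup_dual hK) v (-x) (-y) hv hcr (hcol x hx)
    (hcol y hy) (dualHom g) ⟨g, hg, rfl⟩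
  have e : ((dualHom g)⁻¹ : SL3).1 = g.1ᵀ := by
    have : (dualHom g)⁻¹ = dualHom g⁻¹ := (map_inv dualHom g).symm
    rw [this, dualHom_coe, inv_inv]
  rw [e, Matrix.vecMul_transpose] at this
  exact this

/-! ### transvections in `H_{λ,μ}` -/

lemma cr_smul_right (a b : Fin 3 → ℤ) (n : ℤ) : cr a (n • b) = n • cr a b := by
  ext j; fin_cases j <;> simp [cr] <;> ring

lemma cr_smul_left (a b : Fin 3 → ℤ) (n : ℤ) : cr (n • a) b = n • cr a b := by
  ext j; fin_cases j <;> simp [cr] <;> ring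

lemma smul_mem_col {K : Subgroup SL3} {e w : Fin 3 → ℤ} {n : ℤ} (h : w ∈ colGroup K (n • e)) :
    n • w ∈ colGroup K e := by
  obtain ⟨h1, h2⟩ := mem_colGroup.1 h
  have h3 : e ⬝ᵥ (n • w) = 0 := by
    rw [smul_dotProduct] at h1
    rw [dotProduct_smul]
    exact h1
  refine mem_colGroup.2 ⟨h3, ?_⟩
  have : tv (n • w) e h3 = tv w (n • e) h1 := by
    apply Subtype.ext
    rw [tv_coe, tv_coe]
    congr 1
    ext i j
    simp [vecMulVec_apply]
    ring
  rw [this]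
  exact h2

lemma exists_T {lam mu : Fin 3 → ℤ} {K : Subgroup SL3}
    (hK : K.relIndex (pairStab lam mu) ≠ 0) {w : Fin 3 → ℤ} (hw : lam ⬝ᵥ w = 0) :
    ∃ n : ℤ, n ≠ 0 ∧ n • w ∈ colGroup K (cr mu w) := by
  have h0 : cr mu w ⬝ᵥ w = 0 := by rw [dot3]; simp [cr]; ring
  have hmu : cr mu w ⬝ᵥ mu = 0 := by rw [dot3]; simp [cr]; ring
  have hT : tv w (cr mu w) h0 ∈ pairStab lam mu := by
    refine ⟨Or.inl ?_, Or.inl ?_⟩
    · rw [tv_coe, Matrix.vecMul_add, Matrix.vecMul_one]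
      have : lam ᵥ* vecMulVec w (cr mu w) = (lam ⬝ᵥ w) • cr mu w := by
        ext j
        simp [Matrix.vecMul, dotProduct, vecMulVec_apply, Finset.sum_mul, mul_assoc]
      rw [this, hw, zero_smul, add_zero]
    · rw [tv_coe, Matrix.add_mulVec, Matrix.one_mulVec]
      have : vecMulVec w (cr mu w) *ᵥ mu = (cr mu w ⬝ᵥ mu) • w := by
        ext j
        simp only [Matrix.mulVec, dotProduct, vecMulVec_apply, Fin.sum_univ_three, Pi.smul_apply,
          smul_eq_mul]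
        ring
      rw [this, hmu, zero_smul, add_zero]
  obtain ⟨n, hn, -, hnm⟩ := Subgroup.exists_pow_mem_of_relIndex_ne_zero hK hT
  refine ⟨n, by exact_mod_cast hn.ne', ?_⟩
  have h1 : w ∈ colGroup (⊤ : Subgroup SL3) (cr mu w) := mem_colGroup.2 ⟨h0, Subgroup.mem_top _⟩
  have hpow : ∀ n : ℕ, ∃ h : cr mu w ⬝ᵥ ((n : ℤ) • w) = 0,
      tv ((n : ℤ) • w) (cr mu w) h = tv w (cr mu w) h0 ^ n := by
    intro n
    induction n with
    | zero =>
      refine ⟨by simp, ?_⟩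
      rw [pow_zero]
      apply Subtype.ext
      rw [tv_coe]
      simp
    | succ n ih =>
      obtain ⟨k1, k2⟩ := ih
      have h3 : cr mu w ⬝ᵥ (((n + 1 : ℕ) : ℤ) • w) = 0 := by
        rw [dotProduct_smul, h0, smul_zero]
      refine ⟨h3, ?_⟩
      rw [pow_succ, ← k2]
      apply Subtype.ext
      rw [Matrix.SpecialLinearGroup.coe_mul, tv_coe, tv_coe, tv_coe]
      have e0 : vecMulVec ((n : ℤ) • w) (cr mu w) * vecMulVec w (cr mu w) = 0 := by
        rw [vecMulVec_mul_vecMulVec, h0, zero_smul, vecMulVec_zero]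
      have e1 : vecMulVec (((n + 1 : ℕ) : ℤ) • w) (cr mu w) =
          vecMulVec ((n : ℤ) • w) (cr mu w) + vecMulVec w (cr mu w) := by
        rw [← add_vecMulVec]
        congr 1
        push_cast
        rw [add_smul, one_smul]
      rw [e1]
      calc _ = (1 + vecMulVec ((n : ℤ) • w) (cr mu w)) * (1 + vecMulVec w (cr mu w)) -
            vecMulVec ((n : ℤ) • w) (cr mu w) * vecMulVec w (cr mu w) := by noncomm_ring
        _ = _ := by rw [e0, sub_zero]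
  obtain ⟨h2, h3⟩ := hpow n
  refine mem_colGroup.2 ⟨h2, ?_⟩
  rw [h3]
  exact hnm.1

/-- elements of `K` moving the line of `w` and the covector `cr mu w`. -/
lemma exists_moving {lam mu : Fin 3 → ℤ} (hlm : lam ⬝ᵥ mu ≠ 0) {K : Subgroup SL3}
    (hK : K.relIndex (pairStab lam mu) ≠ 0) {w : Fin 3 → ℤ} (hw : lam ⬝ᵥ w = 0) (hw0 : w ≠ 0) :
    ∃ k ∈ K, cr w (k.1 *ᵥ w) ≠ 0 ∧ cr (cr mu w) (cr mu w ᵥ* (k⁻¹ : SL3).1) ≠ 0 := by
  have hu : lam ⬝ᵥ (cr lam w) = 0 := by rw [dot3]; simp [cr]; ring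
  obtain ⟨n, hn, hm⟩ := exists_T hK hu
  set u := cr lam w with hudef
  obtain ⟨h1, h2⟩ := mem_colGroup.1 hm
  have hww : w ⬝ᵥ w ≠ 0 := (dot_self_pos hw0).ne'
  -- `ε_u(w) = |w|² λ(μ)` up to sign
  have huw : cr mu u ⬝ᵥ w = -(w ⬝ᵥ w) * (lam ⬝ᵥ mu) := by
    have h := hw
    rw [dot3] at h
    rw [dot3, dot3, dot3]
    simp [hudef, cr]
    linear_combination (mu 0 * w 0 + mu 1 * w 1 + mu 2 * w 2) * h
  have hwu : cr mu w ⬝ᵥ u = (w ⬝ᵥ w) * (lam ⬝ᵥ mu) := by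
    have h := hw
    rw [dot3] at h
    rw [dot3, dot3, dot3]
    simp [hudef, cr]
    linear_combination (-(mu 0 * w 0 + mu 1 * w 1 + mu 2 * w 2)) * h
  refine ⟨_, h2, ?_, ?_⟩
  · have e1 : (tv (n • u) (cr mu u) h1).1 *ᵥ w = w + (n * (cr mu u ⬝ᵥ w)) • u := by
      rw [tv_coe, Matrix.add_mulVec, Matrix.one_mulVec]
      congr 1
      ext j
      simp [Matrix.mulVec, dot3, dotProduct, Fin.sum_univ_three, vecMulVec_apply]
      ring
    rw [e1, huw]
    intro h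
    -- multiply out: `cr w (w + s u) = s (w × u)`, and `(w × u) · μ = |w|² λ(μ)`
    have e2 : cr w (w + (n * (-(w ⬝ᵥ w) * (lam ⬝ᵥ mu))) • u) ⬝ᵥ mu =
        (n * (-(w ⬝ᵥ w) * (lam ⬝ᵥ mu))) * (cr mu w ⬝ᵥ u) := by
      rw [dot3, dot3 (cr mu w) u]
      simp [cr]
      ring
    rw [h, hwu] at e2
    simp [hn, hww, hlm] at e2
  · have e1 : cr mu w ᵥ* ((tv (n • u) (cr mu u) h1)⁻¹ : SL3).1 =
        cr mu w - (n * (cr mu w ⬝ᵥ u)) • cr mu u := by
      have hinv : (tv (n • u) (cr mu u) h1)⁻¹ =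
          tv (-(n • u)) (cr mu u) (by rw [dotProduct_neg, h1, neg_zero]) := by
        rw [inv_eq_iff_mul_eq_one]
        apply Subtype.ext
        rw [Matrix.SpecialLinearGroup.coe_mul, tv_coe, tv_coe, neg_vecMulVec]
        have e0 : vecMulVec (n • u) (cr mu u) * vecMulVec (n • u) (cr mu u) = 0 := by
          rw [vecMulVec_mul_vecMulVec, h1, zero_smul, vecMulVec_zero]
        calc (1 + vecMulVec (n • u) (cr mu u)) * (1 + -vecMulVec (n • u) (cr mu u)) =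
            1 - vecMulVec (n • u) (cr mu u) * vecMulVec (n • u) (cr mu u) := by
              noncomm_ring
          _ = _ := by rw [e0, sub_zero]; rfl
      rw [hinv, tv_coe, Matrix.vecMul_add, Matrix.vecMul_one, sub_eq_add_neg]
      congr 1
      ext j
      simp [Matrix.vecMul, dot3, dotProduct, Fin.sum_univ_three, vecMulVec_apply]
      ring
    rw [e1, hwu]
    intro h
    have e2 : cr (cr mu w) (cr mu w - (n * ((w ⬝ᵥ w) * (lam ⬝ᵥ mu))) • cr mu u) ⬝ᵥ lam =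
        -(n * ((w ⬝ᵥ w) * (lam ⬝ᵥ mu))) * ((cr mu w ⬝ᵥ u) * (lam ⬝ᵥ mu)) := by
      rw [dot3, dot3 (cr mu w) u, dot3 lam mu]
      simp [cr]
      ring
    rw [h, hwu] at e2
    simp [hn, hww, hlm] at e2

/-! ### arithmetic of parallel vectors -/

lemma bezout3 (a : Fin 3 → ℤ) (ha : a ≠ 0) :
    ∃ (d : ℤ) (b : Fin 3 → ℤ), d ≠ 0 ∧ a ⬝ᵥ b = d ∧ ∀ j, d ∣ a j := by
  let g1 : ℤ := Int.gcd (a 0) (a 1)
  let g2 : ℤ := Int.gcd g1 (a 2)
  have e1 : g1 = a 0 * Int.gcdA (a 0) (a 1) + a 1 * Int.gcdB (a 0) (a 1) :=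
    Int.gcd_eq_gcd_ab _ _
  have e2 : g2 = g1 * Int.gcdA g1 (a 2) + a 2 * Int.gcdB g1 (a 2) := Int.gcd_eq_gcd_ab _ _
  have d1 : g2 ∣ g1 := Int.gcd_dvd_left ..
  have d0 : g2 ∣ a 0 := d1.trans (Int.gcd_dvd_left ..)
  have d0' : g2 ∣ a 1 := d1.trans (Int.gcd_dvd_right ..)
  have d2 : g2 ∣ a 2 := Int.gcd_dvd_right ..
  refine ⟨g2, ![Int.gcdA (a 0) (a 1) * Int.gcdA g1 (a 2), Int.gcdB (a 0) (a 1) * Int.gcdA g1 (a 2),
    Int.gcdB g1 (a 2)], ?_, ?_, ?_⟩
  · intro h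
    apply ha
    rw [h] at d0 d0' d2
    ext j
    fin_cases j
    · exact zero_dvd_iff.1 d0
    · exact zero_dvd_iff.1 d0'
    · exact zero_dvd_iff.1 d2
  · rw [dot3, e2]
    simp
    rw [e1]
    ring
  · intro j
    fin_cases j
    · exact d0
    · exact d0'
    · exact d2

lemma smul_of_par (a c : Fin 3 → ℤ) (ha : a ≠ 0) (h : cr a c = 0)
    (hd : ∀ d : ℤ, (∀ j, d ∣ a j) → ∀ j, d ∣ c j) : ∃ m : ℤ, c = m • a := by
  obtain ⟨d, b, hd0, hab, hda⟩ := bezout3 a ha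
  have hdc := hd d hda
  obtain ⟨h0, h1, h2⟩ := (cr_ne_iff a c).1 h
  have : d ∣ c ⬝ᵥ b := by
    rw [dot3]
    exact dvd_add (dvd_add ((hdc 0).mul_right _) ((hdc 1).mul_right _)) ((hdc 2).mul_right _)
  obtain ⟨m, hm⟩ := this
  refine ⟨m, ?_⟩
  rw [dot3] at hab hm
  ext j
  apply mul_left_cancel₀ hd0
  fin_cases j
  · show d * c 0 = d * (m * a 0)
    have : d * (m * a 0) = (c 0 * b 0 + c 1 * b 1 + c 2 * b 2) * a 0 := by rw [hm]; ring
    rw [this, ← hab]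
    linear_combination b 2 * h1 - b 1 * h2
  · show d * c 1 = d * (m * a 1)
    have : d * (m * a 1) = (c 0 * b 0 + c 1 * b 1 + c 2 * b 2) * a 1 := by rw [hm]; ring
    rw [this, ← hab]
    linear_combination b 0 * h2 - b 2 * h0
  · show d * c 2 = d * (m * a 2)
    have : d * (m * a 2) = (c 0 * b 0 + c 1 * b 1 + c 2 * b 2) * a 2 := by rw [hm]; ring
    rw [this, ← hab]
    linear_combination b 1 * h0 - b 0 * h1

lemma dvd_mulVec (M : Matrix (Fin 3) (Fin 3) ℤ) (a : Fin 3 → ℤ) (d : ℤ) (h : ∀ j, d ∣ a j) (j) :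
    d ∣ (M *ᵥ a) j := by
  simp only [Matrix.mulVec, dotProduct]
  exact Finset.dvd_sum fun i _ => (h i).mul_left _

lemma dvd_vecMul (M : Matrix (Fin 3) (Fin 3) ℤ) (a : Fin 3 → ℤ) (d : ℤ) (h : ∀ j, d ∣ a j) (j) :
    d ∣ (a ᵥ* M) j := by
  simp only [Matrix.vecMul, dotProduct]
  exact Finset.dvd_sum fun i _ => (h i).mul_right _

lemma mul_inv_coe (g : SL3) : g.1 * (g⁻¹ : SL3).1 = 1 := by
  rw [← Matrix.SpecialLinearGroup.coe_mul, mul_inv_cancel]; simp

lemma inv_mul_coe (g : SL3) : (g⁻¹ : SL3).1 * g.1 = 1 := by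
  rw [← Matrix.SpecialLinearGroup.coe_mul, inv_mul_cancel]; simp

/-- `g μ ∥ μ` implies `g μ = ± μ` -/
lemma mulVec_sign (g : SL3) (mu : Fin 3 → ℤ) (hmu : mu ≠ 0) (h : cr mu (g.1 *ᵥ mu) = 0) :
    g.1 *ᵥ mu = mu ∨ g.1 *ᵥ mu = -mu := by
  obtain ⟨m, hm⟩ := smul_of_par mu (g.1 *ᵥ mu) hmu h (fun d hd => dvd_mulVec _ _ _ hd)
  have hgm : g.1 *ᵥ mu ≠ 0 := by
    intro h0
    have := congrArg (fun x => (g⁻¹ : SL3).1 *ᵥ x) h0
    simp only [Matrix.mulVec_mulVec, inv_mul_coe, Matrix.one_mulVec, Matrix.mulVec_zero] at this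
    exact hmu this
  have h' : cr (g.1 *ᵥ mu) mu = 0 := by
    rw [hm, cr_smul_left]
    have : cr mu mu = 0 := by ext j; fin_cases j <;> simp [cr] <;> ring
    rw [this, smul_zero]
  obtain ⟨m', hm'⟩ := smul_of_par (g.1 *ᵥ mu) mu hgm h' (fun d hd => by
    have := dvd_mulVec (g⁻¹ : SL3).1 (g.1 *ᵥ mu) d hd
    rwa [Matrix.mulVec_mulVec, inv_mul_coe, Matrix.one_mulVec] at this)
  have hmm : m' * m = 1 := by
    obtain ⟨i, hi⟩ : ∃ i, mu i ≠ 0 := by
      by_contra h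
      push Not at h
      exact hmu (funext h)
    have := congrFun hm' i
    rw [hm] at this
    simp only [Pi.smul_apply, smul_eq_mul] at this
    exact mul_right_cancel₀ hi (by linarith)
  rcases Int.isUnit_iff.1 (IsUnit.of_mul_eq_one _ (by rw [mul_comm] at hmm; exact hmm : m * m' = 1))
    with h1 | h1
  · left; rw [hm, h1, one_smul]
  · right; rw [hm, h1, neg_smul, one_smul]

lemma vecMul_sign (g : SL3) (lam : Fin 3 → ℤ) (hlam : lam ≠ 0) (h : cr lam (lam ᵥ* g.1) = 0) :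
    lam ᵥ* g.1 = lam ∨ lam ᵥ* g.1 = -lam := by
  have e : (dualHom g⁻¹).1 = g.1ᵀ := by rw [dualHom_coe, inv_inv]
  have := mulVec_sign (dualHom g⁻¹) lam hlam (by rw [e, Matrix.mulVec_transpose]; exact h)
  rwa [e, Matrix.mulVec_transpose] at this

/-! ### the main argument -/

/-- cross products transform by the inverse transpose -/
lemma cr_conj (g : SL3) (a b : Fin 3 → ℤ) :
    cr a b ᵥ* (g⁻¹ : SL3).1 = cr (g.1 *ᵥ a) (g.1 *ᵥ b) := by
  have hdet := g.2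
  rw [Matrix.det_fin_three] at hdet
  ext j
  rw [Matrix.SpecialLinearGroup.coe_inv, Matrix.adjugate_fin_three]
  fin_cases j
  · simp [Matrix.vecMul, Matrix.mulVec, dotProduct, Fin.sum_univ_three, cr]
    ring
  · simp [Matrix.vecMul, Matrix.mulVec, dotProduct, Fin.sum_univ_three, cr]
    ring
  · simp [Matrix.vecMul, Matrix.mulVec, dotProduct, Fin.sum_univ_three, cr]
    ring

/-- conjugated transvections -/
lemma conj_col {K : Subgroup SL3} {e w : Fin 3 → ℤ} (h : w ∈ colGroup K e) {g : SL3}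
    (hg : g ∈ K) : g.1 *ᵥ w ∈ colGroup K (e ᵥ* (g⁻¹ : SL3).1) := by
  obtain ⟨h1, h2⟩ := mem_colGroup.1 h
  have h3 : (e ᵥ* (g⁻¹ : SL3).1) ⬝ᵥ (g.1 *ᵥ w) = 0 := by
    rw [← Matrix.dotProduct_mulVec, Matrix.mulVec_mulVec, inv_mul_coe, Matrix.one_mulVec, h1]
  refine mem_colGroup.2 ⟨h3, ?_⟩
  rw [← tv_conj g w e h1 h3]
  exact K.mul_mem (K.mul_mem hg h2) (K.inv_mem hg)

/-- the commutator trick -/
lemma col_comm {K : Subgroup SL3} {v φ z ψ : Fin 3 → ℤ} (h1 : v ∈ colGroup K φ)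
    (h2 : z ∈ colGroup K ψ) (h : φ ⬝ᵥ z = 0) : (ψ ⬝ᵥ v) • z ∈ colGroup K φ := by
  obtain ⟨k1, k2⟩ := mem_colGroup.1 h2
  have h3 := conj_col h1 k2
  have hinv : (tv z ψ k1)⁻¹ = tv (-z) ψ (by rw [dotProduct_neg, k1, neg_zero]) := by
    rw [inv_eq_iff_mul_eq_one]
    apply Subtype.ext
    rw [Matrix.SpecialLinearGroup.coe_mul, tv_coe, tv_coe, neg_vecMulVec]
    have e0 : vecMulVec z ψ * vecMulVec z ψ = 0 := by
      rw [vecMulVec_mul_vecMulVec, k1, zero_smul, vecMulVec_zero]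
    calc (1 + vecMulVec z ψ) * (1 + -vecMulVec z ψ) = 1 - vecMulVec z ψ * vecMulVec z ψ := by
          noncomm_ring
      _ = _ := by rw [e0, sub_zero]; rfl
  have e1 : (tv z ψ k1).1 *ᵥ v = v + (ψ ⬝ᵥ v) • z := by
    rw [tv_coe, Matrix.add_mulVec, Matrix.one_mulVec]
    congr 1
    ext j
    simp only [Matrix.mulVec, dotProduct, Fin.sum_univ_three, vecMulVec_apply, Pi.smul_apply,
      smul_eq_mul]
    ring
  have e2 : φ ᵥ* ((tv z ψ k1)⁻¹ : SL3).1 = φ := by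
    rw [hinv, tv_coe, Matrix.vecMul_add, Matrix.vecMul_one]
    have : φ ᵥ* vecMulVec (-z) ψ = (-(φ ⬝ᵥ z)) • ψ := by
      ext j
      simp only [Matrix.vecMul, dotProduct, Fin.sum_univ_three, vecMulVec_apply, Pi.smul_apply,
        smul_eq_mul, Pi.neg_apply]
      ring
    rw [this, h, neg_zero, zero_smul, add_zero]
  rw [e1, e2] at h3
  have := sub_mem h3 h1
  rwa [add_sub_cancel_left] at this

/-- a nonzero linear form on the plane `ker lam`. -/
lemma exists_form {lam L : Fin 3 → ℤ} (h : ¬ ∀ w, lam ⬝ᵥ w = 0 → L ⬝ᵥ w = 0) :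
    ∃ w, lam ⬝ᵥ w = 0 ∧ L ⬝ᵥ w ≠ 0 := by
  push Not at h
  exact h

lemma exists_two_forms {lam L L' : Fin 3 → ℤ} (h : ∃ w, lam ⬝ᵥ w = 0 ∧ L ⬝ᵥ w ≠ 0)
    (h' : ∃ w, lam ⬝ᵥ w = 0 ∧ L' ⬝ᵥ w ≠ 0) :
    ∃ w, lam ⬝ᵥ w = 0 ∧ L ⬝ᵥ w ≠ 0 ∧ L' ⬝ᵥ w ≠ 0 := by
  obtain ⟨w, h1, h2⟩ := h
  obtain ⟨w', h1', h2'⟩ := h'
  by_cases a : L' ⬝ᵥ w = 0
  · by_cases b : L ⬝ᵥ w' = 0
    · refine ⟨w + w', by rw [dotProduct_add, h1, h1', add_zero], ?_, ?_⟩
      · rw [dotProduct_add, b, add_zero]; exact h2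
      · rw [dotProduct_add, a, zero_add]; exact h2'
    · exact ⟨w', h1', b, h2'⟩
  · exact ⟨w, h1, h2, a⟩

/-- if a covector `n` vanishes on `ker lam` then it is parallel to `lam`. -/
lemma par_of_vanish {lam n : Fin 3 → ℤ} (h : ∀ w, lam ⬝ᵥ w = 0 → n ⬝ᵥ w = 0) :
    cr lam n = 0 := by
  have h0 := h ![0, lam 2, -lam 1] (by rw [dot3]; simp; ring)
  have h1 := h ![-lam 2, 0, lam 0] (by rw [dot3]; simp; ring)
  have h2 := h ![lam 1, -lam 0, 0] (by rw [dot3]; simp; ring)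
  rw [dot3] at h0 h1 h2
  simp at h0 h1 h2
  rw [cr_ne_iff]
  refine ⟨by linarith, by linarith, by linarith⟩

lemma zero_of_vanish {lam mu n : Fin 3 → ℤ} (hlm : lam ⬝ᵥ mu ≠ 0)
    (h : ∀ w, lam ⬝ᵥ w = 0 → n ⬝ᵥ w = 0) (h2 : n ⬝ᵥ mu = 0) : n = 0 := by
  obtain ⟨a0, a1, a2⟩ := (cr_ne_iff lam n).1 (par_of_vanish h)
  rw [dot3] at h2 hlm
  ext j
  apply mul_left_cancel₀ hlm
  fin_cases j
  · show (lam 0 * mu 0 + lam 1 * mu 1 + lam 2 * mu 2) * n 0 = _ * 0
    linear_combination lam 0 * h2 - mu 1 * a2 + mu 2 * a1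
  · show (lam 0 * mu 0 + lam 1 * mu 1 + lam 2 * mu 2) * n 1 = _ * 0
    linear_combination lam 1 * h2 + mu 0 * a2 - mu 2 * a0
  · show (lam 0 * mu 0 + lam 1 * mu 1 + lam 2 * mu 2) * n 2 = _ * 0
    linear_combination lam 2 * h2 - mu 0 * a1 + mu 1 * a0

lemma mem_col_smul {K : Subgroup SL3} {e w : Fin 3 → ℤ} (n : ℤ) (h : w ∈ colGroup K e) :
    w ∈ colGroup K (n • e) := by
  obtain ⟨h1, h2⟩ := mem_colGroup.1 (zsmul_mem h n)
  have h3 : (n • e) ⬝ᵥ w = 0 := by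
    rw [dotProduct_smul] at h1
    rw [smul_dotProduct]
    exact h1
  refine mem_colGroup.2 ⟨h3, ?_⟩
  have : tv w (n • e) h3 = tv (n • w) e h1 := by
    apply Subtype.ext
    rw [tv_coe, tv_coe]
    congr 1
    ext i j
    simp [vecMulVec_apply]
    ring
  rw [this]
  exact h2

lemma cr_cr (a b z : Fin 3 → ℤ) : cr (cr a z) (cr b z) = (cr a b ⬝ᵥ z) • z := by
  rw [dot3]
  ext j; fin_cases j <;> simp [cr] <;> ring

theorem le_pairStab {lam mu : Fin 3 → ℤ} (hlm : lam ⬝ᵥ mu ≠ 0) (K : Subgroup SL3)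
    (hK : K.relIndex (pairStab lam mu) ≠ 0) (hH : Haagerup K) : K ≤ pairStab lam mu := by
  have hlam : lam ≠ 0 := by rintro rfl; simp at hlm
  have hmu : mu ≠ 0 := by rintro rfl; simp at hlm
  -- column groups attached to `cr mu w` are cyclic
  have hcol : ∀ w, lam ⬝ᵥ w = 0 → w ≠ 0 → ∀ x ∈ colGroup K (cr mu w),
      ∀ y ∈ colGroup K (cr mu w), cr mu w ≠ 0 → cr x y = 0 := by
    intro w hw hw0 x hx y hy hne
    by_contra hxy
    obtain ⟨k, hk, -, hk2⟩ := exists_moving hlm hK hw hw0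
    exact hk2 (col_invariant K hH _ x y hne hxy hx hy k hk)
  have hrow : ∀ w, lam ⬝ᵥ w = 0 → w ≠ 0 → ∀ M : ℤ, M ≠ 0 → ∀ x ∈ rowGroup K (M • w),
      ∀ y ∈ rowGroup K (M • w), cr x y = 0 := by
    intro w hw hw0 M hM x hx y hy
    by_contra hxy
    obtain ⟨k, hk, hk1, -⟩ := exists_moving hlm hK hw hw0
    have := row_invariant K hH (M • w) x y (smul_ne_zero hM hw0) hxy hx hy k hk
    rw [Matrix.mulVec_smul, cr_smul_left, cr_smul_right, smul_smul, smul_eq_zero] at this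
    rcases this with h | h
    · exact mul_ne_zero hM hM h
    · exact hk1 h
  intro g hg
  -- Step I
  have stepI : (∀ w, lam ⬝ᵥ w = 0 → (lam ᵥ* g.1) ⬝ᵥ w = 0) ∨
      (∀ w, lam ⬝ᵥ w = 0 → cr mu ((g⁻¹ : SL3).1 *ᵥ mu) ⬝ᵥ w = 0) := by
    by_contra hcon
    rw [not_or] at hcon
    obtain ⟨w', hw', hL, hL'⟩ := exists_two_forms (exists_form hcon.1) (exists_form hcon.2)
    set z := g.1 *ᵥ w' with hz
    have hlz : lam ⬝ᵥ z ≠ 0 := by rw [hz, Matrix.dotProduct_mulVec]; exact hL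
    set w : Fin 3 → ℤ := (lam ⬝ᵥ mu) • z - (lam ⬝ᵥ z) • mu with hw
    have hlw : lam ⬝ᵥ w = 0 := by
      rw [hw, dotProduct_sub, dotProduct_smul, dotProduct_smul, smul_eq_mul, smul_eq_mul]; ring
    -- `det(gμ, z, μ) ≠ 0`
    have hdet : cr (g.1 *ᵥ mu) z ⬝ᵥ mu ≠ 0 := by
      have e1 : cr (g.1 *ᵥ mu) z = cr mu w' ᵥ* (g⁻¹ : SL3).1 := by rw [hz, cr_conj]
      rw [e1, ← Matrix.dotProduct_mulVec]
      intro h0
      apply hL'
      rw [← neg_eq_zero, ← h0, dot3, dot3]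
      simp [cr]
      ring
    have hmz : cr mu z ≠ 0 := by
      intro h0
      apply hdet
      have : cr (g.1 *ᵥ mu) z ⬝ᵥ mu = -(cr mu z ⬝ᵥ (g.1 *ᵥ mu)) := by
        rw [dot3, dot3]; simp only [cr, Matrix.cons_val_zero, Matrix.cons_val_one,
          Matrix.cons_val_two, Matrix.tail_cons, Matrix.head_cons]; simp; ring
      rw [this, h0]; simp
    have hcw : cr mu w = (lam ⬝ᵥ mu) • cr mu z := by
      ext j; fin_cases j <;> simp [hw, cr] <;> ring
    have hw0 : w ≠ 0 := by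
      intro h0
      have : cr mu w = 0 := by rw [h0]; ext j; fin_cases j <;> simp [cr]
      rw [hcw, smul_eq_zero] at this
      rcases this with h | h
      · exact hlm h
      · exact hmz h
    have hne : cr mu w ≠ 0 := by rw [hcw]; exact smul_ne_zero hlm hmz
    obtain ⟨n1, hn1, hT1⟩ := exists_T hK hlw
    obtain ⟨n2, hn2, hT2⟩ := exists_T hK hw'
    have hT2' := conj_col hT2 hg
    rw [cr_conj, Matrix.mulVec_smul, ← hz] at hT2'
    have hφz : cr mu w ⬝ᵥ (n2 • z) = 0 := by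
      rw [hcw, dotProduct_smul, smul_dotProduct]
      have : cr mu z ⬝ᵥ z = 0 := by rw [dot3]; simp [cr]; ring
      rw [this, smul_zero, smul_zero]
    have hc := col_comm hT1 hT2' hφz
    have hs : cr (g.1 *ᵥ mu) z ⬝ᵥ (n1 • w) = -(n1 * (lam ⬝ᵥ z)) * (cr (g.1 *ᵥ mu) z ⬝ᵥ mu) := by
      rw [hw, dotProduct_smul, dotProduct_sub, dotProduct_smul, dotProduct_smul]
      have : cr (g.1 *ᵥ mu) z ⬝ᵥ z = 0 := by rw [dot3]; simp [cr]; ring
      rw [this]
      simp only [smul_eq_mul]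
      ring
    have hcr0 := hcol w hlw hw0 _ hT1 _ hc hne
    rw [smul_smul, cr_smul_left, cr_smul_right, smul_smul, hs, smul_eq_zero] at hcr0
    rcases hcr0 with h | h
    · simp [hn1, hn2, hlz, hdet] at h
    · have : cr w z = -(lam ⬝ᵥ z) • cr mu z := by
        ext j; fin_cases j <;> simp [hw, cr] <;> ring
      rw [this, smul_eq_zero] at h
      rcases h with h | h
      · exact hlz (neg_eq_zero.1 h)
      · exact hmz h
  rcases stepI with hP1 | hP2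
  · -- `g` preserves `ker λ`
    have hP1' := vecMul_sign g lam hlam (par_of_vanish hP1)
    refine ⟨hP1', ?_⟩
    apply mulVec_sign g mu hmu
    by_contra hne
    set n := cr mu (g.1 *ᵥ mu) with hn
    have hnmu : n ⬝ᵥ mu = 0 := by rw [hn, dot3]; simp [cr]; ring
    obtain ⟨z, hz, hnz⟩ := exists_form (fun h => hne (zero_of_vanish hlm h hnmu))
    have hz0 : z ≠ 0 := by rintro rfl; simp at hnz
    set w' := (g⁻¹ : SL3).1 *ᵥ z with hw'
    have hgw' : g.1 *ᵥ w' = z := by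
      rw [hw', Matrix.mulVec_mulVec, mul_inv_coe, Matrix.one_mulVec]
    have hlw' : lam ⬝ᵥ w' = 0 := by
      have : (lam ᵥ* g.1) ⬝ᵥ w' = 0 := by rw [← Matrix.dotProduct_mulVec, hgw', hz]
      rcases hP1' with h | h
      · rwa [h] at this
      · rw [h, neg_dotProduct, neg_eq_zero] at this; exact this
    obtain ⟨n1, hn1, hT1⟩ := exists_T hK hz
    obtain ⟨n2, hn2, hT2⟩ := exists_T hK hlw'
    have hT2' := conj_col hT2 hg
    rw [cr_conj, Matrix.mulVec_smul, hgw'] at hT2'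
    have m1 : (n1 * n2) • z ∈ colGroup K (cr mu z) := by
      rw [mul_comm, mul_smul]; exact zsmul_mem hT1 n2
    have m2 : (n1 * n2) • z ∈ colGroup K (cr (g.1 *ᵥ mu) z) := by
      rw [mul_smul]; exact zsmul_mem hT2' n1
    have h0 := hrow z hz hz0 (n1 * n2) (mul_ne_zero hn1 hn2) _ m1 _ m2
    rw [cr_cr, smul_eq_zero] at h0
    rcases h0 with h | h
    · exact hnz h
    · exact hz0 h
  · -- `g` preserves the line of `μ`
    have hP2' : (g⁻¹ : SL3).1 *ᵥ mu = mu ∨ (g⁻¹ : SL3).1 *ᵥ mu = -mu := by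
      apply mulVec_sign g⁻¹ mu hmu
      apply zero_of_vanish hlm hP2
      rw [dot3]; simp [cr]; ring
    have hgmu : g.1 *ᵥ mu = mu ∨ g.1 *ᵥ mu = -mu := by
      have e : g.1 *ᵥ ((g⁻¹ : SL3).1 *ᵥ mu) = mu := by
        rw [Matrix.mulVec_mulVec, mul_inv_coe, Matrix.one_mulVec]
      rcases hP2' with h | h
      · left; rwa [h] at e
      · right; rw [h, Matrix.mulVec_neg] at e; rw [← e, neg_neg, e]
    refine ⟨?_, hgmu⟩
    apply vecMul_sign g lam hlam
    apply par_of_vanish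
    by_contra hcon
    obtain ⟨w', hw', hL⟩ := exists_form hcon
    set z := g.1 *ᵥ w' with hz
    have hlz : lam ⬝ᵥ z ≠ 0 := by rw [hz, Matrix.dotProduct_mulVec]; exact hL
    set w : Fin 3 → ℤ := (lam ⬝ᵥ mu) • z - (lam ⬝ᵥ z) • mu with hw
    have hlw : lam ⬝ᵥ w = 0 := by
      rw [hw, dotProduct_sub, dotProduct_smul, dotProduct_smul, smul_eq_mul, smul_eq_mul]; ring
    have hw0 : w ≠ 0 := by
      intro h0
      have h1 : (lam ⬝ᵥ mu) • z = (lam ⬝ᵥ z) • mu := by rw [hw, sub_eq_zero] at h0; exact h0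
      have h2 := congrArg (fun x => lam ⬝ᵥ ((g⁻¹ : SL3).1 *ᵥ x)) h1
      simp only [Matrix.mulVec_smul, dotProduct_smul] at h2
      have h3 : (g⁻¹ : SL3).1 *ᵥ z = w' := by
        rw [hz, Matrix.mulVec_mulVec, inv_mul_coe, Matrix.one_mulVec]
      rw [h3, hw', smul_zero] at h2
      rcases hP2' with h | h
      · rw [h] at h2
        simp [hlz, hlm] at h2
      · rw [h] at h2
        simp [hlz, hlm] at h2
    have hcw : cr mu w = (lam ⬝ᵥ mu) • cr mu z := by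
      ext j; fin_cases j <;> simp [hw, cr] <;> ring
    have hne : cr mu w ≠ 0 := by
      intro h0
      apply hw0
      -- `w ∥ μ`, `λ(w)=0`
      obtain ⟨a0, a1, a2⟩ := (cr_ne_iff mu w).1 h0
      have hlw' := hlw
      rw [dot3] at hlw'
      have hlm' := hlm
      rw [dot3] at hlm'
      ext j
      apply mul_left_cancel₀ hlm'
      fin_cases j
      · show (lam 0 * mu 0 + lam 1 * mu 1 + lam 2 * mu 2) * w 0 = _ * 0
        linear_combination mu 0 * hlw' - lam 1 * a2 + lam 2 * a1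
      · show (lam 0 * mu 0 + lam 1 * mu 1 + lam 2 * mu 2) * w 1 = _ * 0
        linear_combination mu 1 * hlw' + lam 0 * a2 - lam 2 * a0
      · show (lam 0 * mu 0 + lam 1 * mu 1 + lam 2 * mu 2) * w 2 = _ * 0
        linear_combination mu 2 * hlw' - lam 0 * a1 + lam 1 * a0
    obtain ⟨n1, hn1, hT1⟩ := exists_T hK hlw
    obtain ⟨n2, hn2, hT2⟩ := exists_T hK hw'
    have hT2' := conj_col hT2 hg
    rw [cr_conj, Matrix.mulVec_smul, ← hz] at hT2'
    have hmem : n2 • z ∈ colGroup K (cr mu w) := by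
      rw [hcw]
      apply mem_col_smul
      rcases hgmu with h | h
      · rwa [h] at hT2'
      · rw [h] at hT2'
        have e : cr (-mu) z = (-1 : ℤ) • cr mu z := by
          ext j; fin_cases j <;> simp [cr] <;> ring
        rw [e] at hT2'
        have := mem_col_smul (-1) hT2'
        rwa [smul_smul, neg_one_mul, neg_neg, one_smul] at this
    have hcr0 := hcol w hlw hw0 _ hT1 _ hmem hne
    rw [cr_smul_left, cr_smul_right, smul_smul, smul_eq_zero] at hcr0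
    rcases hcr0 with h | h
    · simp [hn1, hn2] at h
    · have e : cr w z = -(lam ⬝ᵥ z) • cr mu z := by
        ext j; fin_cases j <;> simp [hw, cr] <;> ring
      rw [e, smul_eq_zero] at h
      rcases h with h | h
      · exact hlz (neg_eq_zero.1 h)
      · apply hne
        rw [hcw, h, smul_zero]

end Pool.Agent.Helper42.Haag
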