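import Pool.Agent.Helper42.Haag.Defs
import Pool.Agent.Helper42.Haag.B1
import Pool.Agent.Helper42.Haag.Pair
import Pool.Agent.Helper31.HG.B2
import Pool.Agent.Helper31.HG.B3

set_option autoImplicit false

namespace Pool.Agent.Helper42.Haag

open Matrix

lemma trans_mem_planeStab (a b : ℤ) : trans a b ∈ planeStab := by
  refine ⟨?_, ?_⟩
  · show (!![1, 0, a; 0, 1, b; 0, 0, 1] : Matrix (Fin 3) (Fin 3) ℤ) 2 0 = 0
    simp
  · show (!![1, 0, a; 0, 1, b; 0, 0, 1] : Matrix (Fin 3) (Fin 3) ℤ) 2 1 = 0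
    simp

lemma linPart_trans (a b : ℤ) : linPart ⟨trans a b, trans_mem_planeStab a b⟩ = 1 := by
  apply Units.ext
  rw [linPart_coe]
  show !![(trans a b).1 0 0, (trans a b).1 0 1; (trans a b).1 1 0, (trans a b).1 1 1] = 1
  ext i j
  fin_cases i <;> fin_cases j <;> simp [trans]

lemma trans_mem_affineOver (C : Subgroup (GL (Fin 2) ℤ)) (a b : ℤ) : trans a b ∈ affineOver C := by
  refine ⟨⟨trans a b, trans_mem_planeStab a b⟩, ?_, rfl⟩
  show linPart _ ∈ C
  rw [linPart_trans]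
  exact C.one_mem

lemma rankTwo_affineOver (C : Subgroup (GL (Fin 2) ℤ)) : RankTwo (affineOver C) :=
  ⟨1, 0, 0, 1, trans_mem_affineOver C _ _, trans_mem_affineOver C _ _, by norm_num⟩

/-- the linear part of a subgroup -/
def linOf (K : Subgroup SL3) : Subgroup (GL (Fin 2) ℤ) := (K.comap planeStab.subtype).map linPart

lemma le_affineOver_linOf {K : Subgroup SL3} (h : K ≤ planeStab) : K ≤ affineOver (linOf K) := by
  intro g hg
  refine ⟨⟨g, h hg⟩, ?_, rfl⟩
  show linPart ⟨g, h hg⟩ ∈ linOf K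
  exact ⟨⟨g, h hg⟩, hg, rfl⟩

lemma mem_affineOver {C : Subgroup (GL (Fin 2) ℤ)} {g : SL3} (hg : g ∈ affineOver C) :
    ∃ h : g ∈ planeStab, linPart ⟨g, h⟩ ∈ C := by
  obtain ⟨x, hx, rfl⟩ := hg
  exact ⟨x.2, hx⟩

/-- `linPart` is surjective -/
lemma linPart_surj (A : GL (Fin 2) ℤ) : ∃ a : planeStab, linPart a = A := by
  have hu : IsUnit (A : Matrix (Fin 2) (Fin 2) ℤ).det :=
    (Matrix.isUnit_iff_isUnit_det _).1 A.isUnit
  set d := (A : Matrix (Fin 2) (Fin 2) ℤ).det with hd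
  have hdd : d * d = 1 := by
    rcases Int.isUnit_iff.1 hu with h | h <;> rw [h] <;> norm_num
  have h2 := Matrix.det_fin_two (A : Matrix (Fin 2) (Fin 2) ℤ)
  let M : SL3 := ⟨!![A.1 0 0, A.1 0 1, 0; A.1 1 0, A.1 1 1, 0; 0, 0, d], by
    rw [Matrix.det_fin_three]
    simp
    have : A.1 0 0 * A.1 1 1 - A.1 0 1 * A.1 1 0 = d := by rw [hd, h2]
    linear_combination d * this + hdd⟩
  have hM : M ∈ planeStab := by
    refine ⟨?_, ?_⟩
    · show (!![A.1 0 0, A.1 0 1, 0; A.1 1 0, A.1 1 1, 0; 0, 0, d] : Matrix _ _ ℤ) 2 0 = 0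
      simp
    · show (!![A.1 0 0, A.1 0 1, 0; A.1 1 0, A.1 1 1, 0; 0, 0, d] : Matrix _ _ ℤ) 2 1 = 0
      simp
  refine ⟨⟨M, hM⟩, ?_⟩
  apply Units.ext
  rw [linPart_coe]
  ext i j
  fin_cases i <;> fin_cases j <;> rfl

lemma linOf_affineOver (C : Subgroup (GL (Fin 2) ℤ)) : linOf (affineOver C) = C := by
  ext A
  constructor
  · rintro ⟨a, ha, rfl⟩
    obtain ⟨_, h⟩ := mem_affineOver ha
    exact h
  · intro hA
    obtain ⟨a, rfl⟩ := linPart_surj A
    refine ⟨a, ?_, rfl⟩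
    exact ⟨a, hA, rfl⟩

lemma affineOver_mono {C C' : Subgroup (GL (Fin 2) ℤ)} (h : C ≤ C') :
    affineOver C ≤ affineOver C' := by
  rintro _ ⟨a, ha, rfl⟩
  exact ⟨a, h ha, rfl⟩

lemma linOf_mono {K K' : Subgroup SL3} (h : K ≤ K') : linOf K ≤ linOf K' := by
  rintro _ ⟨a, ha, rfl⟩
  exact ⟨a, h ha, rfl⟩

lemma virtAbelian_linOf {K : Subgroup SL3} (hR : RankTwo K) (hK : Haagerup K) :
    VirtAbelian (linOf K) :=
  Pool.Agent.Helper31.HG.virtAbelian_of_no_pair _ (no_hyperbolic_pair K hR hK)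

lemma RankTwo.mono {K K' : Subgroup SL3} (h : K ≤ K') (hR : RankTwo K) : RankTwo K' := by
  obtain ⟨a, b, c, d, h1, h2, h3⟩ := hR
  exact ⟨a, b, c, d, h h1, h h2, h3⟩

lemma haagerup_of_le {K K' : Subgroup SL3} (h : K ≤ K') (hK : Haagerup K') : Haagerup K :=
  haagerup_of_inj (Subgroup.inclusion h) (Subgroup.inclusion_injective h) hK

lemma haagerup_affine {C : Subgroup (GL (Fin 2) ℤ)} (hC : VirtAbelian C) :
    Haagerup (affineOver C) := Pool.Agent.Helper31.HG.haagerup_affineOver C hC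

/-- the Haagerup subgroups with rank two intersection with `U` -/
theorem haagerup_iff_of_rankTwo {K : Subgroup SL3} (hR : RankTwo K) :
    Haagerup K ↔ ∃ C, VirtAbelian C ∧ K ≤ affineOver C := by
  constructor
  · intro hK
    exact ⟨linOf K, virtAbelian_linOf hR hK, le_affineOver_linOf (le_planeStab K hR hK)⟩
  · rintro ⟨C, hC, hle⟩
    exact haagerup_of_le hle (haagerup_affine hC)

theorem horospherical (K : Subgroup SL3) :
    (IsMaxHaagerup K ∧ RankTwo K) ↔
      ∃ C : Subgroup (GL (Fin 2) ℤ), Maximal VirtAbelian C ∧ K = affineOver C := by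
  constructor
  · rintro ⟨⟨hK, hmax⟩, hR⟩
    have hVA := virtAbelian_linOf hR hK
    have hle := le_affineOver_linOf (le_planeStab K hR hK)
    have hEq : ∀ C, VirtAbelian C → K ≤ affineOver C → K = affineOver C := by
      intro C hC hle
      rcases hle.eq_or_lt with h | h
      · exact h
      · exact absurd (haagerup_affine hC) (hmax _ h)
    refine ⟨linOf K, ⟨hVA, fun C' hC' hle' => ?_⟩, hEq _ hVA hle⟩
    have h1 : K = affineOver C' := hEq C' hC' (hle.trans (affineOver_mono hle'))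
    have h2 : linOf K = C' := by rw [h1, linOf_affineOver]
    exact h2.ge
  · rintro ⟨C, ⟨hC, hmax⟩, rfl⟩
    refine ⟨⟨haagerup_affine hC, fun K hlt hK => ?_⟩, rankTwo_affineOver C⟩
    have hR : RankTwo K := (rankTwo_affineOver C).mono hlt.le
    have hVA := virtAbelian_linOf hR hK
    have hle : C ≤ linOf K := by
      have := linOf_mono hlt.le
      rwa [linOf_affineOver] at this
    have hle' := hmax hVA hle
    have : K ≤ affineOver C :=
      (le_affineOver_linOf (le_planeStab K hR hK)).trans (affineOver_mono hle')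
    exact absurd this (not_le_of_gt hlt)

end Pool.Agent.Helper42.Haag
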