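import Pool.Agent.Helper42.Haag.Defs

set_option autoImplicit false

namespace Pool.Agent.Helper42.Haag.G

open Pool.Agent.Helper42.Haag

/-- symmetric positive definite matrices of determinant one, `!![p, q; q, r]` -/
structure Sy where
  p : ℝ
  q : ℝ
  r : ℝ
  hp : 0 < p
  hr : 0 < r
  hd : p * r - q ^ 2 = 1

/-- the Lorentz form -/
noncomputable def B (X Y : Sy) : ℝ := (X.p * Y.r + X.r * Y.p - 2 * X.q * Y.q) / 2

/-- Klein model coordinates -/
noncomputable def u1 (X : Sy) : ℝ := (X.p - X.r) / (X.p + X.r)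
noncomputable def u2 (X : Sy) : ℝ := 2 * X.q / (X.p + X.r)
noncomputable def x0 (X : Sy) : ℝ := (X.p + X.r) / 2

lemma x0_pos (X : Sy) : 0 < x0 X := by
  unfold x0
  have := X.hp
  have := X.hr
  positivity

lemma B_eq (X Y : Sy) : B X Y = x0 X * x0 Y * (1 - (u1 X * u1 Y + u2 X * u2 Y)) := by
  unfold B x0 u1 u2
  have h1 : X.p + X.r ≠ 0 := by have := X.hp; have := X.hr; positivity
  have h2 : Y.p + Y.r ≠ 0 := by have := Y.hp; have := Y.hr; positivity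
  field_simp
  ring

lemma u_sq (X : Sy) : u1 X ^ 2 + u2 X ^ 2 < 1 := by
  unfold u1 u2
  have h1 : 0 < X.p + X.r := by have := X.hp; have := X.hr; positivity
  rw [div_pow, div_pow, ← add_div, div_lt_one (by positivity)]
  nlinarith [X.hd]

lemma abs_lt (X Y : Sy) : |u1 X * u1 Y + u2 X * u2 Y| < 1 := by
  have h1 := u_sq X
  have h2 := u_sq Y
  rw [_root_.abs_lt]
  constructor <;> nlinarith [sq_nonneg (u1 X - u1 Y), sq_nonneg (u2 X - u2 Y),
    sq_nonneg (u1 X + u1 Y), sq_nonneg (u2 X + u2 Y)]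

lemma pow_form_nonneg {ι : Type*} (s : Finset ι) (c : ι → ℝ) (a b : ι → ℝ) (n : ℕ) :
    0 ≤ ∑ g ∈ s, ∑ k ∈ s, c g * c k * (a g * a k + b g * b k) ^ n := by
  have h : ∀ g k, c g * c k * (a g * a k + b g * b k) ^ n =
      ∑ m ∈ Finset.range (n + 1), (n.choose m : ℝ) *
        ((c g * (a g ^ m * b g ^ (n - m))) * (c k * (a k ^ m * b k ^ (n - m)))) := by
    intro g k
    rw [add_pow, Finset.mul_sum]
    refine Finset.sum_congr rfl fun m _ => ?_
    rw [mul_pow, mul_pow]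
    ring
  simp only [h]
  have : ∑ g ∈ s, ∑ k ∈ s, ∑ m ∈ Finset.range (n + 1), (n.choose m : ℝ) *
        ((c g * (a g ^ m * b g ^ (n - m))) * (c k * (a k ^ m * b k ^ (n - m)))) =
      ∑ m ∈ Finset.range (n + 1), (n.choose m : ℝ) *
        (∑ g ∈ s, c g * (a g ^ m * b g ^ (n - m))) ^ 2 := by
    have e : ∀ g ∈ s, ∑ k ∈ s, ∑ m ∈ Finset.range (n + 1), (n.choose m : ℝ) *
        ((c g * (a g ^ m * b g ^ (n - m))) * (c k * (a k ^ m * b k ^ (n - m)))) =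
        ∑ m ∈ Finset.range (n + 1), ∑ k ∈ s, (n.choose m : ℝ) *
        ((c g * (a g ^ m * b g ^ (n - m))) * (c k * (a k ^ m * b k ^ (n - m)))) :=
      fun g _ => Finset.sum_comm
    rw [Finset.sum_congr rfl e, Finset.sum_comm]
    refine Finset.sum_congr rfl fun m _ => ?_
    rw [sq, Finset.sum_mul_sum, Finset.mul_sum]
    refine Finset.sum_congr rfl fun g _ => ?_
    rw [Finset.mul_sum]
  rw [this]
  positivity

/-- `log B` is a conditionally negative definite kernel -/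
lemma log_B_cnd {ι : Type*} (s : Finset ι) (c : ι → ℝ) (X : ι → Sy) (hc : ∑ g ∈ s, c g = 0) :
    ∑ g ∈ s, ∑ k ∈ s, c g * c k * Real.log (B (X g) (X k)) ≤ 0 := by
  set v : ι → ι → ℝ := fun g k => u1 (X g) * u1 (X k) + u2 (X g) * u2 (X k) with hv
  have hlog : ∀ g k, Real.log (B (X g) (X k)) =
      Real.log (x0 (X g)) + Real.log (x0 (X k)) + Real.log (1 - v g k) := by
    intro g k
    have h1 := x0_pos (X g)
    have h2 := x0_pos (X k)
    have h3 : 0 < 1 - v g k := by have := (_root_.abs_lt.1 (abs_lt (X g) (X k))).2; simp only [hv]; linarith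
    rw [B_eq, Real.log_mul (by positivity) h3.ne', Real.log_mul h1.ne' h2.ne']
  have e1 : ∑ g ∈ s, ∑ k ∈ s, c g * c k * Real.log (B (X g) (X k)) =
      ∑ g ∈ s, ∑ k ∈ s, c g * c k * Real.log (1 - v g k) := by
    simp only [hlog]
    have : ∀ g ∈ s, ∑ k ∈ s, c g * c k * (Real.log (x0 (X g)) + Real.log (x0 (X k)) +
        Real.log (1 - v g k)) = c g * Real.log (x0 (X g)) * (∑ k ∈ s, c k) +
        c g * (∑ k ∈ s, c k * Real.log (x0 (X k))) + ∑ k ∈ s, c g * c k * Real.log (1 - v g k) := by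
      intro g _
      rw [Finset.mul_sum, Finset.mul_sum, ← Finset.sum_add_distrib, ← Finset.sum_add_distrib]
      refine Finset.sum_congr rfl fun k _ => by ring
    rw [Finset.sum_congr rfl this, Finset.sum_add_distrib, Finset.sum_add_distrib,
      ← Finset.sum_mul, ← Finset.sum_mul, hc]
    ring
  rw [e1]
  have h2 : HasSum (fun n : ℕ => ∑ g ∈ s, ∑ k ∈ s, c g * c k * (v g k ^ (n + 1) / ((n : ℝ) + 1)))
      (∑ g ∈ s, ∑ k ∈ s, c g * c k * (-Real.log (1 - v g k))) := by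
    refine hasSum_sum fun g _ => hasSum_sum fun k _ => ?_
    apply HasSum.mul_left
    exact Real.hasSum_pow_div_log_of_abs_lt_one (abs_lt (X g) (X k))
  have h3 : 0 ≤ ∑ g ∈ s, ∑ k ∈ s, c g * c k * (-Real.log (1 - v g k)) := by
    refine h2.nonneg fun n => ?_
    have := pow_form_nonneg s c (fun g => u1 (X g)) (fun g => u2 (X g)) (n + 1)
    have h4 : ∑ g ∈ s, ∑ k ∈ s, c g * c k * (v g k ^ (n + 1) / ((n : ℝ) + 1)) =
        (∑ g ∈ s, ∑ k ∈ s, c g * c k * (u1 (X g) * u1 (X k) + u2 (X g) * u2 (X k)) ^ (n + 1)) /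
          ((n : ℝ) + 1) := by
      rw [Finset.sum_div]
      refine Finset.sum_congr rfl fun g _ => ?_
      rw [Finset.sum_div]
      refine Finset.sum_congr rfl fun k _ => ?_
      simp only [hv]
      ring
    rw [h4]
    positivity
  have h5 : ∑ g ∈ s, ∑ k ∈ s, c g * c k * (-Real.log (1 - v g k)) =
      -∑ g ∈ s, ∑ k ∈ s, c g * c k * Real.log (1 - v g k) := by
    rw [← Finset.sum_neg_distrib]
    refine Finset.sum_congr rfl fun g _ => ?_
    rw [← Finset.sum_neg_distrib]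
    refine Finset.sum_congr rfl fun k _ => by ring
  linarith

/-- the Gram matrix `A Aᵀ` of an element of block `GL_2(ℤ)` -/
lemma det_sq (g : blockGL2) :
    ((g.1 0 0 : ℤ) * g.1 1 1 - g.1 0 1 * g.1 1 0) ^ 2 = 1 := by
  obtain ⟨g, h1, h2, h3, h4⟩ := g
  have hd := g.2
  rw [Matrix.det_fin_three] at hd
  have e : ((g 0 0 : ℤ) * g 1 1 - g 0 1 * g 1 0) * g 2 2 = 1 := by
    have h1' : g.1 0 2 = 0 := h1
    have h2' : g.1 1 2 = 0 := h2
    have h3' : g.1 2 0 = 0 := h3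
    have h4' : g.1 2 1 = 0 := h4
    show (g.1 0 0 * g.1 1 1 - g.1 0 1 * g.1 1 0) * g.1 2 2 = 1
    rw [h1', h2', h3', h4'] at hd
    linarith
  rcases Int.isUnit_iff.1 (IsUnit.of_mul_eq_one _ e) with h | h
  · show ((g 0 0 : ℤ) * g 1 1 - g 0 1 * g 1 0) ^ 2 = 1
    rw [h]; norm_num
  · show ((g 0 0 : ℤ) * g 1 1 - g 0 1 * g 1 0) ^ 2 = 1
    rw [h]; norm_num

/-- the point of the hyperbolic plane -/
noncomputable def pt (g : blockGL2) : Sy where
  p := (g.1 0 0 : ℝ) ^ 2 + (g.1 0 1 : ℝ) ^ 2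
  q := (g.1 0 0 : ℝ) * g.1 1 0 + (g.1 0 1 : ℝ) * g.1 1 1
  r := (g.1 1 0 : ℝ) ^ 2 + (g.1 1 1 : ℝ) ^ 2
  hp := by
    have h : (((g.1 0 0 : ℤ) : ℝ) * (g.1 1 1 : ℤ) - (g.1 0 1 : ℤ) * (g.1 1 0 : ℤ)) ^ 2 = 1 := by
      exact_mod_cast det_sq g
    by_contra hn
    have h0 : ((g.1 0 0 : ℤ) : ℝ) = 0 := by nlinarith [sq_nonneg ((g.1 0 0 : ℤ) : ℝ), sq_nonneg ((g.1 0 1 : ℤ) : ℝ)]
    have h1 : ((g.1 0 1 : ℤ) : ℝ) = 0 := by nlinarith [sq_nonneg ((g.1 0 0 : ℤ) : ℝ), sq_nonneg ((g.1 0 1 : ℤ) : ℝ)]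
    rw [h0, h1] at h
    norm_num at h
  hr := by
    have h : (((g.1 0 0 : ℤ) : ℝ) * (g.1 1 1 : ℤ) - (g.1 0 1 : ℤ) * (g.1 1 0 : ℤ)) ^ 2 = 1 := by
      exact_mod_cast det_sq g
    by_contra hn
    have h0 : ((g.1 1 0 : ℤ) : ℝ) = 0 := by nlinarith [sq_nonneg ((g.1 1 0 : ℤ) : ℝ), sq_nonneg ((g.1 1 1 : ℤ) : ℝ)]
    have h1 : ((g.1 1 1 : ℤ) : ℝ) = 0 := by nlinarith [sq_nonneg ((g.1 1 0 : ℤ) : ℝ), sq_nonneg ((g.1 1 1 : ℤ) : ℝ)]
    rw [h0, h1] at h
    norm_num at h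
  hd := by
    have h : (((g.1 0 0 : ℤ) : ℝ) * (g.1 1 1 : ℤ) - (g.1 0 1 : ℤ) * (g.1 1 0 : ℤ)) ^ 2 = 1 := by
      exact_mod_cast det_sq g
    nlinarith

/-- half of the squared Hilbert-Schmidt norm of the block -/
noncomputable def hs (g : blockGL2) : ℝ :=
  ((g.1 0 0 : ℝ) ^ 2 + (g.1 0 1 : ℝ) ^ 2 + (g.1 1 0 : ℝ) ^ 2 + (g.1 1 1 : ℝ) ^ 2) / 2

lemma hs_inv_mul (g k : blockGL2) : hs (g⁻¹ * k) = B (pt g) (pt k) := by
  obtain ⟨g, g1, g2, g3, g4⟩ := g
  obtain ⟨k, k1, k2, k3, k4⟩ := k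
  have hd := det_sq ⟨g, g1, g2, g3, g4⟩
  have g1' : g.1 0 2 = 0 := g1
  have g2' : g.1 1 2 = 0 := g2
  have g3' : g.1 2 0 = 0 := g3
  have g4' : g.1 2 1 = 0 := g4
  have k1' : k.1 0 2 = 0 := k1
  have k2' : k.1 1 2 = 0 := k2
  have k3' : k.1 2 0 = 0 := k3
  have k4' : k.1 2 1 = 0 := k4
  have hdet := g.2
  rw [Matrix.det_fin_three, g1', g2', g3', g4'] at hdet
  have hz : g.1 2 2 ^ 2 = 1 := by
    have e : g.1 2 2 * (g.1 0 0 * g.1 1 1 - g.1 0 1 * g.1 1 0) = 1 := by linarith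
    rcases Int.isUnit_iff.1 (IsUnit.of_mul_eq_one _ e) with h | h <;> rw [h] <;> norm_num
  have hzr : ((g.1 2 2 : ℤ) : ℝ) ^ 2 = 1 := by exact_mod_cast hz
  have m00 : (g⁻¹ * k).1 0 0 = g.1 2 2 * (g.1 1 1 * k.1 0 0 - g.1 0 1 * k.1 1 0) := by
    simp only [Matrix.SpecialLinearGroup.coe_mul, Matrix.SpecialLinearGroup.coe_inv,
      Matrix.mul_apply, Fin.sum_univ_three, Matrix.adjugate_fin_three]
    simp [g1', g2', g3', g4', k1', k2', k3', k4']
    ring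
  have m01 : (g⁻¹ * k).1 0 1 = g.1 2 2 * (g.1 1 1 * k.1 0 1 - g.1 0 1 * k.1 1 1) := by
    simp only [Matrix.SpecialLinearGroup.coe_mul, Matrix.SpecialLinearGroup.coe_inv,
      Matrix.mul_apply, Fin.sum_univ_three, Matrix.adjugate_fin_three]
    simp [g1', g2', g3', g4', k1', k2', k3', k4']
    ring
  have m10 : (g⁻¹ * k).1 1 0 = g.1 2 2 * (-g.1 1 0 * k.1 0 0 + g.1 0 0 * k.1 1 0) := by
    simp only [Matrix.SpecialLinearGroup.coe_mul, Matrix.SpecialLinearGroup.coe_inv,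
      Matrix.mul_apply, Fin.sum_univ_three, Matrix.adjugate_fin_three]
    simp [g1', g2', g3', g4', k1', k2', k3', k4']
    ring
  have m11 : (g⁻¹ * k).1 1 1 = g.1 2 2 * (-g.1 1 0 * k.1 0 1 + g.1 0 0 * k.1 1 1) := by
    simp only [Matrix.SpecialLinearGroup.coe_mul, Matrix.SpecialLinearGroup.coe_inv,
      Matrix.mul_apply, Fin.sum_univ_three, Matrix.adjugate_fin_three]
    simp [g1', g2', g3', g4', k1', k2', k3', k4']
    ring
  show ((((g⁻¹ * k).1 0 0 : ℤ) : ℝ) ^ 2 + (((g⁻¹ * k).1 0 1 : ℤ) : ℝ) ^ 2 +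
    (((g⁻¹ * k).1 1 0 : ℤ) : ℝ) ^ 2 + (((g⁻¹ * k).1 1 1 : ℤ) : ℝ) ^ 2) / 2 = B (pt _) (pt _)
  rw [m00, m01, m10, m11]
  push_cast
  simp only [mul_pow, hzr, one_mul]
  simp only [B, pt]
  have c : ∀ i j, ((g : Matrix (Fin 3) (Fin 3) ℤ) i j) = g.1 i j := fun _ _ => rfl
  ring

end Pool.Agent.Helper42.Haag.G

namespace Pool.Agent.Helper42.Haag

open G

theorem haagerup_blockGL2 : Haagerup blockGL2 := by
  refine ⟨fun g => Real.log (hs g), ⟨?_, ?_, ?_⟩, ?_⟩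
  · have : hs 1 = 1 := by simp [hs]
    rw [this, Real.log_one]
  · intro g
    have h1 := hs_inv_mul g 1
    have h2 := hs_inv_mul 1 g
    simp only [mul_one, inv_one, one_mul] at h1 h2
    rw [h1, h2]
    congr 1
    simp only [B]
    ring
  · intro s c hc
    simp only [hs_inv_mul]
    exact log_B_cnd s c pt hc
  · intro C
    obtain ⟨M, hM⟩ := exists_nat_gt (2 * Real.exp C)
    have hfin : (Set.pi Set.univ (fun _ : Fin 3 × Fin 3 => Set.Icc (-(M : ℤ)) M)).Finite :=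
      Set.Finite.pi fun _ => Set.finite_Icc _ _
    refine Set.Finite.subset (hfin.preimage
      (f := fun g : blockGL2 => fun ij : Fin 3 × Fin 3 => g.1 ij.1 ij.2) ?_) ?_
    · intro a _ b _ hab
      apply Subtype.ext
      apply Matrix.SpecialLinearGroup.ext
      intro i j
      exact congrFun hab (i, j)
    · intro g hg
      have hpos : 0 < hs g := by
        have := hs_inv_mul 1 g
        simp only [inv_one, one_mul] at this
        rw [this, B_eq]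
        have h3 : 0 < 1 - (u1 (pt 1) * u1 (pt g) + u2 (pt 1) * u2 (pt g)) := by
          have := (_root_.abs_lt.1 (G.abs_lt (pt 1) (pt g))).2; linarith
        have := x0_pos (pt 1)
        have := x0_pos (pt g)
        positivity
      have hle : hs g ≤ Real.exp C := by
        have : Real.log (hs g) ≤ C := hg
        exact (Real.log_le_iff_le_exp hpos).1 this
      have hM' : ((g.1 0 0 : ℤ) : ℝ) ^ 2 + ((g.1 0 1 : ℤ) : ℝ) ^ 2 + ((g.1 1 0 : ℤ) : ℝ) ^ 2 +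
          ((g.1 1 1 : ℤ) : ℝ) ^ 2 < M := by
        have : hs g = (((g.1 0 0 : ℤ) : ℝ) ^ 2 + ((g.1 0 1 : ℤ) : ℝ) ^ 2 + ((g.1 1 0 : ℤ) : ℝ) ^ 2 +
          ((g.1 1 1 : ℤ) : ℝ) ^ 2) / 2 := rfl
        linarith
      have hM2 : (g.1 0 0 : ℤ) ^ 2 + (g.1 0 1 : ℤ) ^ 2 + (g.1 1 0 : ℤ) ^ 2 +
          (g.1 1 1 : ℤ) ^ 2 < M := by exact_mod_cast hM'
      have hsq : ∀ a : ℤ, a ^ 2 < M → a ∈ Set.Icc (-(M : ℤ)) M := by
        intro a ha
        constructor <;> nlinarith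
      obtain ⟨g1, g2, g3, g4⟩ := g.2
      have hdet := det_sq g
      have hd := g.1.2
      have g1' : g.1.1 0 2 = 0 := g1
      have g2' : g.1.1 1 2 = 0 := g2
      have g3' : g.1.1 2 0 = 0 := g3
      have g4' : g.1.1 2 1 = 0 := g4
      have hMpos : (1 : ℤ) ≤ M := by
        have : (0 : ℤ) < M := lt_of_le_of_lt (by positivity) hM2
        omega
      have h22 : g.1.1 2 2 = 1 ∨ g.1.1 2 2 = -1 := by
        rw [Matrix.det_fin_three, g1', g2', g3', g4'] at hd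
        have e : g.1.1 2 2 * (g.1.1 0 0 * g.1.1 1 1 - g.1.1 0 1 * g.1.1 1 0) = 1 := by linarith
        exact Int.isUnit_iff.1 (IsUnit.of_mul_eq_one _ e)
      intro ij _
      obtain ⟨i, j⟩ := ij
      have z0 : (0 : ℤ) ∈ Set.Icc (-(M : ℤ)) M := by constructor <;> omega
      fin_cases i <;> fin_cases j
      · show g.1.1 0 0 ∈ _
        exact hsq _ (by nlinarith [sq_nonneg (g.1.1 0 1), sq_nonneg (g.1.1 1 0), sq_nonneg (g.1.1 1 1)])
      · show g.1.1 0 1 ∈ _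
        exact hsq _ (by nlinarith [sq_nonneg (g.1.1 0 0), sq_nonneg (g.1.1 1 0), sq_nonneg (g.1.1 1 1)])
      · show g.1.1 0 2 ∈ _; rw [g1']; exact z0
      · show g.1.1 1 0 ∈ _
        exact hsq _ (by nlinarith [sq_nonneg (g.1.1 0 1), sq_nonneg (g.1.1 0 0), sq_nonneg (g.1.1 1 1)])
      · show g.1.1 1 1 ∈ _
        exact hsq _ (by nlinarith [sq_nonneg (g.1.1 0 1), sq_nonneg (g.1.1 1 0), sq_nonneg (g.1.1 0 0)])
      · show g.1.1 1 2 ∈ _; rw [g2']; exact z0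
      · show g.1.1 2 0 ∈ _; rw [g3']; exact z0
      · show g.1.1 2 1 ∈ _; rw [g4']; exact z0
      · show g.1.1 2 2 ∈ _
        rcases h22 with h | h <;> rw [h] <;> constructor <;> omega

end Pool.Agent.Helper42.Haag
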