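import Pool.Agent.Helper42.Haag.Defs
import Pool.Agent.Helper42.Haag.Defs2
import Pool.Agent.Helper42.Haag.G
import Pool.Agent.Helper42.Haag.Pair

set_option autoImplicit false

namespace Pool.Agent.Helper42.Haag

open Matrix

namespace G2

/-- half of the squared Hilbert-Schmidt norm -/
noncomputable def hsn (A : Matrix (Fin 2) (Fin 2) ℝ) : ℝ :=
  (A 0 0 ^ 2 + A 0 1 ^ 2 + A 1 0 ^ 2 + A 1 1 ^ 2) / 2

/-- the point of the hyperbolic plane of a matrix of determinant `±1` -/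
noncomputable def ptA (A : Matrix (Fin 2) (Fin 2) ℝ) (h : A.det ^ 2 = 1) : G.Sy where
  p := A 0 0 ^ 2 + A 0 1 ^ 2
  q := A 0 0 * A 1 0 + A 0 1 * A 1 1
  r := A 1 0 ^ 2 + A 1 1 ^ 2
  hp := by
    rw [Matrix.det_fin_two] at h
    by_contra hn
    have h0 : A 0 0 = 0 := by nlinarith [sq_nonneg (A 0 0), sq_nonneg (A 0 1)]
    have h1 : A 0 1 = 0 := by nlinarith [sq_nonneg (A 0 0), sq_nonneg (A 0 1)]
    rw [h0, h1] at h
    norm_num at h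
  hr := by
    rw [Matrix.det_fin_two] at h
    by_contra hn
    have h0 : A 1 0 = 0 := by nlinarith [sq_nonneg (A 1 0), sq_nonneg (A 1 1)]
    have h1 : A 1 1 = 0 := by nlinarith [sq_nonneg (A 1 0), sq_nonneg (A 1 1)]
    rw [h0, h1] at h
    norm_num at h
  hd := by
    rw [Matrix.det_fin_two] at h
    nlinarith

lemma hsn_inv_mul (A A' B : Matrix (Fin 2) (Fin 2) ℝ) (hA : A.det ^ 2 = 1) (hB : B.det ^ 2 = 1)
    (h : A' * A = 1) : hsn (A' * B) = G.B (ptA A hA) (ptA B hB) := by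
  have h2 : A * A' = 1 := mul_eq_one_comm.1 h
  have hadj : A' = A.det • A.adjugate := by
    have e1 : A * (A.det • A.adjugate) = 1 := by
      rw [Matrix.mul_smul, Matrix.mul_adjugate, smul_smul, ← sq, hA, one_smul]
    calc A' = A' * (A * (A.det • A.adjugate)) := by rw [e1, mul_one]
      _ = _ := by rw [← mul_assoc, h, one_mul]
  rw [hadj, Matrix.smul_mul]
  unfold hsn
  simp only [Matrix.smul_apply, smul_eq_mul, mul_pow, hA, one_mul]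
  rw [Matrix.adjugate_fin_two]
  simp only [G.B, ptA, Matrix.mul_apply, Fin.sum_univ_two]
  simp
  ring

theorem haagerup_of_rep {G : Type*} [Group G] (ρ : G →* Matrix (Fin 2) (Fin 2) ℝ)
    (hdet : ∀ g, (ρ g).det ^ 2 = 1) (hfin : ∀ C : ℝ, {g | hsn (ρ g) ≤ C}.Finite) :
    Haagerup G := by
  have key : ∀ g k : G, hsn (ρ (g⁻¹ * k)) =
      Haag.G.B (ptA (ρ g) (hdet g)) (ptA (ρ k) (hdet k)) := by
    intro g k
    rw [map_mul]
    exact hsn_inv_mul _ _ _ _ _ (by rw [← map_mul, inv_mul_cancel, map_one])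
  have hpos : ∀ g, 0 < hsn (ρ g) := by
    intro g
    have := key 1 g
    rw [inv_one, one_mul] at this
    rw [this, Haag.G.B_eq]
    have h3 := (_root_.abs_lt.1 (Haag.G.abs_lt (ptA (ρ 1) (hdet 1)) (ptA (ρ g) (hdet g)))).2
    have := Haag.G.x0_pos (ptA (ρ 1) (hdet 1))
    have := Haag.G.x0_pos (ptA (ρ g) (hdet g))
    have h4 : 0 < 1 - (Haag.G.u1 (ptA (ρ 1) (hdet 1)) * Haag.G.u1 (ptA (ρ g) (hdet g)) +
      Haag.G.u2 (ptA (ρ 1) (hdet 1)) * Haag.G.u2 (ptA (ρ g) (hdet g))) := by linarith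
    positivity
  refine ⟨fun g => Real.log (hsn (ρ g)), ⟨?_, ?_, ?_⟩, ?_⟩
  · have : hsn (ρ 1) = 1 := by simp [hsn]
    rw [this, Real.log_one]
  · intro g
    have h1 := key g 1
    have h2 := key 1 g
    simp only [mul_one, inv_one, one_mul] at h1 h2
    rw [h1, h2]
    congr 1
    simp only [Haag.G.B]
    ring
  · intro s c hc
    simp only [key]
    exact Haag.G.log_B_cnd s c (fun g => ptA (ρ g) (hdet g)) hc
  · intro C
    refine (hfin (Real.exp C)).subset fun g hg => ?_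
    have : Real.log (hsn (ρ g)) ≤ C := hg
    exact (Real.log_le_iff_le_exp (hpos g)).1 this

/-- a rational basis of the plane `ker lam` -/
lemma exists_basis (lam : Fin 3 → ℤ) (h : lam ≠ 0) :
    ∃ (p q : Fin 3 → ℤ) (k : ℤ), k ≠ 0 ∧ cr p q = k • lam := by
  obtain ⟨i, hi⟩ : ∃ i, lam i ≠ 0 := by
    by_contra h'
    push Not at h'
    exact h (funext h')
  fin_cases i
  · refine ⟨![-lam 1, lam 0, 0], ![-lam 2, 0, lam 0], lam 0, hi, ?_⟩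
    ext j; fin_cases j <;> simp [cr] <;> ring
  · refine ⟨![lam 1, -lam 0, 0], ![0, -lam 2, lam 1], -lam 1, neg_ne_zero.2 hi, ?_⟩
    ext j; fin_cases j <;> simp [cr] <;> ring
  · refine ⟨![lam 2, 0, -lam 0], ![0, lam 2, -lam 1], lam 2, hi, ?_⟩
    ext j; fin_cases j <;> simp [cr] <;> ring

lemma cr0 (a b : Fin 3 → ℤ) : cr a b 0 = a 1 * b 2 - a 2 * b 1 := rfl
lemma cr1 (a b : Fin 3 → ℤ) : cr a b 1 = a 2 * b 0 - a 0 * b 2 := rfl
lemma cr2 (a b : Fin 3 → ℤ) : cr a b 2 = a 0 * b 1 - a 1 * b 0 := rfl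

lemma cramer (p q mu x : Fin 3 → ℤ) (h : cr p q ⬝ᵥ x = 0) :
    (cr p q ⬝ᵥ mu) • x = (cr q mu ⬝ᵥ x) • p + (cr mu p ⬝ᵥ x) • q := by
  simp only [dot3, cr0, cr1, cr2] at h ⊢
  ext j
  simp only [Pi.add_apply, Pi.smul_apply, smul_eq_mul]
  fin_cases j
  · show _ * x 0 = _ * p 0 + _ * q 0
    linear_combination mu 0 * h
  · show _ * x 1 = _ * p 1 + _ * q 1
    linear_combination mu 1 * h
  · show _ * x 2 = _ * p 2 + _ * q 2
    linear_combination mu 2 * h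

lemma cramer_full (p q mu x : Fin 3 → ℤ) :
    (cr p q ⬝ᵥ mu) • x = (cr q mu ⬝ᵥ x) • p + (cr mu p ⬝ᵥ x) • q + (cr p q ⬝ᵥ x) • mu := by
  simp only [dot3, cr0, cr1, cr2]
  ext j
  simp only [Pi.add_apply, Pi.smul_apply, smul_eq_mul]
  fin_cases j
  · show _ * x 0 = _ * p 0 + _ * q 0 + _ * mu 0
    ring
  · show _ * x 1 = _ * p 1 + _ * q 1 + _ * mu 1
    ring
  · show _ * x 2 = _ * p 2 + _ * q 2 + _ * mu 2
    ring

/-- the integral representation matrix -/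
def Nm (p q mu : Fin 3 → ℤ) (g : SL3) : Matrix (Fin 2) (Fin 2) ℤ :=
  !![cr q mu ⬝ᵥ (g.1 *ᵥ p), cr q mu ⬝ᵥ (g.1 *ᵥ q); cr mu p ⬝ᵥ (g.1 *ᵥ p), cr mu p ⬝ᵥ (g.1 *ᵥ q)]

lemma Nm_mul {lam p q mu : Fin 3 → ℤ} {k : ℤ} (hpq : cr p q = k • lam)
    (g h : SL3) (hh : h ∈ pairStab lam mu) :
    (cr p q ⬝ᵥ mu) • Nm p q mu (g * h) = Nm p q mu g * Nm p q mu h := by
  have hker : ∀ x, cr p q ⬝ᵥ x = 0 → cr p q ⬝ᵥ (h.1 *ᵥ x) = 0 := by
    intro x hx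
    rw [Matrix.dotProduct_mulVec, hpq, Matrix.smul_vecMul]
    rw [hpq] at hx
    rcases hh.1 with h1 | h1
    · rw [h1, hx]
    · rw [h1, smul_neg, neg_dotProduct, hx, neg_zero]
  have hp : cr p q ⬝ᵥ p = 0 := by rw [dot3]; simp [cr]; ring
  have hq : cr p q ⬝ᵥ q = 0 := by rw [dot3]; simp [cr]; ring
  have hx : ∀ (n x : Fin 3 → ℤ), cr p q ⬝ᵥ x = 0 →
      (cr p q ⬝ᵥ mu) * (n ⬝ᵥ ((g * h).1 *ᵥ x)) =
      (n ⬝ᵥ (g.1 *ᵥ p)) * (cr q mu ⬝ᵥ (h.1 *ᵥ x)) + (n ⬝ᵥ (g.1 *ᵥ q)) * (cr mu p ⬝ᵥ (h.1 *ᵥ x)) := by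
    intro n x hx
    have e1 : (g * h).1 *ᵥ x = g.1 *ᵥ (h.1 *ᵥ x) := by
      rw [Matrix.mulVec_mulVec]; rfl
    rw [e1, ← smul_eq_mul, ← dotProduct_smul, ← Matrix.mulVec_smul, cramer p q mu _ (hker x hx),
      Matrix.mulVec_add, Matrix.mulVec_smul, Matrix.mulVec_smul, dotProduct_add, dotProduct_smul,
      dotProduct_smul]
    simp only [smul_eq_mul]
    ring
  ext i j
  fin_cases i <;> fin_cases j
  · simpa [Nm, Matrix.mul_apply, Fin.sum_univ_two] using hx (cr q mu) p hp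
  · simpa [Nm, Matrix.mul_apply, Fin.sum_univ_two] using hx (cr q mu) q hq
  · simpa [Nm, Matrix.mul_apply, Fin.sum_univ_two] using hx (cr mu p) p hp
  · simpa [Nm, Matrix.mul_apply, Fin.sum_univ_two] using hx (cr mu p) q hq

lemma Nm_det {lam p q mu : Fin 3 → ℤ} {k : ℤ} (hpq : cr p q = k • lam)
    (g : SL3) (hg : g ∈ pairStab lam mu) :
    (Nm p q mu g).det ^ 2 = (cr p q ⬝ᵥ mu) ^ 4 := by
  have e1 : (Nm p q mu g).det = (cr p q ⬝ᵥ mu) * (cr (g.1 *ᵥ p) (g.1 *ᵥ q) ⬝ᵥ mu) := by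
    rw [Matrix.det_fin_two]
    simp only [Nm, Matrix.of_apply, Matrix.cons_val', Matrix.cons_val_zero, Matrix.cons_val_one,
      Matrix.cons_val_fin_one]
    rw [dot3, dot3, dot3, dot3, dot3, dot3]
    simp only [cr, Matrix.cons_val_zero, Matrix.cons_val_one, Matrix.cons_val]
    ring
  have hinv := (pairStab lam mu).inv_mem hg
  have e2 : (cr (g.1 *ᵥ p) (g.1 *ᵥ q) ⬝ᵥ mu) ^ 2 = (cr p q ⬝ᵥ mu) ^ 2 := by
    rw [← cr_conj, hpq, Matrix.smul_vecMul]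
    rcases hinv.1 with h1 | h1
    · rw [h1]
    · rw [h1, smul_neg, neg_dotProduct]; ring
  rw [e1, mul_pow, e2]
  ring

lemma Nm_one (p q mu : Fin 3 → ℤ) : Nm p q mu 1 = (cr p q ⬝ᵥ mu) • 1 := by
  have e : ∀ x : Fin 3 → ℤ, (1 : SL3).1 *ᵥ x = x := fun x => Matrix.one_mulVec x
  unfold Nm
  rw [e, e]
  simp only [dot3, cr0, cr1, cr2]
  ext i j
  rw [Matrix.smul_apply, smul_eq_mul]
  fin_cases i <;> fin_cases j
  · show _ = _ * (1 : Matrix (Fin 2) (Fin 2) ℤ) 0 0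
    rw [Matrix.one_apply_eq]
    show (q 1 * mu 2 - q 2 * mu 1) * p 0 + (q 2 * mu 0 - q 0 * mu 2) * p 1 +
      (q 0 * mu 1 - q 1 * mu 0) * p 2 = _
    ring
  · show _ = _ * (1 : Matrix (Fin 2) (Fin 2) ℤ) 0 1
    rw [Matrix.one_apply_ne (by decide)]
    show (q 1 * mu 2 - q 2 * mu 1) * q 0 + (q 2 * mu 0 - q 0 * mu 2) * q 1 +
      (q 0 * mu 1 - q 1 * mu 0) * q 2 = _
    ring
  · show _ = _ * (1 : Matrix (Fin 2) (Fin 2) ℤ) 1 0
    rw [Matrix.one_apply_ne (by decide)]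
    show (mu 1 * p 2 - mu 2 * p 1) * p 0 + (mu 2 * p 0 - mu 0 * p 2) * p 1 +
      (mu 0 * p 1 - mu 1 * p 0) * p 2 = _
    ring
  · show _ = _ * (1 : Matrix (Fin 2) (Fin 2) ℤ) 1 1
    rw [Matrix.one_apply_eq]
    show (mu 1 * p 2 - mu 2 * p 1) * q 0 + (mu 2 * p 0 - mu 0 * p 2) * q 1 +
      (mu 0 * p 1 - mu 1 * p 0) * q 2 = _
    ring

lemma Nm_inj {lam p q mu : Fin 3 → ℤ} {k : ℤ} (hpq : cr p q = k • lam)
    (h0 : cr p q ⬝ᵥ mu ≠ 0) (g h : SL3) (hg : g ∈ pairStab lam mu) (hh : h ∈ pairStab lam mu)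
    (hN : Nm p q mu g = Nm p q mu h) (hmu : g.1 *ᵥ mu = h.1 *ᵥ mu) : g = h := by
  have hker : ∀ (g : SL3), g ∈ pairStab lam mu → ∀ x, cr p q ⬝ᵥ x = 0 →
      cr p q ⬝ᵥ (g.1 *ᵥ x) = 0 := by
    intro h hh x hx
    rw [Matrix.dotProduct_mulVec, hpq, Matrix.smul_vecMul]
    rw [hpq] at hx
    rcases hh.1 with h1 | h1
    · rw [h1, hx]
    · rw [h1, smul_neg, neg_dotProduct, hx, neg_zero]
  have hp : cr p q ⬝ᵥ p = 0 := by rw [dot3]; simp [cr]; ring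
  have hq : cr p q ⬝ᵥ q = 0 := by rw [dot3]; simp [cr]; ring
  have n00 : cr q mu ⬝ᵥ (g.1 *ᵥ p) = cr q mu ⬝ᵥ (h.1 *ᵥ p) := congrFun (congrFun hN 0) 0
  have n01 : cr q mu ⬝ᵥ (g.1 *ᵥ q) = cr q mu ⬝ᵥ (h.1 *ᵥ q) := congrFun (congrFun hN 0) 1
  have n10 : cr mu p ⬝ᵥ (g.1 *ᵥ p) = cr mu p ⬝ᵥ (h.1 *ᵥ p) := congrFun (congrFun hN 1) 0
  have n11 : cr mu p ⬝ᵥ (g.1 *ᵥ q) = cr mu p ⬝ᵥ (h.1 *ᵥ q) := congrFun (congrFun hN 1) 1
  have ep : g.1 *ᵥ p = h.1 *ᵥ p := by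
    apply smul_right_injective _ h0
    show (cr p q ⬝ᵥ mu) • _ = (cr p q ⬝ᵥ mu) • _
    rw [cramer p q mu _ (hker g hg p hp), cramer p q mu _ (hker h hh p hp), n00, n10]
  have eq : g.1 *ᵥ q = h.1 *ᵥ q := by
    apply smul_right_injective _ h0
    show (cr p q ⬝ᵥ mu) • _ = (cr p q ⬝ᵥ mu) • _
    rw [cramer p q mu _ (hker g hg q hq), cramer p q mu _ (hker h hh q hq), n01, n11]
  have ex : ∀ x, g.1 *ᵥ x = h.1 *ᵥ x := by
    intro x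
    apply smul_right_injective _ h0
    show (cr p q ⬝ᵥ mu) • _ = (cr p q ⬝ᵥ mu) • _
    rw [← Matrix.mulVec_smul, ← Matrix.mulVec_smul, cramer_full p q mu x]
    simp only [Matrix.mulVec_add, Matrix.mulVec_smul, ep, eq, hmu]
  apply Subtype.ext
  exact Matrix.ext_of_mulVec_single fun i => ex _

end G2

open G2

theorem haagerup_pairStab (lam mu : Fin 3 → ℤ) (h : lam ⬝ᵥ mu ≠ 0) :
    Haagerup (pairStab lam mu) := by
  have hlam : lam ≠ 0 := by rintro rfl; simp at h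
  obtain ⟨p, q, k, hk, hpq⟩ := exists_basis lam hlam
  set D : ℤ := cr p q ⬝ᵥ mu with hD
  have hD0 : D ≠ 0 := by
    rw [hD, hpq, smul_dotProduct]
    exact mul_ne_zero hk h
  have hDr : (D : ℝ) ≠ 0 := by exact_mod_cast hD0
  let ρ : pairStab lam mu →* Matrix (Fin 2) (Fin 2) ℝ :=
    { toFun := fun g => (D : ℝ)⁻¹ • (Nm p q mu g.1).map (Int.cast : ℤ → ℝ)
      map_one' := by
        show (D : ℝ)⁻¹ • (Nm p q mu 1).map (Int.cast : ℤ → ℝ) = 1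
        rw [Nm_one, ← hD]
        ext i j
        show (D : ℝ)⁻¹ * (((D • (1 : Matrix (Fin 2) (Fin 2) ℤ)) i j : ℤ) : ℝ) =
          (1 : Matrix (Fin 2) (Fin 2) ℝ) i j
        rw [Matrix.smul_apply, smul_eq_mul, Int.cast_mul, ← mul_assoc, inv_mul_cancel₀ hDr, one_mul,
          Matrix.one_apply, Matrix.one_apply]
        split_ifs <;> simp
      map_mul' := by
        intro g k
        have e := Nm_mul hpq g.1 k.1 k.2
        rw [← hD] at e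
        ext i j
        have eij := congrFun (congrFun e i) j
        rw [Matrix.smul_apply, Matrix.mul_apply, Fin.sum_univ_two, smul_eq_mul] at eij
        have eR : (D : ℝ) * ((Nm p q mu (g.1 * k.1) i j : ℤ) : ℝ) =
            ((Nm p q mu g.1 i 0 : ℤ) : ℝ) * ((Nm p q mu k.1 0 j : ℤ) : ℝ) +
            ((Nm p q mu g.1 i 1 : ℤ) : ℝ) * ((Nm p q mu k.1 1 j : ℤ) : ℝ) := by
          exact_mod_cast eij
        rw [Matrix.mul_apply, Fin.sum_univ_two]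
        show (D : ℝ)⁻¹ * ((Nm p q mu (g.1 * k.1) i j : ℤ) : ℝ) =
          (D : ℝ)⁻¹ * ((Nm p q mu g.1 i 0 : ℤ) : ℝ) * ((D : ℝ)⁻¹ * ((Nm p q mu k.1 0 j : ℤ) : ℝ)) +
          (D : ℝ)⁻¹ * ((Nm p q mu g.1 i 1 : ℤ) : ℝ) * ((D : ℝ)⁻¹ * ((Nm p q mu k.1 1 j : ℤ) : ℝ))
        have : ((Nm p q mu (g.1 * k.1) i j : ℤ) : ℝ) = (D : ℝ)⁻¹ *
            (((Nm p q mu g.1 i 0 : ℤ) : ℝ) * ((Nm p q mu k.1 0 j : ℤ) : ℝ) +
            ((Nm p q mu g.1 i 1 : ℤ) : ℝ) * ((Nm p q mu k.1 1 j : ℤ) : ℝ)) := by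
          rw [← eR, ← mul_assoc, inv_mul_cancel₀ hDr, one_mul]
        rw [this]
        ring }
  have hρ : ∀ g i j, ρ g i j = (D : ℝ)⁻¹ * ((Nm p q mu g.1 i j : ℤ) : ℝ) := fun g i j => rfl
  refine haagerup_of_rep ρ ?_ ?_
  · intro g
    have h1 := Nm_det hpq g.1 g.2
    rw [← hD] at h1
    have h2 : (((Nm p q mu g.1).det : ℤ) : ℝ) ^ 2 = (D : ℝ) ^ 4 := by exact_mod_cast h1
    rw [Matrix.det_fin_two] at h2 ⊢
    push_cast at h2
    simp only [hρ]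
    have : ((D : ℝ)⁻¹ * ((Nm p q mu g.1 0 0 : ℤ) : ℝ) * ((D : ℝ)⁻¹ * ((Nm p q mu g.1 1 1 : ℤ) : ℝ)) -
        (D : ℝ)⁻¹ * ((Nm p q mu g.1 0 1 : ℤ) : ℝ) * ((D : ℝ)⁻¹ * ((Nm p q mu g.1 1 0 : ℤ) : ℝ))) ^ 2 =
        ((D : ℝ)⁻¹) ^ 4 * (((Nm p q mu g.1 0 0 : ℤ) : ℝ) * ((Nm p q mu g.1 1 1 : ℤ) : ℝ) -
          ((Nm p q mu g.1 0 1 : ℤ) : ℝ) * ((Nm p q mu g.1 1 0 : ℤ) : ℝ)) ^ 2 := by ring
    rw [this, h2, ← mul_pow, inv_mul_cancel₀ hDr, one_pow]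
  · intro C
    obtain ⟨M, hM⟩ := exists_nat_gt (2 * C * (D : ℝ) ^ 2)
    let Φ : pairStab lam mu → (Matrix (Fin 2) (Fin 2) ℤ) × (Fin 3 → ℤ) :=
      fun g => (Nm p q mu g.1, g.1.1 *ᵥ mu)
    have hinj : Function.Injective Φ := by
      intro g g' hgg
      apply Subtype.ext
      exact Nm_inj hpq (by rw [← hD]; exact hD0) g.1 g'.1 g.2 g'.2 (congrArg Prod.fst hgg)
        (congrArg Prod.snd hgg)
    have hfin : ({A : Matrix (Fin 2) (Fin 2) ℤ | ∀ i j, A i j ∈ Set.Icc (-(M : ℤ)) M} ×ˢ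
        ({mu, -mu} : Set (Fin 3 → ℤ))).Finite := by
      refine Set.Finite.prod ?_ (Set.toFinite _)
      have : {A : Matrix (Fin 2) (Fin 2) ℤ | ∀ i j, A i j ∈ Set.Icc (-(M : ℤ)) M} =
          Set.pi Set.univ (fun _ => Set.pi Set.univ (fun _ => Set.Icc (-(M : ℤ)) M)) := by
        ext A
        constructor
        · intro hA i _ j _
          exact hA i j
        · intro hA i j
          exact hA i (Set.mem_univ _) j (Set.mem_univ _)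
      rw [this]
      exact Set.Finite.pi fun _ => Set.Finite.pi fun _ => Set.finite_Icc _ _
    refine (hfin.preimage hinj.injOn).subset fun g hg => ?_
    have hg' : hsn (ρ g) ≤ C := hg
    refine ⟨?_, ?_⟩
    · have hs : ((Nm p q mu g.1 0 0 : ℤ) : ℝ) ^ 2 + ((Nm p q mu g.1 0 1 : ℤ) : ℝ) ^ 2 +
          ((Nm p q mu g.1 1 0 : ℤ) : ℝ) ^ 2 + ((Nm p q mu g.1 1 1 : ℤ) : ℝ) ^ 2 < M := by
        unfold hsn at hg'
        simp only [hρ] at hg'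
        have e : (((D : ℝ)⁻¹ * ((Nm p q mu g.1 0 0 : ℤ) : ℝ)) ^ 2 +
            ((D : ℝ)⁻¹ * ((Nm p q mu g.1 0 1 : ℤ) : ℝ)) ^ 2 +
            ((D : ℝ)⁻¹ * ((Nm p q mu g.1 1 0 : ℤ) : ℝ)) ^ 2 +
            ((D : ℝ)⁻¹ * ((Nm p q mu g.1 1 1 : ℤ) : ℝ)) ^ 2) / 2 * (2 * (D : ℝ) ^ 2) =
            ((Nm p q mu g.1 0 0 : ℤ) : ℝ) ^ 2 + ((Nm p q mu g.1 0 1 : ℤ) : ℝ) ^ 2 +
            ((Nm p q mu g.1 1 0 : ℤ) : ℝ) ^ 2 + ((Nm p q mu g.1 1 1 : ℤ) : ℝ) ^ 2 := by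
          field_simp
        rw [← e]
        have h2 : 0 < 2 * (D : ℝ) ^ 2 := by positivity
        nlinarith
      have hsz : (Nm p q mu g.1 0 0) ^ 2 + (Nm p q mu g.1 0 1) ^ 2 +
          (Nm p q mu g.1 1 0) ^ 2 + (Nm p q mu g.1 1 1) ^ 2 < (M : ℤ) := by exact_mod_cast hs
      have hsq : ∀ a : ℤ, a ^ 2 < M → a ∈ Set.Icc (-(M : ℤ)) M := by
        intro a ha
        constructor <;> nlinarith
      intro i j
      show Nm p q mu g.1 i j ∈ _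
      apply hsq
      have s00 := sq_nonneg (Nm p q mu g.1 0 0)
      have s01 := sq_nonneg (Nm p q mu g.1 0 1)
      have s10 := sq_nonneg (Nm p q mu g.1 1 0)
      have s11 := sq_nonneg (Nm p q mu g.1 1 1)
      fin_cases i <;> fin_cases j
      · show Nm p q mu g.1 0 0 ^ 2 < _; linarith
      · show Nm p q mu g.1 0 1 ^ 2 < _; linarith
      · show Nm p q mu g.1 1 0 ^ 2 < _; linarith
      · show Nm p q mu g.1 1 1 ^ 2 < _; linarith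
    · show g.1.1 *ᵥ mu ∈ ({mu, -mu} : Set (Fin 3 → ℤ))
      rcases g.2.2 with h1 | h1
      · left; exact h1
      · right; exact h1

end Pool.Agent.Helper42.Haag
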